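import Pool.Agent.H64.D1.Law
import Pool.Agent.H43.T4.Iml

/-!
# Entropies: one image of a block given the digits of the target

`fiN_law`: the image of one block of digits of two heights is full given the digits `N` of a third one,
from the entropy of two images given a condition `Z`. `rlo_law`: the digits `N` are full given their
upper digits and upper digits of the two heights.
-/

set_option autoImplicit false

namespace Pool.D164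

open Finset Real
open Pool.Agent.H49.Ent Pool.Agent.H32.Dense Pool.STK
open Pool.T4H (dg tp floor_gap)
open Pool.T4I (ht_gap fl_gap)

variable {Ω ζ υ : Type} [Fintype Ω]

/-- An integer which is known up to `L`. -/
theorem ch_int {q : Ω → ℝ} (hq : IsLaw q) {T : Type} (X : Ω → ℤ) (Z : Ω → T) {L : ℝ}
    (h : ∀ ω ω', 0 < q ω → 0 < q ω' → Z ω = Z ω' → |(X ω : ℝ) - X ω'| ≤ L) :
    CH q X Z ≤ Real.log (2 * L + 1) := by
  have h1 := CH_vosc hq (d := 1) (X := fun ω (_ : Fin 1) => X ω) (Z := Z) (D := L)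
    (fun ω ω' a b e _ => h ω ω' a b e)
  have h2 : CH q X Z ≤ CH q (fun ω (_ : Fin 1) => X ω) Z := by
    refine CH_mono_left hq.nonneg fun ω ω' _ _ e => ?_
    exact congrFun (Prod.ext_iff.mp e).1 0
  push_cast at h1
  linarith

omit [Fintype Ω] in
/-- The digits of a block and the digits above it. -/
theorem dg_add2 (z : Ω → Fin 2 → ℤ) (x i : ℕ) (ω : Ω) (l : Fin 2) :
    ((z ω l / 2 ^ (i * x) : ℤ) : ℝ) = (dg z x i ω l : ℝ) + 2 ^ x * (tp z x i ω l : ℝ) := by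
  unfold dg tp
  push_cast
  ring

/-- **One image of a block** is full given the digits `N`. -/
theorem fiN_law {q : Ω → ℝ} (hq : IsLaw q) {z : Ω → Fin 2 → ℤ} {Y : Ω → Fin 2 → ℝ}
    (hz : ∀ ω, 0 < q ω → ∀ l, |(z ω l : ℝ) - Y ω l| ≤ 2) {N : Ω → ℤ} {kcl : Ω → Fin 3 → ℤ}
    {ka : (Fin 3 → ℤ) → Fin 2 → ℝ} (hka : ∀ k l, |ka k l| ≤ 1) {x i : ℕ} {Y0 : Ω → υ}
    {Z : Ω → ζ} (hk : Det q Z kcl) (hY : Det q Z Y0) {L Λ₀ DN : ℝ}
    (ht : ∀ ω ω', 0 < q ω → 0 < q ω' → Z ω = Z ω' → ∀ l,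
      |(tp z x i ω l : ℝ) - tp z x i ω' l| ≤ L)
    (hN : ∀ ω ω', 0 < q ω → 0 < q ω' → Z ω = Z ω' → |(N ω : ℝ) - N ω'| ≤ DN)
    {I : Ω → Fin 2 → ℤ}
    (hI0 : ∀ ω ω', 0 < q ω → 0 < q ω' → Z ω = Z ω' → |(I ω 0 : ℝ) - I ω' 0| ≤
      Λ₀ * (|(∑ l, ka (kcl ω) l * Y ω l) / 2 ^ (i * x) -
        (∑ l, ka (kcl ω') l * Y ω' l) / 2 ^ (i * x)| + 1) + 1)
    (hI1 : ∀ ω ω', 0 < q ω → 0 < q ω' → Z ω = Z ω' → N ω = N ω' →
      |(I ω 1 : ℝ) - I ω' 1| ≤ 6) (hΛ : 1 ≤ Λ₀) {B₀ : ℝ} (hb : B₀ ≤ CH q I Z) :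
    B₀ - (Real.log (33 * Λ₀) + Real.log 13) - Real.log (2 * DN + 1) - 2 * Real.log (2 * L + 1) ≤
      CH q (fun ω => ⌊(∑ l, ka (kcl ω) l * (dg z x i ω l : ℝ)) / 2 ^ 0⌋)
        (fun ω => (kcl ω, (tp z x i ω, (Y0 ω, N ω)))) := by
  have h0 := hq.nonneg
  obtain ⟨A, hA⟩ : ∃ A, A = fun ω => ⌊(∑ l, ka (kcl ω) l * (dg z x i ω l : ℝ)) / 2 ^ 0⌋ :=
    ⟨_, rfl⟩
  rw [← hA]
  obtain ⟨C, hC⟩ : ∃ C : Ω → ℤ × (ℤ × ((Fin 2 → ℤ) × ζ)), C = fun ω =>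
    (A ω, (N ω, (tp z x i ω, Z ω))) := ⟨_, rfl⟩
  -- the sum from the image of the block
  have key : ∀ ω, 0 < q ω → |(∑ l, ka (kcl ω) l * Y ω l) / 2 ^ (i * x) -
      ((A ω : ℝ) + 2 ^ x * ∑ l, ka (kcl ω) l * tp z x i ω l)| ≤ 7 := by
    intro ω hω
    have k1 := fl_gap ((∑ l, ka (kcl ω) l * (dg z x i ω l : ℝ)) / 2 ^ 0)
    have k2 : ∀ l, |ka (kcl ω) l * (((dg z x i ω l : ℝ) + 2 ^ x * (tp z x i ω l : ℝ)) -
        Y ω l / 2 ^ (i * x))| ≤ 3 := by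
      intro l
      have k3 := ht_gap (hz ω hω l) (i * x)
      rw [dg_add2] at k3
      rw [abs_mul]
      calc _ ≤ 1 * 3 := mul_le_mul (hka _ l) k3 (abs_nonneg _) zero_le_one
        _ = 3 := by norm_num
    have k4 := k2 0
    have k5 := k2 1
    have a1 : (A ω : ℝ) = (⌊(∑ l, ka (kcl ω) l * (dg z x i ω l : ℝ)) / 2 ^ 0⌋ : ℤ) := by rw [hA]
    rw [pow_zero, div_one] at k1 a1
    rw [← a1] at k1
    simp only [Fin.sum_univ_two] at k1 ⊢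
    have e1 : (ka (kcl ω) 0 * Y ω 0 + ka (kcl ω) 1 * Y ω 1) / 2 ^ (i * x) -
        ((A ω : ℝ) + 2 ^ x * (ka (kcl ω) 0 * tp z x i ω 0 + ka (kcl ω) 1 * tp z x i ω 1)) =
        -((A ω : ℝ) - (ka (kcl ω) 0 * dg z x i ω 0 + ka (kcl ω) 1 * dg z x i ω 1)) -
        ka (kcl ω) 0 * (((dg z x i ω 0 : ℝ) + 2 ^ x * (tp z x i ω 0 : ℝ)) -
          Y ω 0 / 2 ^ (i * x)) -
        ka (kcl ω) 1 * (((dg z x i ω 1 : ℝ) + 2 ^ x * (tp z x i ω 1 : ℝ)) -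
          Y ω 1 / 2 ^ (i * x)) := by ring
    rw [e1]
    rw [abs_le] at k1 k4 k5 ⊢
    constructor <;> linarith [k1.1, k1.2, k4.1, k4.2, k5.1, k5.2]
  -- the images given the digits
  have i0 : CH q (fun ω => I ω 0) C ≤ Real.log (33 * Λ₀) := by
    refine (ch_int hq _ C (L := 15 * Λ₀ + 1) fun ω ω' hω hω' e => ?_).trans
      (Real.log_le_log (by linarith) (by linarith))
    rw [hC] at e
    simp only [Prod.mk.injEq] at e
    obtain ⟨e1, -, e2, e3⟩ := e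
    have e4 := hk ω ω' hω hω' e3
    have k1 := key ω hω
    have k2 := key ω' hω'
    rw [← e1, ← e2, ← e4] at k2
    have k3 := hI0 ω ω' hω hω' e3
    have k4 : |(∑ l, ka (kcl ω) l * Y ω l) / 2 ^ (i * x) -
        (∑ l, ka (kcl ω') l * Y ω' l) / 2 ^ (i * x)| ≤ 14 := by
      rw [← e4]
      rw [abs_le] at k1 k2 ⊢
      constructor <;> linarith [k1.1, k1.2, k2.1, k2.2]
    have k5 : Λ₀ * (|(∑ l, ka (kcl ω) l * Y ω l) / 2 ^ (i * x) -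
        (∑ l, ka (kcl ω') l * Y ω' l) / 2 ^ (i * x)| + 1) ≤ Λ₀ * (14 + 1) :=
      mul_le_mul_of_nonneg_left (by linarith) (by linarith)
    linarith
  have i1 : CH q (fun ω => I ω 1) C ≤ Real.log 13 := by
    refine (ch_int hq _ C (L := 6) fun ω ω' hω hω' e => ?_).trans (le_of_eq (by norm_num))
    rw [hC] at e
    simp only [Prod.mk.injEq] at e
    exact hI1 ω ω' hω hω' e.2.2.2 e.2.1
  have i2 : CH q I C ≤ Real.log (33 * Λ₀) + Real.log 13 := by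
    have h1 : CH q I C ≤ CH q (fun ω => (I ω 0, I ω 1)) C :=
      CH_mono_left h0 fun ω ω' _ _ e => by
        have e1 := (Prod.ext_iff.mp e).1
        funext j
        fin_cases j
        · exact (Prod.ext_iff.mp e1).1
        · exact (Prod.ext_iff.mp e1).2
    have h2 := CH_subadd h0 (fun ω => I ω 0) (fun ω => I ω 1) C
    linarith
  have i3 := ch_int hq N Z hN
  have i4 : CH q (tp z x i) Z ≤ 2 * Real.log (2 * L + 1) := by
    have h1 := CH_vosc hq (X := tp z x i) (Z := Z) ht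
    push_cast at h1
    exact h1
  rw [hC] at i2
  have h5 := im_law h0 (A := A) (W := N) (tp := tp z x i) hb i2 i3 i4
  refine h5.trans (CH_mono_cond h0 fun ω ω' hω hω' e => ?_)
  simp only [Prod.mk.injEq] at e ⊢
  exact ⟨hk ω ω' hω hω' e.2.2, e.2.1, hY ω ω' hω hω' e.2.2, e.1⟩

/-- **The digits `N` are full** given their upper digits and the upper digits of the heights. -/
theorem rlo_law {q : Ω → ℝ} (hq : IsLaw q) {z : Ω → Fin 2 → ℤ} {N : Ω → ℤ} {r k : ℕ} {Y0 : Ω → υ}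
    {Z : Ω → ζ} (hY : Det q Z Y0) {L L₁ : ℝ}
    (hz : ∀ ω ω', 0 < q ω → 0 < q ω' → Z ω = Z ω' → ∀ l,
      |((z ω l / 2 ^ k : ℤ) : ℝ) - (z ω' l / 2 ^ k : ℤ)| ≤ L)
    (hN : ∀ ω ω', 0 < q ω → 0 < q ω' → Z ω = Z ω' →
      |((N ω / 2 ^ r : ℤ) : ℝ) - (N ω' / 2 ^ r : ℤ)| ≤ L₁) {I : Ω → ℤ}
    (hI : ∀ ω ω', 0 < q ω → 0 < q ω' → Z ω = Z ω' → N ω = N ω' → |(I ω : ℝ) - I ω'| ≤ 6)
    {B₀ : ℝ} (hb : B₀ ≤ CH q I Z) :
    B₀ - Real.log 13 - Real.log (2 * L₁ + 1) - 2 * Real.log (2 * L + 1) ≤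
      CH q N (fun ω => (N ω / 2 ^ r, ((fun l => z ω l / 2 ^ k), Y0 ω))) := by
  have h0 := hq.nonneg
  obtain ⟨zu, hzu⟩ : ∃ zu : Ω → Fin 2 → ℤ, zu = fun ω l => z ω l / 2 ^ k := ⟨_, rfl⟩
  have i1 : CH q I (fun ω => (N ω, (zu ω, (N ω / 2 ^ r, Z ω)))) ≤ Real.log 13 := by
    refine (ch_int hq _ _ (L := 6) fun ω ω' hω hω' e => ?_).trans (le_of_eq (by norm_num))
    simp only [Prod.mk.injEq] at e
    exact hI ω ω' hω hω' e.2.2.2 e.1
  have i2 := ch_int hq (fun ω => N ω / 2 ^ r) Z hN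
  have i3 : CH q zu Z ≤ 2 * Real.log (2 * L + 1) := by
    have h1 := CH_vosc hq (X := zu) (Z := Z) (D := L) (fun ω ω' a b e l => by
      rw [hzu]
      exact hz ω ω' a b e l)
    push_cast at h1
    exact h1
  have c1 := CH_le_add h0 I (fun ω => N ω / 2 ^ r) Z
  have c2 := CH_le_add h0 I zu (fun ω => (N ω / 2 ^ r, Z ω))
  have c3 := CH_le_add h0 I N (fun ω => (zu ω, (N ω / 2 ^ r, Z ω)))
  have c4 : CH q zu (fun ω => (N ω / 2 ^ r, Z ω)) ≤ CH q zu Z :=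
    CH_mono_cond h0 fun ω ω' _ _ e => (Prod.ext_iff.1 e).2
  have c5 : CH q N (fun ω => (zu ω, (N ω / 2 ^ r, Z ω))) ≤
      CH q N (fun ω => (N ω / 2 ^ r, ((fun l => z ω l / 2 ^ k), Y0 ω))) :=
    CH_mono_cond h0 fun ω ω' hω hω' e => by
      simp only [Prod.mk.injEq] at e ⊢
      refine ⟨e.2.1, ?_, hY ω ω' hω hω' e.2.2⟩
      have := e.1
      rw [hzu] at this
      exact this
  linarith

end Pool.D164
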