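import Pool.Agent.H64.D1.CS
import Pool.Agent.H25.TIC.Of
import Pool.Agent.H63.T4.Wall

/-!
# Two alive places of one slope below a faster target: the pieces of the class theorem

`Dgt`: the digits of one system. `DgtStmt`, `RecStmt`, `RowStmt`, `FigStmt`, `NnlStmt`: the pieces.
-/

set_option autoImplicit false

namespace Pool.D164

open Finset Real MvPolynomial
open Pool.Agent.H49.Ent Pool.Agent.H32.Dense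
open Pool.STK hiding pr2
open Pool.KA Pool.KSAT Pool.K2S Pool.PB Pool.S6C
open Pool.GEN Pool.CHT Pool.CHX Pool.LA91 Pool.RCD Pool.V0F
open Pool.PRC54 (yQ)
open Pool.FVL91 (qVel)
open Pool.T4N (Frm FrmP fX fV fXs fVs dgV cYp cR1 ClE)
open Pool.IMN17 (ImK)
open Pool.T4E (vtf)
open Pool.T4G (AffX wD wN NrW)
open Pool.T4C (FI1G)
open Pool.TIC (tG wS)

variable {m J : ℕ}

/-- The position of `c 0` in the units `2 ^ (6 - lP)`, with the shift `k / 2`. -/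
noncomputable def yL (F : Fam m J) (c : ℕ → Fin m) (lP k : ℕ) (ω : F.Ω) : ℝ :=
  (2 : ℝ) ^ (lP - 6) * F.x ω (c 0) + (k : ℝ) / (2 : ℕ)

/-- The law on an event. -/
noncomputable abbrev cB (F : Fam m J) (B : F.Ω → Prop) : F.Ω → ℝ :=
  Pool.Agent.H49.Ent.cond F.p B True

/-- **The digits of one system**, functions of the exact point: `z` of the alive places, `N` of the
target, `Y0` the digits of the position of `c 0` off the walls, the record of the window `xa`, the time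
and the side information. -/
structure Dgt (F : Fam m J) (c : ℕ → Fin m) (B : F.Ω → Prop) (fx : F.Ω → Fin 3 → ℝ) (xa : ℝ)
    (g : Fin 3 → ℕ) (lP k : ℕ) (z : PtT F → Fin 2 → ℤ) (N : PtT F → Fin 1 → ℤ)
    (Y0 : PtT F → ℤ × ((ClE F B xa → Prop) × (ℕ × F.ζ))) : Prop where
  k2 : k < 2
  off : ∀ ω, B ω → ¬ NrW 2 (yL F c lP k ω)
  zz : ∀ ω, B ω → ∀ i : Fin 2,
    |(z (ptr F J ω) i : ℝ) - 2 ^ g i.castSucc * fx ω i.castSucc| ≤ 2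
  nn : ∀ ω, B ω → ∀ i : Fin 1, |(N (ptr F J ω) i : ℝ) - 2 ^ g 2 * fx ω 2| ≤ 2
  y0 : ∀ ω, B ω → Y0 (ptr F J ω) = (⌊yL F c lP k ω⌋, (cR F B xa ω, F.W ω))

/-- **(D) The digits exist.** -/
def DgtStmt : Prop := ∀ {m J : ℕ} {F : Fam m J} {c : ℕ → Fin m} {B : F.Ω → Prop}
    {w P : Fin 3 → ℕ} {Fr : Frm F}, FrmP F c w P B Fr → ∀ {xa : ℝ} (g : Fin 3 → ℕ) (lP k : ℕ),
    k < 2 → (∀ ω, B ω → ¬ NrW 2 (yL F c lP k ω)) → 6 ≤ lP → lP ≤ J → 8 ≤ J →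
    (∀ ω, B ω → ∀ (i : Fin 3) (o : Option (Fin m)), (2 : ℝ) ^ g i * (8 *
      |coeff (Finsupp.single o 1) (Fr.G i (Fr.z' i (slam F (w i) ω)))|) ≤ 2 ^ J) →
    (∀ i, g i + 8 ≤ J) →
    ∃ (z : PtT F → Fin 2 → ℤ) (N : PtT F → Fin 1 → ℤ)
      (Y0 : PtT F → ℤ × ((ClE F B xa → Prop) × (ℕ × F.ζ))),
      Dgt F c B (fX F c w Fr) xa g lP k z N Y0

/-- **(R) The records of one system**: the hypotheses of the tie about the heights, the records and the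
few numbers. -/
def RecStmt : Prop := ∀ {m J : ℕ} {F : Fam m J} {c : ℕ → Fin m} {sn : ℕ → ℝ → ℝ}
    {B : F.Ω → Prop} {w P : Fin 3 → ℕ} {Fr : Frm F} {b xa ε R μ : ℝ} {W : Fin 3 → ℝ},
    0 < Pe F.p B → FrmP F c w P B Fr →
    NatE F c sn b ε R W B (fX F c w Fr) (fV F c w Fr) → 0 ≤ ε → 0 ≤ μ → 0 ≤ xa → xa ≤ b → b ≤ 1 →
    (∀ i, w i ≤ ⌊xa * J⌋₊) → ∀ (g : Fin 3 → ℕ) (q lP lL k : ℕ)
    (z : PtT F → Fin 2 → ℤ) (N : PtT F → Fin 1 → ℤ)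
    (Y0 : PtT F → ℤ × ((ClE F B xa → Prop) × (ℕ × F.ζ))),
    Dgt F c B (fX F c w Fr) xa g lP k z N Y0 → 6 ≤ lP → lP ≤ lL + ⌊xa * J⌋₊ + 2 →
    -- the digits of the heights are natural at `b`
    (∀ i : Fin 2, (2 : ℝ) ^ g i.castSucc * (4 * 2 ^ ((2 * ε - sn (1 + i) b) * J)) ≤ 1) →
    (∀ i : Fin 3, (2 : ℝ) ^ g i * 2 ^ (W i * J) ≤ 2 ^ lP) →
    (g 2 : ℝ) - sn 3 b * J ≤ μ * J → (g 2 : ℝ) - ⌊xa * J⌋₊ + (b - sn 3 b) * J ≤ μ * J →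
    (∀ i : Fin 2, (g i.castSucc : ℝ) - ⌊xa * J⌋₊ - q + (b - sn (1 + i) b) * J ≤ μ * J) →
    -- the heights are affine on the lines
    (AffX (cB F B) ⌊xa * J⌋₊ (fun ω (i : Fin 2) => fX F c w Fr ω i.castSucc)
      (fun s i => fXs c w Fr ⌊xa * J⌋₊ s i.castSucc)
      (fun s i => fVs c w Fr ⌊xa * J⌋₊ s i.castSucc)) ∧
    (AffX (cB F B) ⌊xa * J⌋₊ (fun ω (_ : Fin 1) => fX F c w Fr ω 2)
      (fun s _ => fXs c w Fr ⌊xa * J⌋₊ s 2) (fun s _ => fVs c w Fr ⌊xa * J⌋₊ s 2)) ∧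
    -- the record of `b` determines the record of `xa` and the heights of the alive places
    (∀ ω ω', 0 < cB F B ω → 0 < cB F B ω' →
      (cR F B b ω, cR F B xa ω) = (cR F B b ω', cR F B xa ω') → F.T ω = F.T ω' →
      cYp c lP lL ⌊xa * J⌋₊ (slam F ⌊xa * J⌋₊ ω) = cYp c lP lL ⌊xa * J⌋₊ (slam F ⌊xa * J⌋₊ ω') →
      cR1 F B xa (slam F ⌊xa * J⌋₊ ω) = cR1 F B xa (slam F ⌊xa * J⌋₊ ω')) ∧
    (∀ ω ω', 0 < cB F B ω → 0 < cB F B ω' →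
      (cR F B b ω, cR F B xa ω) = (cR F B b ω', cR F B xa ω') → F.T ω = F.T ω' →
      cYp c lP lL ⌊xa * J⌋₊ (slam F ⌊xa * J⌋₊ ω) = cYp c lP lL ⌊xa * J⌋₊ (slam F ⌊xa * J⌋₊ ω') →
      ∀ i : Fin 2, |2 ^ g i.castSucc * fX F c w Fr ω i.castSucc -
        2 ^ g i.castSucc * fX F c w Fr ω' i.castSucc| ≤ ((10 : ℕ) : ℝ) - 4) ∧
    -- the closed side information
    (∀ ω ω', 0 < cB F B ω → 0 < cB F B ω' → vtf F ⌊xa * J⌋₊ ω = vtf F ⌊xa * J⌋₊ ω' →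
      cYp c lP lL ⌊xa * J⌋₊ (slam F ⌊xa * J⌋₊ ω) = cYp c lP lL ⌊xa * J⌋₊ (slam F ⌊xa * J⌋₊ ω') →
      cR1 F B xa (slam F ⌊xa * J⌋₊ ω) = cR1 F B xa (slam F ⌊xa * J⌋₊ ω') →
      Y0 (ptr F J ω) = Y0 (ptr F J ω')) ∧
    -- the codes of the sides and the upper digits of the velocities are few
    CH (cB F B) (fun ω => (wS (fun s (_ : Fin 1) => fXs c w Fr ⌊xa * J⌋₊ s 2)
        (fun s _ => fVs c w Fr ⌊xa * J⌋₊ s 2) ⌊xa * J⌋₊ (fun _ => g 2) (slam F ⌊xa * J⌋₊ ω),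
        wN (fun s (i : Fin 2) => fVs c w Fr ⌊xa * J⌋₊ s i.castSucc) ⌊xa * J⌋₊
          (fun i => g i.castSucc) q (slam F ⌊xa * J⌋₊ ω)))
      (tG ⌊xa * J⌋₊ (fun ω => (cR F B b ω, cR F B xa ω)) (cYp c lP lL ⌊xa * J⌋₊)) ≤
      (8 * ε + 4 * μ) * J + 40

/-- **(W) The row** of the digits of the alive places given the digits of the target: `v₁` is the window
of the upper bound, `v₂` of the image. -/
def RowStmt : Prop := ∀ {m D : ℕ} {S : PCl m} {c : ℕ → Fin m} {sn : ℕ → ℝ → ℝ} {G : Set ℝ}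
    {s σ hr b o t q Λ φ' : ℝ}, 1 < s → s < σ → 0 ≤ hr →
    (∀ (τ : ℝ) (J : ℕ) (F : Fam m J) (A : F.Ω → Prop), S.St τ J F A → 0 < Pe F.p A) →
    BoxD S c D sn G s σ hr b o t q Λ φ' →
    ∀ (v₁ v₂ xa P₁ P₂ ε R κ κ' μ h ϖ : ℝ) (W₁ W₂ : Fin 3 → ℝ), 0 ≤ ε → v₁ ∈ G → t ≤ xa → 0 ≤ xa →
    xa ≤ v₁ → v₁ ≤ t + Λ * q → xa ≤ v₂ → v₂ ≤ 1 →
    ImK S c 1 3 (fun l => sn (1 + l) v₂) (fun l => R - sn (1 + l) v₂) v₂ R κ κ' →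
    P₁ ≤ P₂ → |P₁ - sn 3 t| ≤ Λ * q → |P₂ - sn 3 t| ≤ Λ * q → 0 ≤ μ → ε + μ < κ → 0 ≤ κ' →
    0 < h → 0 < ϖ →
    Bas S (fun J F A => ∀ (w P : Fin 3 → ℕ) (Fr : Frm F), FrmP F c w P A Fr →
      (∀ i, w i ≤ ⌊xa * J⌋₊) → NatE F c sn v₁ ε R W₁ A (fX F c w Fr) (fV F c w Fr) →
      NatE F c sn v₂ ε R W₂ A (fX F c w Fr) (fV F c w Fr) →
      ∀ (g : Fin 3 → ℕ) (r k lP ks : ℕ),
      -- the numbers at `v₁`
      (∀ i : Fin 3, (2 : ℝ) ^ g i * (4 * 2 ^ ((2 * ε - sn (1 + i) v₁) * J)) ≤ 1) →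
      (∀ i : Fin 3, (2 : ℝ) ^ g i * 2 ^ (W₁ i * J) ≤ 2 ^ (lP - 6)) →
      (∀ ω, A ω → ∀ (i : Fin 3) (o : Option (Fin m)), (2 : ℝ) ^ g i *
        |coeff (Finsupp.single o 1) (Fr.G i (Fr.z' i (slam F (w i) ω)))| ≤ 2 ^ J) →
      6 ≤ lP → lP ≤ J → (sn 0 v₁ * J + 6 ≤ lP) →
      (∀ i : Fin 3, (i : ℕ) < 2 → sn (1 + i) v₁ * J ≤ g i + μ * J) →
      g 2 = ⌊P₂ * J⌋₊ → g 2 = ⌊P₁ * J⌋₊ + r →
      -- the numbers at `v₂`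
      (∀ l : Fin 2, (g l.castSucc : ℝ) - k - sn (1 + l) v₂ * J ≤ μ * J) →
      |(g 2 : ℝ) - r - sn 3 v₂ * J| ≤ μ * J → (g 2 : ℝ) - sn 3 v₂ * J ≤ (1 - R) * J →
      (∀ l : Fin 3, (2 : ℝ) ^ g l * 2 ^ (W₂ l * J) * 2 ≤ 2 ^ J) →
      -- the digits
      ∀ (z : PtT F → Fin 2 → ℤ) (N : PtT F → Fin 1 → ℤ)
        (Y0 : PtT F → ℤ × ((ClE F A xa → Prop) × (ℕ × F.ζ))),
      Dgt F c A (fX F c w Fr) xa g lP ks z N Y0 →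
      ∀ E : F.Ω → Prop, ϖ ≤ Pe (cB F A) E → 0 < Pe (cB F A) E →
      CH (Pool.Agent.H49.Ent.cond (cB F A) E True) (fun ω => z (ptr F J ω))
        (fun ω => ((fun l => z (ptr F J ω) l / 2 ^ k), (Y0 (ptr F J ω), N (ptr F J ω)))) ≤
        (2 * k - hr * r) * Real.log 2 + (κ' + 7 * ε + 6 * μ + φ' + 3 * h) * J)

/-- **(I) The images of the blocks** `i < n` of length `u`: the window of the block `i` is `v i`. -/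
def FigStmt : Prop := ∀ {m : ℕ} {S : PCl m} {c : ℕ → Fin m} {sn : ℕ → ℝ → ℝ},
    (∀ (τ : ℝ) (J : ℕ) (F : Fam m J) (A : F.Ω → Prop), S.St τ J F A → 0 < Pe F.p A) →
    ∀ (n : ℕ) (v : ℕ → ℝ) (xa ε R κ κ' μ h ϖ : ℝ) (W : ℕ → Fin 3 → ℝ),
    0 ≤ xa → (∀ i < n, xa ≤ v i ∧ v i ≤ 1) →
    (∀ i < n, ImK S c 1 3 (fun l => sn (1 + l) (v i)) (fun l => R - sn (1 + l) (v i)) (v i) R κ
      κ') → 0 ≤ ε → 0 ≤ μ → ε + μ < κ → 0 ≤ κ' → 0 < h → 0 < ϖ →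
    Bas S (fun J F A => ∀ (w P : Fin 3 → ℕ) (Fr : Frm F), FrmP F c w P A Fr →
      (∀ i < n, NatE F c sn (v i) ε R (W i) A (fX F c w Fr) (fV F c w Fr)) →
      ∀ (g : Fin 3 → ℕ) (u lP ks : ℕ), 6 ≤ lP → lP ≤ J →
      (∀ i < n, ∀ l : Fin 2,
        |(g l.castSucc : ℝ) - ((i : ℝ) + 1) * u - sn (1 + l) (v i) * J| ≤ μ * J) →
      (∀ i < n, (u : ℝ) ≤ g 2 - sn 3 (v i) * J) →
      (∀ i < n, (g 2 : ℝ) - sn 3 (v i) * J ≤ (1 - R) * J) →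
      (∀ i < n, ∀ l : Fin 3, (2 : ℝ) ^ g l * 2 ^ (W i l * J) * 2 ≤ 2 ^ J) →
      ∀ (z : PtT F → Fin 2 → ℤ) (N : PtT F → Fin 1 → ℤ)
        (Y0 : PtT F → ℤ × ((ClE F A xa → Prop) × (ℕ × F.ζ))),
      Dgt F c A (fX F c w Fr) xa g lP ks z N Y0 →
      FI1G (N := 1) (cB F A) (slam F ⌊xa * J⌋₊) (ptr F J) (fun ω => z (ptr F J ω))
        (fun ω => (Y0 (ptr F J ω), N (ptr F J ω))) u n 0
        (u * Real.log 2 - (κ' + 6 * ε + 2 * μ + h) * J) ϖ)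

/-- **(N) The number from the tie**: if the first digits of the velocities are few on an event, then
the number is small. -/
def NnlStmt : Prop := ∀ {m : ℕ} {S : PCl m} {c : ℕ → Fin m} {sn : ℕ → ℝ → ℝ} {bl pl : ℕ → ℝ},
    (∀ (τ : ℝ) (J : ℕ) (F : Fam m J) (A : F.Ω → Prop), S.St τ J F A → 0 < Pe F.p A) →
    ∀ {P₀ lam ς θ xa xb xj : ℝ}, 0 ≤ xa → xa ≤ xb → xb ≤ 1 → (∀ k < 3, bl k ≤ xa) →
    NN S (fun J F => ptr F J) (vg xb) (yQ ((range 1).image c) P₀ lam)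
      (qVel m c 1 2 1 bl pl (dgV sn ς xj)) θ →
    ∀ {μ η δ Kc : ℝ}, 0 ≤ μ → 0 < η → 0 < δ → 0 ≤ Kc →
    ∃ e₀ : ℝ, 0 < e₀ ∧ ∀ e ≤ e₀, Bas S (fun J F B => ∀ Fr : Frm F,
      FrmP F c (wF bl J) (pF pl e J) B Fr →
      ∀ (g : Fin 2 → ℕ) (q : ℕ), ⌊P₀ * J⌋₊ ≤ ⌊lam * J⌋₊ + ⌊xa * J⌋₊ + 2 →
      (∀ k : Fin 2, dgV sn ς xj k * J ≤ g k - ⌊xa * J⌋₊ - q + μ * J + Kc) →
      ∀ (E : F.Ω → Prop) (ε₁ : ℝ), δ ≤ Pe (cB F B) E →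
      CH (Pool.Agent.H49.Ent.cond (cB F B) E True)
        (fun ω i => wD (fun s (k : Fin 2) => fVs c (wF bl J) Fr ⌊xa * J⌋₊ s k.castSucc)
          ⌊xa * J⌋₊ g (slam F ⌊xa * J⌋₊ ω) i / 2 ^ q)
        (tG ⌊xa * J⌋₊ (fun ω => (cR F B xb ω, cR F B xa ω))
          (cYp c ⌊P₀ * J⌋₊ ⌊lam * J⌋₊ ⌊xa * J⌋₊)) ≤ ε₁ →
      θ * J ≤ ε₁ + (2 * μ * Real.log 2 + η) * J)

end Pool.D164
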