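import Pool.Agent.H55.T4.Row
import Pool.Agent.H64.TIU.Law

/-!
# Entropies: the row with a side image and one image given another one

`CH_vosc`: a vector which oscillates by at most `D` given the condition. `row_law`: the row of two
coordinates given a third one which is full over them. `im_law`: one image is full given another one,
from two images.
-/

set_option autoImplicit false

namespace Pool.D164

open Finset Real
open Pool.Agent.H49.Ent Pool.Agent.H32.Dense Pool.STK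
open Pool.T4R (CH_osc)

section

variable {Ω : Type} [Fintype Ω] {p : Ω → ℝ}

/-- **A vector of small oscillation** given the condition. -/
theorem CH_vosc (hp : IsLaw p) {d : ℕ} {T : Type} {X : Ω → Fin d → ℤ} {Z : Ω → T} {D : ℝ}
    (h : ∀ ω ω', 0 < p ω → 0 < p ω' → Z ω = Z ω' → ∀ i, |(X ω i : ℝ) - X ω' i| ≤ D) :
    CH p X Z ≤ d * Real.log (2 * D + 1) := by
  have h1 := CH_le_vec hp.nonneg hp.sum_one X Z (fun _ => D) (fun ω ω' hω hω' e i => by
    have := h ω ω' hω hω' e i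
    push_cast
    exact this)
  rw [Pool.Agent.H32.Dense.Ex_const hp.sum_one] at h1
  exact h1

/-- A function of the first variable. -/
theorem CH_fn (h0 : ∀ ω, 0 ≤ p ω) {S T U : Type} (X : Ω → S) (f : S → T) (Z : Ω → U) :
    CH p X Z = CH p (fun ω => f (X ω)) Z + CH p X (fun ω => (f (X ω), Z ω)) := by
  rw [← CH_chain h0]
  refine CH_congr h0 (fun ω ω' _ _ e => ?_) (fun ω ω' _ _ e => ?_) (fun _ _ _ _ e => e)
    (fun _ _ _ _ e => e)
  · have h1 : X ω = X ω' := (Prod.ext_iff.1 e).1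
    show (X ω, f (X ω)) = (X ω', f (X ω'))
    rw [h1]
  · exact (Prod.ext_iff.1 (Prod.ext_iff.1 e).1).1

/-- The lower digits. -/
theorem CH_blk (hp : IsLaw p) {d : ℕ} {T : Type} (X : Ω → Fin d → ℤ) (q : ℕ) (Z : Ω → T) :
    CH p X (fun ω => ((fun i => X ω i / 2 ^ q), Z ω)) ≤ d * ((q + 2) * Real.log 2) := by
  refine (CH_vosc hp (D := (2 : ℝ) ^ q) fun ω ω' _ _ e i => ?_).trans
    (mul_le_mul_of_nonneg_left ?_ (Nat.cast_nonneg d))
  · have h1 : X ω i / (2 : ℤ) ^ q = X ω' i / 2 ^ q := congrFun (Prod.ext_iff.1 e).1 i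
    exact Pool.T4R.near_of_div h1
  · have h1 : 2 * (2 : ℝ) ^ q + 1 ≤ 2 ^ (q + 2) := by
      have : (1 : ℝ) ≤ 2 ^ q := one_le_pow₀ (by norm_num)
      rw [pow_add]
      linarith
    refine (Real.log_le_log (by positivity) h1).trans (le_of_eq ?_)
    rw [Real.log_pow]
    push_cast
    ring

/-- **The row of the coordinates `z` given the digits `W`**: `W` is full over the upper digits of `z`
and not full over `z`. -/
theorem row_law (hp : IsLaw p) {d : ℕ} {υ : Type} {z : Ω → Fin d → ℤ} {W : Ω → ℤ} {q r : ℕ}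
    {Y : Ω → υ} {a₁ a₂ : ℝ}
    (hlow : a₁ ≤ CH p W (fun ω => (W ω / 2 ^ r, ((fun i => z ω i / 2 ^ q), Y ω))))
    (hup : CH p W (fun ω => (W ω / 2 ^ r, (z ω, Y ω))) ≤ a₂) :
    CH p z (fun ω => ((fun i => z ω i / 2 ^ q), (Y ω, W ω))) ≤
      d * ((q + 2) * Real.log 2) + (a₂ - a₁) := by
  have h0 := hp.nonneg
  obtain ⟨zu, hzu⟩ : ∃ zu : Ω → Fin d → ℤ, zu = fun ω i => z ω i / 2 ^ q := ⟨_, rfl⟩
  have e0 : CH p z (fun ω => ((fun i => z ω i / 2 ^ q), (Y ω, W ω))) ≤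
      CH p z (fun ω => (W ω, (zu ω, Y ω))) := CH_mono_cond h0 fun ω ω' _ _ e => by
    simp only [Prod.mk.injEq] at e
    rw [hzu]
    exact Prod.ext e.2.2 (Prod.ext e.1 e.2.1)
  have c1 := CH_chain h0 z W (fun ω => (zu ω, Y ω))
  have c2 := CH_chain h0 W z (fun ω => (zu ω, Y ω))
  have c3 : CH p (fun ω => (z ω, W ω)) (fun ω => (zu ω, Y ω)) =
      CH p (fun ω => (W ω, z ω)) (fun ω => (zu ω, Y ω)) :=
    CH_congr h0 (fun ω ω' _ _ e => by
      simp only [Prod.mk.injEq] at e ⊢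
      exact ⟨e.1.2, e.1.1⟩) (fun ω ω' _ _ e => by
      simp only [Prod.mk.injEq] at e ⊢
      exact ⟨e.1.2, e.1.1⟩) (fun _ _ _ _ e => e) (fun _ _ _ _ e => e)
  have d1 := CH_fn h0 W (fun x => x / (2 : ℤ) ^ r) (fun ω => (z ω, (zu ω, Y ω)))
  have d2 := CH_fn h0 W (fun x => x / (2 : ℤ) ^ r) (fun ω => (zu ω, Y ω))
  have d3 : CH p (fun ω => W ω / (2 : ℤ) ^ r) (fun ω => (z ω, (zu ω, Y ω))) ≤
      CH p (fun ω => W ω / (2 : ℤ) ^ r) (fun ω => (zu ω, Y ω)) :=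
    CH_mono_cond h0 fun ω ω' _ _ e => (Prod.ext_iff.1 e).2
  have d4 : CH p W (fun ω => (W ω / (2 : ℤ) ^ r, (z ω, (zu ω, Y ω)))) ≤ a₂ := by
    refine le_trans (CH_mono_cond h0 fun ω ω' _ _ e => ?_) hup
    simp only [Prod.mk.injEq] at e ⊢
    exact ⟨e.1, e.2.1, e.2.2.2⟩
  have d5 : a₁ ≤ CH p W (fun ω => (W ω / (2 : ℤ) ^ r, (zu ω, Y ω))) := by
    rw [hzu]
    exact hlow
  have d6 : CH p z (fun ω => (zu ω, Y ω)) ≤ d * ((q + 2) * Real.log 2) := by
    rw [hzu]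
    exact CH_blk hp z q Y
  linarith

/-- **One image is full given another one**, from the fullness of two images. -/
theorem im_law (h0 : ∀ ω, 0 ≤ p ω) {α β γ T Zt : Type} {A : Ω → α} {W : Ω → β} {I : Ω → γ}
    {tp : Ω → T} {Z : Ω → Zt} {B₀ d₀ dW dt : ℝ} (h : B₀ ≤ CH p I Z)
    (hI : CH p I (fun ω => (A ω, (W ω, (tp ω, Z ω)))) ≤ d₀) (hW : CH p W Z ≤ dW)
    (ht : CH p tp Z ≤ dt) : B₀ - d₀ - dW - dt ≤ CH p A (fun ω => (W ω, (tp ω, Z ω))) := by
  have c1 := CH_le_add h0 I tp Z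
  have c2 := CH_le_add h0 I W (fun ω => (tp ω, Z ω))
  have c3 := CH_le_add h0 I A (fun ω => (W ω, (tp ω, Z ω)))
  have c4 : CH p W (fun ω => (tp ω, Z ω)) ≤ CH p W Z :=
    CH_mono_cond h0 fun ω ω' _ _ e => (Prod.ext_iff.1 e).2
  linarith

end

end Pool.D164
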