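import Pool.Agent.H64.D1.Nat

/-!
# Two alive places of one slope below a faster target: statements

`EvD`: one event with an affine frame and natural coordinates at the windows of a list. `EvDStmt`: such
events exist. `RwUStmt`: the digits of the target are not full given the digits of the alive places.
`FreDStmt`: the velocities are free. `D1ClsStmt`: few velocities.
-/

set_option autoImplicit false

namespace Pool.D164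

open Finset Real MvPolynomial
open Pool.Agent.H49.Ent Pool.Agent.H32.Dense
open Pool.STK hiding pr2
open Pool.KA Pool.KSAT Pool.K2S Pool.PB Pool.S6C
open Pool.GEN Pool.CHT Pool.CHX Pool.LA91 Pool.RCD Pool.V0F
open Pool.T4N (Frm FrmP fX fV fXs fVs dgV cYp cR1)
open Pool.IMN17 (ImK)

/-- The windows of the frame. -/
noncomputable def wF (bl : ℕ → ℝ) (J : ℕ) (i : Fin 3) : ℕ := ⌊bl i * J⌋₊

/-- The precisions of the frame. -/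
noncomputable def pF (pl : ℕ → ℝ) (e : ℝ) (J : ℕ) (i : Fin 3) : ℕ := ⌊(pl i - e) * J⌋₊

/-- **One event**: the frame at the window `t` and natural coordinates at the windows `vs k`, `k ≤ n`.
`e₀`: the accuracy of the frame; `ε`: the errors; `R`: the bound of the level and the slope of a
label. -/
structure EvD {m J : ℕ} (F : Fam m J) (c : ℕ → Fin m) (sn : ℕ → ℝ → ℝ) (bl pl : ℕ → ℝ)
    (t e₀ ε R : ℝ) (n : ℕ) (vs : ℕ → ℝ) (B : F.Ω → Prop) (Fr : Frm F) : Prop where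
  frm : FrmP F c (wF bl J) (pF pl e₀ J) B Fr
  raw : ∀ ω, B ω → ∀ (i : Fin 3) (o : Option (Fin m)),
    |coeff (Finsupp.single o 1) (Fr.G i (Fr.z' i (slam F (wF bl J i) ω)))| ≤
      2 ^ ((R - sn (1 + i) t + ε) * J)
  nat : ∀ k ≤ n, NatE F c sn (vs k) ε R (fun i => sn 0 (vs k) - sn (1 + i) t + ε) B
    (fX F c (wF bl J) Fr) (fV F c (wF bl J) Fr)

/-- **The frame and natural coordinates exist** on a part of every event. -/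
def EvDStmt : Prop := ∀ s σ : ℝ, 1 < s → s < σ → ∃ C : ℝ, 1 ≤ C ∧
  ∀ {m D : ℕ} {S : PCl m} {c : ℕ → Fin m} {sn : ℕ → ℝ → ℝ} {G : Set ℝ}
    {hr b o t q Λ φ' e : ℝ} {bl pl : ℕ → ℝ},
    (∀ (τ : ℝ) (J : ℕ) (F : Fam m J) (A : F.Ω → Prop), S.St τ J F A → 0 < Pe F.p A) →
    BoxD S c D sn G s σ hr b o t q Λ φ' → 0 < e → φ' ≤ e * q →
    AffD S c sn t (e * q) bl pl →
    (∀ v ∈ G, t ≤ v → v ≤ t + Λ * q → ∃ bl' pl' : ℕ → ℝ, AffD S c sn v (e * q) bl' pl') →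
    bl 2 = t → pl 2 = sn 3 t - e * q →
    ∀ (n : ℕ) (vs : ℕ → ℝ), vs 0 = t → (∀ k ≤ n, vs k ∈ G ∧ t ≤ vs k ∧ vs k ≤ t + Λ * q) →
    AfK S c n vs (fun k => sn 3 (vs k) - e * q) →
    ∀ e₀ : ℝ, 0 < e₀ → ∃ c₀ : ℝ, 0 < c₀ ∧ Bas S (fun J F A =>
      ∃ (B : F.Ω → Prop) (Fr : Frm F), Sub B A ∧ c₀ * Pe F.p A ≤ Pe F.p B ∧
        EvD F c sn bl pl t e₀ (C * (e * q)) (1 - Λ * q) n vs B Fr)

/-- **The digits of the target are not full** given its upper digits and the digits of the alive places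
which are natural at the window `v₁`, far digits of `c 0` and a closed code of the window `xa`. -/
def RwUStmt : Prop := ∀ {m D : ℕ} {S : PCl m} {c : ℕ → Fin m} {sn : ℕ → ℝ → ℝ} {G : Set ℝ}
    {s σ hr b o t q Λ φ' : ℝ}, 1 < s → s < σ → 0 ≤ hr →
    (∀ (τ : ℝ) (J : ℕ) (F : Fam m J) (A : F.Ω → Prop), S.St τ J F A → 0 < Pe F.p A) →
    BoxD S c D sn G s σ hr b o t q Λ φ' →
    ∀ (v₁ xa P₁ P₂ ε R μ h : ℝ) (W : Fin 3 → ℝ), 0 ≤ ε → v₁ ∈ G → t ≤ xa → xa ≤ v₁ →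
    v₁ ≤ t + Λ * q → P₁ ≤ P₂ → |P₁ - sn 3 t| ≤ Λ * q → |P₂ - sn 3 t| ≤ Λ * q → 0 ≤ μ → 0 < h →
    Bas S (fun J F A => ∀ (w P : Fin 3 → ℕ) (Fr : Frm F), FrmP F c w P A Fr →
      (∀ i, w i ≤ ⌊xa * J⌋₊) → NatE F c sn v₁ ε R W A (fX F c w Fr) (fV F c w Fr) →
      ∀ (g : Fin 3 → ℕ) (r lP : ℕ),
      -- the digits are natural at `v₁`, the slopes over the far digits and over the exact digits
      (∀ i : Fin 3, (2 : ℝ) ^ g i * (4 * 2 ^ ((2 * ε - sn (1 + i) v₁) * J)) ≤ 1) →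
      (∀ i : Fin 3, (2 : ℝ) ^ g i * 2 ^ (W i * J) ≤ 2 ^ lP) →
      (∀ ω, A ω → ∀ (i : Fin 3) (o : Option (Fin m)), (2 : ℝ) ^ g i *
        |coeff (Finsupp.single o 1) (Fr.G i (Fr.z' i (slam F (w i) ω)))| ≤ 2 ^ J) →
      lP ≤ J → (sn 0 v₁ * J ≤ lP) →
      (∀ i : Fin 3, (i : ℕ) < 2 → sn (1 + i) v₁ * J ≤ g i + μ * J) →
      g 2 = ⌊P₂ * J⌋₊ → g 2 = ⌊P₁ * J⌋₊ + r →
      -- the closed code, the digits
      ∀ (V : Type) (y : PtT F → V) (y' : LnT F → V),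
      (∀ ω, A ω → y (ptr F J ω) = y' (slam F ⌊xa * J⌋₊ ω)) →
      (∀ ω ω', A ω → A ω' → y' (slam F ⌊xa * J⌋₊ ω) = y' (slam F ⌊xa * J⌋₊ ω') → ∀ i,
        Fr.G i (Fr.z' i (slam F (w i) ω)) = Fr.G i (Fr.z' i (slam F (w i) ω'))) →
      ∀ (z : F.Ω → Fin 2 → ℤ) (N Y : F.Ω → ℤ),
      (∀ ω, A ω → ∀ i : Fin 2, |(z ω i : ℝ) - 2 ^ g i.castSucc * fX F c w Fr ω i.castSucc| ≤ 2) →
      (∀ ω, A ω → |(N ω : ℝ) - 2 ^ g 2 * fX F c w Fr ω 2| ≤ 2) →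
      (∀ ω, A ω → |(Y ω : ℝ) - 2 ^ lP * F.x ω (c 0)| ≤ 2) →
      CH (Pool.Agent.H49.Ent.cond F.p A True) N
        (fun ω => (N ω / 2 ^ r, (z ω, (Y ω, (y' (slam F ⌊xa * J⌋₊ ω), F.W ω))))) ≤
        (1 - hr) * r * Real.log 2 + (φ' + 2 * μ + ε + h) * J)

/-- **The velocities of the alive places are free** given the record of the window `x i` and the far
path: the record of the window `x j` says nothing about the digits behind natural at `x j`. -/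
def FreDStmt : Prop := ∀ {m : ℕ} {S : PCl m} {c : ℕ → Fin m} {sn : ℕ → ℝ → ℝ} {bl pl : ℕ → ℝ},
    (∀ (τ : ℝ) (J : ℕ) (F : Fam m J) (A : F.Ω → Prop), S.St τ J F A → 0 < Pe F.p A) →
    (∃ C₀, TmC S C₀) → ∀ {P₀ lam ς C κ : ℝ} {L : ℕ} {x : ℕ → ℝ} {N : ℕ → ℕ → ℝ},
    NumD S c sn bl pl P₀ lam ς C κ L x N → ∀ {i j l : ℕ}, i ≤ j → j ≤ l → l ≤ L →
    (∀ k < 3, bl k ≤ x i) → x i ≤ x j → x j ≤ 1 → ∀ {μ η Kc : ℝ}, 0 ≤ μ → 0 < η → 0 ≤ Kc →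
    ∃ e₀ : ℝ, 0 < e₀ ∧ ∀ e ≤ e₀, Bas S (fun J F B => ∀ Fr : Frm F,
      FrmP F c (wF bl J) (pF pl e J) B Fr →
      ∀ (g : Fin 2 → ℕ) (q : ℕ), ⌊P₀ * J⌋₊ ≤ ⌊lam * J⌋₊ + ⌊x i * J⌋₊ + 2 →
      (∀ k : Fin 2, dgV sn ς (x j) k * J ≤ g k - ⌊x i * J⌋₊ - q + μ * J + Kc) →
      (∀ k : Fin 2, (g k : ℝ) - ⌊x i * J⌋₊ ≤ dgV sn ς (x l) k * J + Kc) →
      (∀ k : Fin 2, dgV sn ς (x j) k * J ≤ dgV sn ς (x l) k * J + Kc) →
      CH (Pool.Agent.H49.Ent.cond F.p B True)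
        (fun ω => Pool.T4G.wD (fun s k => fVs c (wF bl J) Fr ⌊x i * J⌋₊ s k.castSucc)
          ⌊x i * J⌋₊ g (slam F ⌊x i * J⌋₊ ω))
        (fun ω => (Pool.T4G.wN (fun s k => fVs c (wF bl J) Fr ⌊x i * J⌋₊ s k.castSucc)
          ⌊x i * J⌋₊ g q (slam F ⌊x i * J⌋₊ ω),
          Pool.T4E.vC (cYp c ⌊P₀ * J⌋₊ ⌊lam * J⌋₊ ⌊x i * J⌋₊) (cR1 F B (x i))
            (slam F ⌊x i * J⌋₊ ω))) - (3 * μ * Real.log 2 + 2 * κ + η) * J ≤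
      CH (Pool.Agent.H49.Ent.cond F.p B True)
        (fun ω => Pool.T4G.wD (fun s k => fVs c (wF bl J) Fr ⌊x i * J⌋₊ s k.castSucc)
          ⌊x i * J⌋₊ g (slam F ⌊x i * J⌋₊ ω))
        (Pool.T4G.wG (fun s k => fVs c (wF bl J) Fr ⌊x i * J⌋₊ s k.castSucc) ⌊x i * J⌋₊ g q
          (fun ω => (cR F B (x j) ω, cR F B (x i) ω))
          (cYp c ⌊P₀ * J⌋₊ ⌊lam * J⌋₊ ⌊x i * J⌋₊)))

/-- **Few velocities**: in a box with a grid of almost additive numbers one number is small. `T`: the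
depth of the far path in units `q`; `N₀`: the bound of `q / ρ`; `Λ`: the room; `e`: the errors; `C`:
the constant of the images. -/
def D1ClsStmt : Prop := ∀ C s σ hr δ' : ℝ, 1 ≤ C → 1 < s → s < σ → 0 < hr → hr ≤ 1 → 0 < δ' →
  ∃ (L i₁ j₁ : ℕ) (κ₀ T₁ : ℝ), i₁ < j₁ ∧ j₁ ≤ L ∧ 2 ≤ (s - 1) * ((j₁ : ℝ) - i₁) ∧ 0 < κ₀ ∧
  ∀ T N₀ : ℝ, T₁ ≤ T → 1 ≤ N₀ → ∃ Λ e : ℝ, 1 ≤ Λ ∧ 0 < e ∧
  ∀ {m D : ℕ} {S : PCl m} {c : ℕ → Fin m} {sn : ℕ → ℝ → ℝ} {G : Set ℝ}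
    {b o t q x₀ ρ φ' ς : ℝ} {bl pl : ℕ → ℝ} {N : ℕ → ℕ → ℝ},
    S.Ne → (∀ (τ : ℝ) (J : ℕ) (F : Fam m J) (A : F.Ω → Prop), S.St τ J F A → 0 < Pe F.p A) →
    BoxD S c D sn G s σ hr b o t q Λ φ' → φ' ≤ e * q → 0 < ς → ς ≤ e * q →
    (∀ v ∈ G, t ≤ v → v ≤ t + Λ * q → |sn 0 v - v| ≤ e * q) →
    (∀ l < 3, t ≤ sn (1 + l) t + e * q) →
    -- affine labels at `t` (the frame) and at all windows of the box
    AffD S c sn t (e * q) bl pl →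
    (∀ v ∈ G, t ≤ v → v ≤ t + Λ * q → ∃ bl' pl' : ℕ → ℝ, AffD S c sn v (e * q) bl' pl') →
    -- affine labels of the target with constant coefficients
    (∀ (n : ℕ) (vs : ℕ → ℝ), vs 0 = t → (∀ k ≤ n, vs k ∈ G ∧ t ≤ vs k ∧ vs k ≤ t + Λ * q) →
      AfK S c n vs (fun k => sn 3 (vs k) - e * q)) →
    -- images
    (∀ v ∈ G, t ≤ v → v ≤ t + Λ * q → ∀ κ : ℝ, e * q ≤ κ → κ ≤ q →
      ImK S c 1 3 (fun l => sn (1 + l) v) (fun l => 1 - Λ * q - sn (1 + l) v) v (1 - Λ * q) κ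
        (C * κ)) →
    -- the grid and the numbers
    (∀ i ≤ L, x₀ + i * ρ ∈ G) → t ≤ x₀ → 0 < ρ → x₀ + L * ρ ≤ t + q → q ≤ N₀ * ρ →
    NumD S c sn bl pl (sn 0 t + T * q) (sn 0 t - t + T * q) ς (2 * s * Real.log 2) (κ₀ * ρ) L
      (fun i => x₀ + i * ρ) N →
    N i₁ j₁ ≤ δ' * ρ

end Pool.D164
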