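import Pool.Agent.H36.T4.Cls

/-!
# Two alive places of one slope below a faster target: interfaces

The place `c 0` has slope one, `c 1` and `c 2` the slope `s`, the target `c 3` the slope `σ > s`.
`BoxD`: the box of a record. `AfK`: closed affine labels of the target at the windows of a list whose
coefficients at `c 1`, `c 2` are those of the label of the first window. `NumD`: the numbers of the
velocities of `c 1`, `c 2`.
-/

set_option autoImplicit false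

namespace Pool.D164

open Finset Real MvPolynomial
open Pool.Agent.H49.Ent Pool.Agent.H32.Dense
open Pool.STK hiding pr2
open Pool.KA Pool.KSAT Pool.K2S Pool.PB Pool.S6C
open Pool.GEN Pool.CHT Pool.CHX Pool.LA91 Pool.RCD Pool.AVG96 Pool.OWN68 Pool.V0F
open Pool.UNJ (ceI)
open Pool.GRD (LbP)
open Pool.CDX (AffL)
open Pool.PRC54 (yQ)
open Pool.FVL91 (qVel)
open Pool.V0R (LadR)
open Pool.T4N (Frm FrmP fX dgV)

/-- **The box of a record**: the class `S` near the window `w`, in the unit `u`. -/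
structure BoxD {m : ℕ} (S : PCl m) (c : ℕ → Fin m) (D : ℕ) (sn : ℕ → ℝ → ℝ) (G : Set ℝ)
    (s σ h b o w u Λ φ : ℝ) : Prop where
  lad : LadR S c 1 2 sn G b o φ
  img : (range 3).image c = univ.erase (c 3)
  gd : ∀ (τ : ℝ) (J : ℕ) (F : Fam m J) (A : F.Ω → Prop), S.St τ J F A → Gd F
  u0 : 0 < u
  wG : w ∈ G
  bw : b + Λ * u ≤ w
  wo : w + Λ * u ≤ o
  o1 : o + Λ * u ≤ 1
  b0 : Λ * u ≤ b
  room : ∀ l ≤ 3, Λ * u ≤ sn l b ∧ sn l o + Λ * u ≤ 1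
  lin : ∀ l, 1 ≤ l → l ≤ 2 → ∀ v ∈ G, b ≤ v → v ≤ o → |sn l v - sn l w - s * (v - w)| ≤ φ
  lint : ∀ v ∈ G, b ≤ v → v ≤ o → |sn 3 v - sn 3 w - σ * (v - w)| ≤ φ
  row : ∀ P₁ P₂ : ℝ, |P₁ - sn 3 w| ≤ Λ * u → |P₂ - sn 3 w| ≤ Λ * u → P₁ ≤ P₂ →
    RawN S (univ.erase (c 3)) (c 3) P₁ (P₂ - P₁) h φ
  -- labels of the degree `D` at all windows, with a margin
  lab : ∀ v ∈ G, b ≤ v → v ≤ o → ∃ (E rd : ℕ → ℝ) (ρ : ℝ), ρ < 1 ∧
    (∀ l ≤ 3, 0 ≤ E l ∧ sn l v + E l + Λ * u ≤ 1 ∧ 0 ≤ rd l ∧ rd l ≤ ρ) ∧ ∀ e : ℝ, 0 < e →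
    Bas S (fun J F A => ∃ (V : Type) (z : PtT F → V) (z' : LnT F → V)
      (g : V → ℕ → MvPolynomial (Option (Fin m)) ℝ),
      LbE F c 4 D E e v rd (fun l => sn l v) A z z' g)

/-- **Affine closed labels of the places `1`, `2` at the window `w`**, of the accuracy `φ` below the
levels. -/
def AffD {m : ℕ} (S : PCl m) (c : ℕ → Fin m) (sn : ℕ → ℝ → ℝ) (w φ : ℝ) (bl pl : ℕ → ℝ) : Prop :=
  ∀ l < 2, bl l ≤ w ∧ sn (1 + l) w - φ ≤ pl l ∧
    AffL S ((range (1 + l)).image c) (c (1 + l)) (bl l) (pl l)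

/-- **Closed affine labels of the target at the windows `v i`, `i ≤ n`**, of the precisions `pv i`,
with the coefficients of the label of `v 0` at the places `c 1`, `c 2`, on a part of every event. -/
def AfK {m : ℕ} (S : PCl m) (c : ℕ → Fin m) (n : ℕ) (v pv : ℕ → ℝ) : Prop :=
  ∀ e₀ : ℝ, 0 < e₀ → ∃ c₀ : ℝ, 0 < c₀ ∧ Bas S (fun J F A =>
    ∃ B : F.Ω → Prop, Sub B A ∧ c₀ * Pe F.p A ≤ Pe F.p B ∧
    ∃ (V : ℕ → Type) (z : ∀ i, PtT F → V i) (z' : ∀ i, LnT F → V i)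
      (Q : ∀ i, V i → MvPolynomial (Option (Fin m)) ℝ),
      (∀ i ≤ n, LbP F ((range 3).image c) (c 3) 1 J ⌊v i * J⌋₊ ⌊(pv i - e₀) * J⌋₊ B (z i) (z' i)
        (Q i)) ∧
      ∀ i ≤ n, ∀ ω, B ω → ∀ l, l = 1 ∨ l = 2 →
        Pool.FVL91.coe1 (c l) (Q i (z' i (slam F ⌊v i * J⌋₊ ω))) =
          Pool.FVL91.coe1 (c l) (Q 0 (z' 0 (slam F ⌊v 0 * J⌋₊ ω))))

/-- **The numbers of the velocities** of the places `1`, `2`. `N i j`: the velocities to the natural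
precision of the window `x j` given the record of the window `x i` and the far path of the slope-one
place; `κ`: the error. -/
structure NumD {m : ℕ} (S : PCl m) (c : ℕ → Fin m) (sn : ℕ → ℝ → ℝ) (bl pl : ℕ → ℝ)
    (P₀ lam ς C κ : ℝ) (L : ℕ) (x : ℕ → ℝ) (N : ℕ → ℕ → ℝ) : Prop where
  nn : ∀ i j, i ≤ j → j ≤ L → 0 ≤ N i j
  up : ∀ i j, i ≤ j → j ≤ L → N i j ≤ C * (x j - x i) + κ
  sub : ∀ i j l, i ≤ j → j ≤ l → l ≤ L → N i l ≤ N i j + N j l + κ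
  sup : ∀ i j l, i ≤ j → j ≤ l → l ≤ L → N i j + N j l ≤ N i l + κ
  ev : ∀ i j, i ≤ j → j ≤ L → NN S (fun J F => ptr F J) (vg (x i))
    (yQ ((range 1).image c) P₀ lam) (qVel m c 1 2 1 bl pl (dgV sn ς (x j))) (N i j)
  rn : ∀ i ≤ L, ∃ η : ℝ, RNum S (fun J F => ptr F J) (vg (x i)) η

end Pool.D164
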