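import Pool.Agent.H64.D1.Img

/-!
# The images of the blocks, for a class

`img_blk`: one image of a block of digits of the two alive heights is full given the digits of the
target. `img_row`: the digits of the target are full given their upper digits and the upper digits of
the alive heights.
-/

set_option autoImplicit false

namespace Pool.D164

open Finset Real MvPolynomial
open Pool.Agent.H49.Ent Pool.Agent.H32.Dense
open Pool.STK hiding pr2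
open Pool.KA Pool.KSAT Pool.K2S Pool.PB Pool.S6C
open Pool.GEN Pool.CHT Pool.CHX Pool.LA91 Pool.RCD Pool.V0F
open Pool.UNJ (ceI)
open Pool.D2F2 (hgp vlp)
open Pool.IMN17 (FrN imX ImK)
open Pool.T4H (dg tp)
open Pool.T4I (tp_near fl_gap)

variable {m J : ℕ}

theorem two_nat (n : ℕ) : (2 : ℝ) ^ (n : ℝ) = 2 ^ n := Real.rpow_natCast 2 n

theorem abs_mul3 (a x : ℝ) {b : ℝ} (hb : 0 < b) : |a * (b * x)| = |a| * (b * |x|) := by
  rw [abs_mul, abs_mul, abs_of_pos hb]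

/-- The logarithm of a bound. -/
theorem log_bd {C X D : ℝ} (hC : 0 < C) (hD : 0 < D) (h : D ≤ C * 2 ^ X) :
    Real.log D ≤ Real.log C + X * Real.log 2 := by
  refine (Real.log_le_log hD h).trans (le_of_eq ?_)
  rw [Real.log_mul hC.ne' (two_pos X).ne', Real.log_rpow (by norm_num)]

/-- The coefficients of the two images. -/
noncomputable def coI (a₀ a₁ b₀ b₁ b₁' k : ℝ) (j : Fin 2) (l : ℕ) : ℝ :=
  if j = 0 then (if l = 0 then a₀ * 2 ^ b₀ + a₁ * 2 ^ b₁' * k else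
    if l = 1 then a₁ * 2 ^ b₁ else 0) else (if l = 2 then 1 else 0)

section

variable {a₀ a₁ b₀ b₁ b₁' k : ℝ}

theorem coI_00 : coI a₀ a₁ b₀ b₁ b₁' k 0 0 = a₀ * 2 ^ b₀ + a₁ * 2 ^ b₁' * k := by simp [coI]
theorem coI_01 : coI a₀ a₁ b₀ b₁ b₁' k 0 1 = a₁ * 2 ^ b₁ := by simp [coI]
theorem coI_02 : coI a₀ a₁ b₀ b₁ b₁' k 0 2 = 0 := by simp [coI]
theorem coI_10 : coI a₀ a₁ b₀ b₁ b₁' k 1 0 = 0 := by simp [coI]
theorem coI_11 : coI a₀ a₁ b₀ b₁ b₁' k 1 1 = 0 := by simp [coI]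
theorem coI_12 : coI a₀ a₁ b₀ b₁ b₁' k 1 2 = 1 := by simp [coI]

end

/-- The first image. -/
theorem imX_zero (F : Fam m J) (c : ℕ → Fin m) (s : ℕ → ℝ) (M : ℝ)
    (G : ℕ → MvPolynomial (Option (Fin m)) ℝ) (a₀ a₁ k e₀ e₁ : ℝ) (ω : F.Ω) :
    imX F c 1 3 s M G (coI a₀ a₁ (e₀ - s 0 * J) (e₁ - s 1 * J) (e₁ - s 0 * J) k 0) ω =
      2 ^ (M * J) * (a₀ * 2 ^ e₀ * hgp F (c 1) (G 0) ω +
        a₁ * 2 ^ e₁ * (k * hgp F (c 1) (G 0) ω + hgp F (c 2) (G 1) ω)) := by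
  unfold imX
  rw [Finset.sum_range_succ, Finset.sum_range_succ, Finset.sum_range_one, coI_00, coI_01, coI_02]
  have q : ∀ e x : ℝ, (2 : ℝ) ^ (e - x * J) * 2 ^ ((x + M) * J) = 2 ^ (M * J) * 2 ^ e :=
    fun e x => by
      rw [← two_add, ← two_add]
      congr 1
      ring
  have q0 := q e₀ (s 0)
  have q1 := q e₁ (s 0)
  have q2 := q e₁ (s 1)
  norm_num
  linear_combination a₀ * hgp F (c 1) (G 0) ω * q0 + a₁ * k * hgp F (c 1) (G 0) ω * q1 +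
    a₁ * hgp F (c 2) (G 1) ω * q2

/-- The second image. -/
theorem imX_one (F : Fam m J) (c : ℕ → Fin m) (s : ℕ → ℝ) (M : ℝ)
    (G : ℕ → MvPolynomial (Option (Fin m)) ℝ) (a₀ a₁ b₀ b₁ b₁' k : ℝ) (ω : F.Ω) :
    imX F c 1 3 s M G (coI a₀ a₁ b₀ b₁ b₁' k 1) ω =
      2 ^ ((s 2 + M) * J) * hgp F (c 3) (G 2) ω := by
  unfold imX
  rw [Finset.sum_range_succ, Finset.sum_range_succ, Finset.sum_range_one, coI_10, coI_11, coI_12]
  norm_num

/-- The image of the target alone. -/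
theorem imX_two (F : Fam m J) (c : ℕ → Fin m) (s : ℕ → ℝ) (M : ℝ)
    (G : ℕ → MvPolynomial (Option (Fin m)) ℝ) (ω : F.Ω) :
    imX F c 1 3 s M G (fun l => if l = 2 then 1 else 0) ω =
      2 ^ ((s 2 + M) * J) * hgp F (c 3) (G 2) ω := by
  unfold imX
  rw [Finset.sum_range_succ, Finset.sum_range_succ, Finset.sum_range_one]
  norm_num

/-- Two samples with one closed code, one time and one exact position of `c 0`: the heights in the
units `2 ^ (-n)`. -/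
theorem nat_x2 {F : Fam m J} {c : ℕ → Fin m} {sn : ℕ → ℝ → ℝ} {v ε R : ℝ} {W : Fin 3 → ℝ}
    {B : F.Ω → Prop} {fx fv : F.Ω → Fin 3 → ℝ} {V : Type} {z : PtT F → V} {z' : LnT F → V}
    {G : V → ℕ → MvPolynomial (Option (Fin m)) ℝ} {ka : V → ℝ} {al be ga : V → Fin 3 → ℝ}
    {py : V → ℕ → ℝ} (h : NatO F c sn v ε R W B fx fv z z' G ka al be ga py) (hε : 0 ≤ ε)
    {ω ω' : F.Ω} (hω : B ω) (hω' : B ω')
    (e : z' (slam F ⌊v * J⌋₊ ω) = z' (slam F ⌊v * J⌋₊ ω')) (ht : F.T ω = F.T ω')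
    {δ : ℝ} (hx : |F.x ω (c 0) - F.x ω' (c 0)| ≤ δ) (i : Fin 3) {n : ℕ}
    (hn : (2 : ℝ) ^ n * 2 ^ (W i * J) * δ ≤ 1) :
    |2 ^ n * fx ω i - 2 ^ n * fx ω' i| ≤ 4 * 2 ^ ((n : ℝ) + (2 * ε - sn (1 + i) v) * J) + 1 := by
  have h1 := nat_x h hε hω hω' e ht i
  have p : (0 : ℝ) < 2 ^ n := by positivity
  rw [← mul_sub, abs_mul, abs_of_pos p]
  have h2 := mul_le_mul_of_nonneg_left h1 p.le
  have h3 : (2 : ℝ) ^ n * (2 ^ (W i * J) * |F.x ω (c 0) - F.x ω' (c 0)|) ≤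
      2 ^ n * (2 ^ (W i * J) * δ) :=
    mul_le_mul_of_nonneg_left (mul_le_mul_of_nonneg_left hx (two_pos _).le) p.le
  have h4 : (4 : ℝ) * 2 ^ ((n : ℝ) + (2 * ε - sn (1 + i) v) * J) =
      2 ^ n * (4 * 2 ^ ((2 * ε - sn (1 + i) v) * J)) := by
    rw [two_add, two_nat]
    ring
  rw [h4]
  linarith

/-- **One image of a block is full** given the digits of the target. -/
theorem img_blk {S : PCl m} {c : ℕ → Fin m} {sn : ℕ → ℝ → ℝ} {v ε R κ κ' μ h : ℝ}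
    (hpos : ∀ (τ : ℝ) (J : ℕ) (F : Fam m J) (A : F.Ω → Prop), S.St τ J F A → 0 < Pe F.p A)
    (hI : ImK S c 1 3 (fun l => sn (1 + l) v) (fun l => R - sn (1 + l) v) v R κ κ')
    (hε : 0 ≤ ε) (hμ : 0 ≤ μ) (hκ : ε + μ < κ) (hκ' : 0 ≤ κ') (hh : 0 < h) (W : Fin 3 → ℝ) :
    Bas S (fun J F A => ∀ (fx fv : F.Ω → Fin 3 → ℝ), NatE F c sn v ε R W A fx fv →
      ∀ (g : Fin 3 → ℕ) (u i : ℕ),
      (∀ l : Fin 2, |(g l.castSucc : ℝ) - ((i : ℝ) + 1) * u - sn (1 + l) v * J| ≤ μ * J) →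
      (u : ℝ) ≤ g 2 - sn 3 v * J → (g 2 : ℝ) - sn 3 v * J ≤ (1 - R) * J →
      (∀ l : Fin 3, (2 : ℝ) ^ g l * 2 ^ (W l * J) * 2 ≤ 2 ^ J) →
      ∀ (V : Type) (y : PtT F → V) (y' : LnT F → V),
      (∀ ω, A ω → y (ptr F J ω) = y' (slam F ⌊v * J⌋₊ ω)) →
      ∀ (z : F.Ω → Fin 2 → ℤ) (N : F.Ω → ℤ),
      (∀ ω, A ω → ∀ l : Fin 2, |(z ω l : ℝ) - 2 ^ g l.castSucc * fx ω l.castSucc| ≤ 2) →
      (∀ ω, A ω → |(N ω : ℝ) - 2 ^ g 2 * fx ω 2| ≤ 2) →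
      ∀ (υ : Type) (Y0 : F.Ω → υ),
      (∀ ω ω', A ω → A ω' → F.X J ω (c 0) = F.X J ω' (c 0) →
        y' (slam F ⌊v * J⌋₊ ω) = y' (slam F ⌊v * J⌋₊ ω') → F.W ω = F.W ω' → Y0 ω = Y0 ω') →
      ∀ (kk : V → Fin 3 → ℤ) (ka : (Fin 3 → ℤ) → Fin 2 → ℝ) (j : Fin 2), (∀ k, ka k j = 1) →
      (∀ k l, |ka k l| ≤ 1) →
      u * Real.log 2 - (κ' + 6 * ε + 2 * μ + h) * J ≤
        CH (Pool.Agent.H49.Ent.cond F.p A True)
          (fun ω => ⌊(∑ l, ka (kk (y' (slam F ⌊v * J⌋₊ ω))) l * (dg z u i ω l : ℝ)) / 2 ^ 0⌋)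
          (fun ω => (kk (y' (slam F ⌊v * J⌋₊ ω)), (tp z u i ω, (Y0 ω, N ω))))) := by
  have hp : Bas S (fun _ F A => 0 < Pe F.p A) := ⟨1, one_pos, 0, fun J _ F A hA => hpos 1 J F A hA⟩
  obtain ⟨J₁, hJ₁⟩ := exists_nat_ge (1 / (κ - μ - ε))
  obtain ⟨J₂, hJ₂⟩ := Pool.CHT.big (Real.log 33 + Real.log 13 + Real.log 21 +
    2 * Real.log 25) hh
  refine Bas.mono (J₁ + J₂ + 1) (hI.two.and hp) ?_
  rintro J hJ F A ⟨h2, hA⟩ fx fv ⟨V₀, z₀, z₀', G, k₀, al, be, ga, py, hn⟩ g u i hg hu hR hW V y y'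
    hy z N hz hN υ Y0 hY kk ka j hkj hk1
  have hJ0 : (0 : ℝ) < J := by
    have : 0 < J := by omega
    exact_mod_cast this
  have hJ00 := hJ0.le
  have hJ1 : 1 ≤ (κ - μ - ε) * J := by
    have h3 : (J₁ : ℝ) ≤ J := by
      have : J₁ ≤ J := by omega
      exact_mod_cast this
    have h4 := hJ₁.trans h3
    rw [div_le_iff₀ (by linarith)] at h4
    linarith
  have hbig := hJ₂ J (by omega)
  have hq := isLaw_cond F.isLaw hA
  have hpA : ∀ ω, 0 < Pool.Agent.H49.Ent.cond F.p A True ω → A ω := fun ω hω =>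
    of_eq_true ((cond_pos_iff F.isLaw.nonneg A True ω).1 hω).2
  have l2 : 0 < Real.log 2 := Real.log_pos (by norm_num)
  have l1 : Real.log 2 ≤ 1 := by
    have := Real.log_two_lt_d9
    linarith
  have hεJ : 0 ≤ ε * J := mul_nonneg hε hJ00
  have hμJ : 0 ≤ μ * J := mul_nonneg hμ hJ00
  -- the precision
  obtain ⟨M, hM⟩ : ∃ M : ℝ, M = (g 2 : ℝ) / J - sn 3 v := ⟨_, rfl⟩
  have hMJ : M * J = g 2 - sn 3 v * J := by
    rw [hM]
    field_simp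
  have hMR : M ≤ 1 - R := by
    have : M * J ≤ (1 - R) * J := by rw [hMJ]; exact hR
    exact le_of_mul_le_mul_right this hJ0
  -- the codes
  obtain ⟨cd, hcd⟩ : ∃ cd : F.Ω → V₀ × V, cd = fun ω =>
    (z₀' (slam F ⌊v * J⌋₊ ω), y' (slam F ⌊v * J⌋₊ ω)) := ⟨_, rfl⟩
  obtain ⟨e₀, he₀⟩ : ∃ e₀ : ℝ, e₀ = (g 0 : ℝ) - ((i : ℝ) + 1) * u := ⟨_, rfl⟩
  obtain ⟨e₁, he₁⟩ : ∃ e₁ : ℝ, e₁ = (g 1 : ℝ) - ((i : ℝ) + 1) * u := ⟨_, rfl⟩
  obtain ⟨co, hco⟩ : ∃ co : V₀ × V → Fin 2 → ℕ → ℝ, co = fun x =>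
    coI (ka (kk x.2) 0) (ka (kk x.2) 1) (e₀ - sn 1 v * J) (e₁ - sn 2 v * J) (e₁ - sn 1 v * J)
      (k₀ x.1) := ⟨_, rfl⟩
  have hfr := frn_le (hn.frn hy) (show ε ≤ κ by linarith)
  have hg0 := hg 0
  have hg1 := hg 1
  have c0 : (Fin.castSucc (0 : Fin 2)) = (0 : Fin 3) := rfl
  have c1 : (Fin.castSucc (1 : Fin 2)) = (1 : Fin 3) := rfl
  have s0 : sn (1 + ((0 : Fin 2) : ℕ)) v = sn 1 v := rfl
  have s1 : sn (1 + ((1 : Fin 2) : ℕ)) v = sn 2 v := rfl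
  rw [c0, s0, ← he₀] at hg0
  rw [c1, s1, ← he₁] at hg1
  have hkap : ∀ ω, A ω → (2 : ℝ) ^ (e₁ - sn 1 v * J) * |k₀ (z₀' (slam F ⌊v * J⌋₊ ω))| ≤
      2 ^ (e₁ - sn 2 v * J + ε * J) := fun ω hω => by
    refine (mul_le_mul_of_nonneg_left (hn.kap ω hω) (two_pos _).le).trans (le_of_eq ?_)
    rw [← two_add]
    congr 1
    ring
  have hcb := fun (ω : F.Ω) (hω : A ω) => co_bd (κ := κ) (μ := μ) (ε := ε) (X := J)
    (hk1 (kk (y' (slam F ⌊v * J⌋₊ ω))) 0) (hk1 (kk (y' (slam F ⌊v * J⌋₊ ω))) 1) (by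
      fin_cases j
      · exact Or.inl (hkj _)
      · exact Or.inr (hkj _)) hg0 hg1 (hkap ω hω) hεJ hJ1
  have hone : (1 : ℝ) ≤ 2 ^ (κ * J) := Real.one_le_rpow (by norm_num)
    (mul_nonneg (by linarith) hJ00)
  have key := h2 (V₀ × V) _ _ _ hfr co (by
    intro ω hω a l hl
    obtain ⟨b1, b2, -⟩ := hcb ω hω
    rw [hco]
    fin_cases a
    · rcases Nat.lt_or_ge l 1 with h5 | h5
      · have : l = 0 := by omega
        subst this
        show |coI _ _ _ _ _ _ 0 0| ≤ _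
        rw [coI_00]
        exact b1
      · rcases Nat.lt_or_ge l 2 with h6 | h6
        · have : l = 1 := by omega
          subst this
          show |coI _ _ _ _ _ _ 0 1| ≤ _
          rw [coI_01]
          exact b2
        · have : l = 2 := by omega
          subst this
          show |coI _ _ _ _ _ _ 0 2| ≤ _
          rw [coI_02, abs_zero]
          exact (two_pos _).le
    · rcases Nat.lt_or_ge l 1 with h5 | h5
      · have : l = 0 := by omega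
        subst this
        show |coI _ _ _ _ _ _ 1 0| ≤ _
        rw [coI_10, abs_zero]
        exact (two_pos _).le
      · rcases Nat.lt_or_ge l 2 with h6 | h6
        · have : l = 1 := by omega
          subst this
          show |coI _ _ _ _ _ _ 1 1| ≤ _
          rw [coI_11, abs_zero]
          exact (two_pos _).le
        · have : l = 2 := by omega
          subst this
          show |coI _ _ _ _ _ _ 1 2| ≤ _
          rw [coI_12, abs_one]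
          exact hone) (by
    intro ω hω
    obtain ⟨-, -, b3⟩ := hcb ω hω
    rw [hco]
    rcases b3 with b3 | b3
    · refine ⟨0, by norm_num, 2, by norm_num, ?_⟩
      show _ ≤ |coI _ _ _ _ _ _ 0 0 * coI _ _ _ _ _ _ 1 2 -
        coI _ _ _ _ _ _ 0 2 * coI _ _ _ _ _ _ 1 0|
      rw [coI_00, coI_12, coI_02, zero_mul, mul_one, sub_zero]
      exact b3
    · refine ⟨1, by norm_num, 2, by norm_num, ?_⟩
      show _ ≤ |coI _ _ _ _ _ _ 0 1 * coI _ _ _ _ _ _ 1 2 -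
        coI _ _ _ _ _ _ 0 2 * coI _ _ _ _ _ _ 1 1|
      rw [coI_01, coI_12, coI_02, zero_mul, mul_one, sub_zero]
      exact b3) M hMR
  -- the law theorem
  obtain ⟨Z, hZ⟩ : ∃ Z : F.Ω → (Fin m → ℤ) × ((V₀ × V) × (ℕ × F.ζ)), Z = fun ω =>
    (ceI ((range 1).image c) (fun _ => J) (F.x ω), (cd ω, F.W ω)) := ⟨_, rfl⟩
  have hZe : ∀ ω ω', Z ω = Z ω' → (F.X J ω (c 0) = F.X J ω' (c 0) ∧
      |F.x ω (c 0) - F.x ω' (c 0)| ≤ 1 / 2 ^ J) ∧
      z₀' (slam F ⌊v * J⌋₊ ω) = z₀' (slam F ⌊v * J⌋₊ ω') ∧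
      y' (slam F ⌊v * J⌋₊ ω) = y' (slam F ⌊v * J⌋₊ ω') ∧ F.W ω = F.W ω' := fun ω ω' e => by
    rw [hZ, hcd] at e
    simp only [Prod.mk.injEq] at e
    exact ⟨x_ceI e.1, e.2.1.1, e.2.1.2, e.2.2⟩
  have hT : ∀ {ω ω' : F.Ω}, F.W ω = F.W ω' → F.T ω = F.T ω' := fun e => (Prod.ext_iff.1 e).1
  have pJ : (0 : ℝ) < 2 ^ J := by positivity
  have hWd : ∀ (l : Fin 3) {n : ℕ}, (2 : ℝ) ^ n ≤ 2 ^ g l →
      (2 : ℝ) ^ n * 2 ^ (W l * J) * (1 / 2 ^ J) ≤ 1 / 2 := fun l n hnl => by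
    have h5 := hW l
    rw [← mul_div_assoc, mul_one, div_le_iff₀ pJ]
    have h6 : (2 : ℝ) ^ n * 2 ^ (W l * J) ≤ 2 ^ g l * 2 ^ (W l * J) :=
      mul_le_mul_of_nonneg_right hnl (two_pos _).le
    linarith
  obtain ⟨Λ₀, hΛ₀⟩ : ∃ Λ₀ : ℝ, Λ₀ = 2 ^ (M * J - u) := ⟨_, rfl⟩
  have hΛ1 : 1 ≤ Λ₀ := by
    rw [hΛ₀]
    exact Real.one_le_rpow (by norm_num) (by rw [hMJ]; linarith)
  obtain ⟨s, hs⟩ : ∃ s : ℕ → ℝ, s = fun l => sn (1 + l) v := ⟨_, rfl⟩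
  obtain ⟨I, hI'⟩ : ∃ I : F.Ω → Fin 2 → ℤ, I = fun ω a =>
    ⌊imX F c 1 3 s M (G (z₀' (slam F ⌊v * J⌋₊ ω))) (co (cd ω) a) ω⌋ := ⟨_, rfl⟩
  have hkey : (2 * M - κ') * Real.log 2 * J ≤ CH (Pool.Agent.H49.Ent.cond F.p A True) I Z := by
    rw [hI', hZ, hcd, hs]
    exact key
  -- the values of the images
  obtain ⟨Aff, hAff⟩ : ∃ Aff : F.Ω → ℝ, Aff = fun ω =>
    (ka (kk (y' (slam F ⌊v * J⌋₊ ω))) 0 * (2 ^ g 0 * aff F c v z₀' al be ga ω 0) +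
    ka (kk (y' (slam F ⌊v * J⌋₊ ω))) 1 * (2 ^ g 1 * aff F c v z₀' al be ga ω 1)) / 2 ^ (i * u) :=
    ⟨_, rfl⟩
  have v0 : ∀ ω, A ω → imX F c 1 3 s M (G (z₀' (slam F ⌊v * J⌋₊ ω))) (co (cd ω) 0) ω =
      Λ₀ * ((∑ l : Fin 2, ka (kk (y' (slam F ⌊v * J⌋₊ ω))) l *
        (2 ^ g l.castSucc * fx ω l.castSucc)) / 2 ^ (i * u) - Aff ω) := by
    intro ω hω
    have h5 := imX_zero F c s M (G (z₀' (slam F ⌊v * J⌋₊ ω)))
      (ka (kk (y' (slam F ⌊v * J⌋₊ ω))) 0) (ka (kk (y' (slam F ⌊v * J⌋₊ ω))) 1)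
      (k₀ (z₀' (slam F ⌊v * J⌋₊ ω))) e₀ e₁ ω
    have h6 : co (cd ω) 0 = coI (ka (kk (y' (slam F ⌊v * J⌋₊ ω))) 0)
      (ka (kk (y' (slam F ⌊v * J⌋₊ ω))) 1) (e₀ - s 0 * J) (e₁ - s 1 * J) (e₁ - s 0 * J)
        (k₀ (z₀' (slam F ⌊v * J⌋₊ ω))) 0 := by
      rw [hco, hcd, hs]
    rw [h6, h5, hn.fx1 hω, hn.fx0 hω, Fin.sum_univ_two, hAff, c0, c1]
    have q : ∀ n : ℕ, (2 : ℝ) ^ (M * J) * 2 ^ ((n : ℝ) - ((i : ℝ) + 1) * u) =
        Λ₀ * (2 ^ n / 2 ^ (i * u)) := fun n => by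
      rw [hΛ₀, ← two_nat n, ← two_nat (i * u), ← Real.rpow_sub (by norm_num), ← two_add,
        ← two_add]
      congr 1
      push_cast
      ring
    have q0 := q (g 0)
    have q1 := q (g 1)
    rw [← he₀] at q0
    rw [← he₁] at q1
    linear_combination (ka (kk (y' (slam F ⌊v * J⌋₊ ω))) 0 *
      (fx ω 0 - aff F c v z₀' al be ga ω 0)) * q0 + (ka (kk (y' (slam F ⌊v * J⌋₊ ω))) 1 *
      (fx ω 1 - aff F c v z₀' al be ga ω 1)) * q1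
  have v1 : ∀ ω, A ω → imX F c 1 3 s M (G (z₀' (slam F ⌊v * J⌋₊ ω))) (co (cd ω) 1) ω =
      2 ^ g 2 * (fx ω 2 - aff F c v z₀' al be ga ω 2) := by
    intro ω hω
    have h6 : co (cd ω) 1 = coI (ka (kk (y' (slam F ⌊v * J⌋₊ ω))) 0)
      (ka (kk (y' (slam F ⌊v * J⌋₊ ω))) 1) (e₀ - sn 1 v * J) (e₁ - sn 2 v * J)
        (e₁ - sn 1 v * J) (k₀ (z₀' (slam F ⌊v * J⌋₊ ω))) 1 := by
      rw [hco, hcd]
    rw [h6, imX_one, hn.fx2 hω]
    congr 1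
    have h7 : (s 2 + M) * J = ((g 2 : ℕ) : ℝ) := by
      have h8 : s 2 = sn 3 v := by rw [hs]
      rw [h8, add_mul, hMJ]
      ring
    rw [h7, two_nat]
  have hres := fiN_law (Y := fun ω (l : Fin 2) => 2 ^ g l.castSucc * fx ω l.castSucc)
    (z := z) (N := N) (kcl := fun ω => kk (y' (slam F ⌊v * J⌋₊ ω))) (ka := ka) (x := u) (i := i)
    (Y0 := Y0) (Z := Z) (I := I) hq (fun ω hω l => hz ω (hpA ω hω) l) hk1
    (fun ω ω' _ _ e => congrArg kk (hZe ω ω' e).2.2.1)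
    (fun ω ω' hω hω' e => by
      obtain ⟨⟨a1, -⟩, -, a2, a3⟩ := hZe ω ω' e
      exact hY ω ω' (hpA ω hω) (hpA ω' hω') a1 a2 a3)
    (L := 4 * 2 ^ ((μ + 2 * ε) * J) + 1 + 6) (Λ₀ := Λ₀) (DN := 5 + 4 * 2 ^ ((M + 2 * ε) * J))
    (fun ω ω' hω hω' e l => by
      obtain ⟨⟨-, a1⟩, a2, -, a3⟩ := hZe ω ω' e
      have h5 := nat_x2 hn hε (hpA ω hω) (hpA ω' hω') a2 (hT a3) a1 l.castSucc
        (n := g l.castSucc) ((hWd l.castSucc le_rfl).trans (by norm_num))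
      refine tp_near (hz ω (hpA ω hω) l) (hz ω' (hpA ω' hω') l) (h5.trans ?_)
      have h6 := (abs_le.1 (hg l)).2
      have p1 : (1 : ℝ) ≤ 2 ^ ((i + 1) * u) := one_le_pow₀ (by norm_num)
      have h7 : (2 : ℝ) ^ ((g l.castSucc : ℝ) + (2 * ε - sn (1 + (l.castSucc : Fin 3)) v) * J) ≤
          2 ^ ((μ + 2 * ε) * J) * 2 ^ ((i + 1) * u) := by
        rw [← two_nat, ← two_add]
        refine two_mono ?_
        have h8 : sn (1 + ((l.castSucc : Fin 3) : ℕ)) v = sn (1 + (l : ℕ)) v := rfl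
        rw [h8]
        push_cast
        linarith
      linarith)
    (fun ω ω' hω hω' e => by
      obtain ⟨⟨-, a1⟩, a2, -, a3⟩ := hZe ω ω' e
      have h5 := nat_x2 hn hε (hpA ω hω) (hpA ω' hω') a2 (hT a3) a1 2
        (n := g 2) ((hWd 2 le_rfl).trans (by norm_num))
      have h6 := hN ω (hpA ω hω)
      have h7 := hN ω' (hpA ω' hω')
      have h8 : ((g 2 : ℝ) + (2 * ε - sn (1 + ((2 : Fin 3) : ℕ)) v) * J) = (M + 2 * ε) * J := by
        have : sn (1 + ((2 : Fin 3) : ℕ)) v = sn 3 v := rfl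
        rw [this, add_mul, hMJ]
        ring
      rw [h8] at h5
      rw [abs_le] at h5 h6 h7 ⊢
      constructor <;> linarith [h5.1, h5.2, h6.1, h6.2, h7.1, h7.2])
    (fun ω ω' hω hω' e => by
      obtain ⟨⟨-, a1⟩, a2, a4, a3⟩ := hZe ω ω' e
      have p3 := v0 ω (hpA ω hω)
      have p4 := v0 ω' (hpA ω' hω')
      have f1 := fl_gap (imX F c 1 3 s M (G (z₀' (slam F ⌊v * J⌋₊ ω))) (co (cd ω) 0) ω)
      have f3 := Int.floor_le (imX F c 1 3 s M (G (z₀' (slam F ⌊v * J⌋₊ ω))) (co (cd ω) 0) ω)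
      have f4 := Int.lt_floor_add_one
        (imX F c 1 3 s M (G (z₀' (slam F ⌊v * J⌋₊ ω))) (co (cd ω) 0) ω)
      have f5 := Int.floor_le (imX F c 1 3 s M (G (z₀' (slam F ⌊v * J⌋₊ ω'))) (co (cd ω') 0) ω')
      have f6 := Int.lt_floor_add_one
        (imX F c 1 3 s M (G (z₀' (slam F ⌊v * J⌋₊ ω'))) (co (cd ω') 0) ω')
      have eI : (I ω 0 : ℝ) = (⌊imX F c 1 3 s M (G (z₀' (slam F ⌊v * J⌋₊ ω))) (co (cd ω) 0) ω⌋ :
        ℤ) := by rw [hI']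
      have eI' : (I ω' 0 : ℝ) = (⌊imX F c 1 3 s M (G (z₀' (slam F ⌊v * J⌋₊ ω'))) (co (cd ω') 0)
        ω'⌋ : ℤ) := by rw [hI']
      rw [eI, eI']
      have ha : |Aff ω - Aff ω'| ≤ 1 := by
        have d0 := hn.aff2 (hpA ω hω) a2 (hT a3) 0
        have d1 := hn.aff2 (hpA ω hω) a2 (hT a3) 1
        have d : ∀ l : Fin 3, |aff F c v z₀' al be ga ω l - aff F c v z₀' al be ga ω' l| ≤
            2 ^ (W l * J) * |F.x ω (c 0) - F.x ω' (c 0)| →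
            2 ^ g l * |aff F c v z₀' al be ga ω l - aff F c v z₀' al be ga ω' l| ≤ 1 / 2 :=
          fun l dl => by
          refine (mul_le_mul_of_nonneg_left (dl.trans (mul_le_mul_of_nonneg_left a1
            (two_pos _).le)) (by positivity)).trans ?_
          have := hWd l (n := g l) le_rfl
          rw [mul_assoc] at this
          exact this
        have d0' := d 0 d0
        have d1' := d 1 d1
        rw [hAff]
        show |(ka (kk (y' (slam F ⌊v * J⌋₊ ω))) 0 * (2 ^ g 0 * aff F c v z₀' al be ga ω 0) +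
          ka (kk (y' (slam F ⌊v * J⌋₊ ω))) 1 * (2 ^ g 1 * aff F c v z₀' al be ga ω 1)) /
            2 ^ (i * u) - (ka (kk (y' (slam F ⌊v * J⌋₊ ω'))) 0 *
            (2 ^ g 0 * aff F c v z₀' al be ga ω' 0) + ka (kk (y' (slam F ⌊v * J⌋₊ ω'))) 1 *
            (2 ^ g 1 * aff F c v z₀' al be ga ω' 1)) / 2 ^ (i * u)| ≤ 1
        rw [← a4, ← sub_div, abs_div, abs_of_pos (by positivity : (0 : ℝ) < 2 ^ (i * u))]
        refine (div_le_self (abs_nonneg _) (one_le_pow₀ (by norm_num))).trans ?_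
        have k1 := hk1 (kk (y' (slam F ⌊v * J⌋₊ ω))) 0
        have k2 := hk1 (kk (y' (slam F ⌊v * J⌋₊ ω))) 1
        have r : ka (kk (y' (slam F ⌊v * J⌋₊ ω))) 0 * (2 ^ g 0 * aff F c v z₀' al be ga ω 0) +
            ka (kk (y' (slam F ⌊v * J⌋₊ ω))) 1 * (2 ^ g 1 * aff F c v z₀' al be ga ω 1) -
            (ka (kk (y' (slam F ⌊v * J⌋₊ ω))) 0 * (2 ^ g 0 * aff F c v z₀' al be ga ω' 0) +
            ka (kk (y' (slam F ⌊v * J⌋₊ ω))) 1 * (2 ^ g 1 * aff F c v z₀' al be ga ω' 1)) =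
            ka (kk (y' (slam F ⌊v * J⌋₊ ω))) 0 * (2 ^ g 0 * (aff F c v z₀' al be ga ω 0 -
              aff F c v z₀' al be ga ω' 0)) + ka (kk (y' (slam F ⌊v * J⌋₊ ω))) 1 *
              (2 ^ g 1 * (aff F c v z₀' al be ga ω 1 - aff F c v z₀' al be ga ω' 1)) := by ring
        rw [r]
        refine (abs_add_le _ _).trans ?_
        rw [abs_mul3 _ _ (by positivity : (0 : ℝ) < 2 ^ g 0),
          abs_mul3 _ _ (by positivity : (0 : ℝ) < 2 ^ g 1)]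
        have m1 := mul_le_mul k1 d0' (by positivity) zero_le_one
        have m2 := mul_le_mul k2 d1' (by positivity) zero_le_one
        linarith
      have hS : |imX F c 1 3 s M (G (z₀' (slam F ⌊v * J⌋₊ ω))) (co (cd ω) 0) ω -
          imX F c 1 3 s M (G (z₀' (slam F ⌊v * J⌋₊ ω'))) (co (cd ω') 0) ω'| ≤
          Λ₀ * (|(∑ l : Fin 2, ka (kk (y' (slam F ⌊v * J⌋₊ ω))) l *
            (2 ^ g l.castSucc * fx ω l.castSucc)) / 2 ^ (i * u) -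
            (∑ l : Fin 2, ka (kk (y' (slam F ⌊v * J⌋₊ ω'))) l *
            (2 ^ g l.castSucc * fx ω' l.castSucc)) / 2 ^ (i * u)| + 1) := by
        rw [p3, p4, ← mul_sub, abs_mul, abs_of_pos (by linarith : 0 < Λ₀)]
        refine mul_le_mul_of_nonneg_left ?_ (by linarith)
        have r : ∀ a b c' d : ℝ, (a - c') - (b - d) = (a - b) - (c' - d) := fun _ _ _ _ => by
          ring
        rw [r]
        exact (abs_sub _ _).trans (by linarith)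
      rw [abs_le] at hS ⊢
      constructor <;> linarith [hS.1, hS.2])
    (fun ω ω' hω hω' e eN => by
      obtain ⟨⟨-, a1⟩, a2, a4, a3⟩ := hZe ω ω' e
      have p3 := v1 ω (hpA ω hω)
      have p4 := v1 ω' (hpA ω' hω')
      have f3 := Int.floor_le (imX F c 1 3 s M (G (z₀' (slam F ⌊v * J⌋₊ ω))) (co (cd ω) 1) ω)
      have f4 := Int.lt_floor_add_one
        (imX F c 1 3 s M (G (z₀' (slam F ⌊v * J⌋₊ ω))) (co (cd ω) 1) ω)
      have f5 := Int.floor_le (imX F c 1 3 s M (G (z₀' (slam F ⌊v * J⌋₊ ω'))) (co (cd ω') 1) ω')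
      have f6 := Int.lt_floor_add_one
        (imX F c 1 3 s M (G (z₀' (slam F ⌊v * J⌋₊ ω'))) (co (cd ω') 1) ω')
      have eI : (I ω 1 : ℝ) = (⌊imX F c 1 3 s M (G (z₀' (slam F ⌊v * J⌋₊ ω))) (co (cd ω) 1) ω⌋ :
        ℤ) := by rw [hI']
      have eI' : (I ω' 1 : ℝ) = (⌊imX F c 1 3 s M (G (z₀' (slam F ⌊v * J⌋₊ ω'))) (co (cd ω') 1)
        ω'⌋ : ℤ) := by rw [hI']
      rw [eI, eI']
      have d0 := hn.aff2 (hpA ω hω) a2 (hT a3) 2
      have d1 : 2 ^ g 2 * |aff F c v z₀' al be ga ω 2 - aff F c v z₀' al be ga ω' 2| ≤ 1 / 2 := by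
        refine (mul_le_mul_of_nonneg_left (d0.trans (mul_le_mul_of_nonneg_left a1
            (two_pos _).le)) (by positivity)).trans ?_
        have := hWd 2 (n := g 2) le_rfl
        rw [mul_assoc] at this
        exact this
      have d2 : |2 ^ g 2 * aff F c v z₀' al be ga ω 2 - 2 ^ g 2 * aff F c v z₀' al be ga ω' 2| ≤
          1 / 2 := by
        rw [← mul_sub, abs_mul, abs_of_pos (by positivity : (0 : ℝ) < 2 ^ g 2)]
        exact d1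
      have h6 := hN ω (hpA ω hω)
      have h7 := hN ω' (hpA ω' hω')
      rw [← eN] at h7
      rw [p3, mul_sub] at f3 f4
      rw [p4, mul_sub] at f5 f6
      rw [p3, p4, mul_sub, mul_sub]
      rw [abs_le] at h6 h7 d2 ⊢
      constructor <;> linarith [h6.1, h6.2, h7.1, h7.2, d2.1, d2.2])
    hΛ1 hkey
  refine le_trans ?_ hres
  -- the numbers
  have n1 : Real.log (33 * Λ₀) ≤ Real.log 33 + (M * J - u) * Real.log 2 := by
    rw [hΛ₀]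
    exact log_bd (by norm_num) (by positivity) le_rfl
  have hM0 : 0 ≤ M * J := by
    rw [hMJ]
    have : (0 : ℝ) ≤ u := Nat.cast_nonneg u
    linarith
  have n2 : Real.log (2 * (5 + 4 * 2 ^ ((M + 2 * ε) * J)) + 1) ≤
      Real.log 21 + (M + 2 * ε) * J * Real.log 2 := by
    have h5 : (1 : ℝ) ≤ 2 ^ ((M + 2 * ε) * J) := Real.one_le_rpow (by norm_num) (by
      rw [add_mul]
      have : 0 ≤ 2 * ε * J := by positivity
      linarith)
    exact log_bd (by norm_num) (by positivity) (by linarith)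
  have n3 : Real.log (2 * (4 * 2 ^ ((μ + 2 * ε) * J) + 1 + 6) + 1) ≤
      Real.log 25 + (μ + 2 * ε) * J * Real.log 2 := by
    have h5 : (1 : ℝ) ≤ 2 ^ ((μ + 2 * ε) * J) := Real.one_le_rpow (by norm_num) (by
      have : 0 ≤ (μ + 2 * ε) * J := by positivity
      linarith)
    exact log_bd (by norm_num) (by positivity) (by linarith)
  have n4 : (κ' + 6 * ε + 2 * μ) * J * Real.log 2 ≤ (κ' + 6 * ε + 2 * μ) * J := by
    have : 0 ≤ (κ' + 6 * ε + 2 * μ) * J := by positivity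
    nlinarith
  linarith

/-- **The digits of the target are full** given their upper digits and the upper digits of the alive
heights. -/
theorem img_row {S : PCl m} {c : ℕ → Fin m} {sn : ℕ → ℝ → ℝ} {v ε R κ κ' μ h : ℝ}
    (hpos : ∀ (τ : ℝ) (J : ℕ) (F : Fam m J) (A : F.Ω → Prop), S.St τ J F A → 0 < Pe F.p A)
    (hI : ImK S c 1 3 (fun l => sn (1 + l) v) (fun l => R - sn (1 + l) v) v R κ κ')
    (hε : 0 ≤ ε) (hμ : 0 ≤ μ) (hκ : ε + μ < κ) (hκ' : 0 ≤ κ') (hh : 0 < h) (W : Fin 3 → ℝ) :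
    Bas S (fun J F A => ∀ (fx fv : F.Ω → Fin 3 → ℝ), NatE F c sn v ε R W A fx fv →
      ∀ (g : Fin 3 → ℕ) (r k : ℕ),
      (∀ l : Fin 2, (g l.castSucc : ℝ) - k - sn (1 + l) v * J ≤ μ * J) →
      |(g 2 : ℝ) - r - sn 3 v * J| ≤ μ * J → (g 2 : ℝ) - sn 3 v * J ≤ (1 - R) * J →
      (∀ l : Fin 3, (2 : ℝ) ^ g l * 2 ^ (W l * J) * 2 ≤ 2 ^ J) →
      ∀ (V : Type) (y : PtT F → V) (y' : LnT F → V),
      (∀ ω, A ω → y (ptr F J ω) = y' (slam F ⌊v * J⌋₊ ω)) →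
      ∀ (z : F.Ω → Fin 2 → ℤ) (N : F.Ω → ℤ),
      (∀ ω, A ω → ∀ l : Fin 2, |(z ω l : ℝ) - 2 ^ g l.castSucc * fx ω l.castSucc| ≤ 2) →
      (∀ ω, A ω → |(N ω : ℝ) - 2 ^ g 2 * fx ω 2| ≤ 2) →
      ∀ (υ : Type) (Y0 : F.Ω → υ),
      (∀ ω ω', A ω → A ω' → F.X J ω (c 0) = F.X J ω' (c 0) →
        y' (slam F ⌊v * J⌋₊ ω) = y' (slam F ⌊v * J⌋₊ ω') → F.W ω = F.W ω' → Y0 ω = Y0 ω') →
      r * Real.log 2 - (κ' + 6 * ε + 4 * μ + h) * J ≤
        CH (Pool.Agent.H49.Ent.cond F.p A True) N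
          (fun ω => (N ω / 2 ^ r, ((fun l => z ω l / 2 ^ k), Y0 ω)))) := by
  have hp : Bas S (fun _ F A => 0 < Pe F.p A) := ⟨1, one_pos, 0, fun J _ F A hA => hpos 1 J F A hA⟩
  obtain ⟨J₂, hJ₂⟩ := Pool.CHT.big (Real.log 13 + 3 * Real.log 25) hh
  refine Bas.mono (J₂ + 1) (hI.one.and hp) ?_
  rintro J hJ F A ⟨h2, hA⟩ fx fv ⟨V₀, z₀, z₀', G, k₀, al, be, ga, py, hn⟩ g r k hg hr hR hW V y y'
    hy z N hz hN υ Y0 hY
  have hJ0 : (0 : ℝ) < J := by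
    have : 0 < J := by omega
    exact_mod_cast this
  have hJ00 := hJ0.le
  have hbig := hJ₂ J (by omega)
  have hq := isLaw_cond F.isLaw hA
  have hpA : ∀ ω, 0 < Pool.Agent.H49.Ent.cond F.p A True ω → A ω := fun ω hω =>
    of_eq_true ((cond_pos_iff F.isLaw.nonneg A True ω).1 hω).2
  have l2 : 0 < Real.log 2 := Real.log_pos (by norm_num)
  have l1 : Real.log 2 ≤ 1 := by
    have := Real.log_two_lt_d9
    linarith
  have hεJ : 0 ≤ ε * J := mul_nonneg hε hJ00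
  have hμJ : 0 ≤ μ * J := mul_nonneg hμ hJ00
  obtain ⟨M, hM⟩ : ∃ M : ℝ, M = (g 2 : ℝ) / J - sn 3 v := ⟨_, rfl⟩
  have hMJ : M * J = g 2 - sn 3 v * J := by
    rw [hM]
    field_simp
  have hMR : M ≤ 1 - R := by
    have : M * J ≤ (1 - R) * J := by rw [hMJ]; exact hR
    exact le_of_mul_le_mul_right this hJ0
  have hfr := frn_le (hn.frn hy) (show ε ≤ κ by linarith)
  have hκJ : 0 ≤ κ * J := mul_nonneg (by linarith) hJ00
  have key := h2 (V₀ × V) _ _ _ hfr (fun _ l => if l = 2 then 1 else 0) (by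
    intro ω hω l hl
    show |(if l = 2 then (1 : ℝ) else 0)| ≤ 2 ^ (κ * J)
    split_ifs
    · rw [abs_one]
      exact Real.one_le_rpow (by norm_num) hκJ
    · rw [abs_zero]
      exact (two_pos _).le) (by
    intro ω hω
    refine ⟨2, by norm_num, ?_⟩
    show (2 : ℝ) ^ (-(κ * J)) ≤ |(if 2 = 2 then (1 : ℝ) else 0)|
    rw [if_pos rfl, abs_one]
    exact Real.rpow_le_one_of_one_le_of_nonpos (by norm_num) (by linarith)) M hMR
  obtain ⟨Z, hZ⟩ : ∃ Z : F.Ω → (Fin m → ℤ) × ((V₀ × V) × (ℕ × F.ζ)), Z = fun ω =>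
    (ceI ((range 1).image c) (fun _ => J) (F.x ω),
      ((z₀' (slam F ⌊v * J⌋₊ ω), y' (slam F ⌊v * J⌋₊ ω)), F.W ω)) := ⟨_, rfl⟩
  have hZe : ∀ ω ω', Z ω = Z ω' → (F.X J ω (c 0) = F.X J ω' (c 0) ∧
      |F.x ω (c 0) - F.x ω' (c 0)| ≤ 1 / 2 ^ J) ∧
      z₀' (slam F ⌊v * J⌋₊ ω) = z₀' (slam F ⌊v * J⌋₊ ω') ∧
      y' (slam F ⌊v * J⌋₊ ω) = y' (slam F ⌊v * J⌋₊ ω') ∧ F.W ω = F.W ω' := fun ω ω' e => by
    rw [hZ] at e
    simp only [Prod.mk.injEq] at e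
    exact ⟨x_ceI e.1, e.2.1.1, e.2.1.2, e.2.2⟩
  have hT : ∀ {ω ω' : F.Ω}, F.W ω = F.W ω' → F.T ω = F.T ω' := fun e => (Prod.ext_iff.1 e).1
  have pJ : (0 : ℝ) < 2 ^ J := by positivity
  have hWd : ∀ (l : Fin 3), (2 : ℝ) ^ g l * 2 ^ (W l * J) * (1 / 2 ^ J) ≤ 1 / 2 := fun l => by
    have h5 := hW l
    rw [← mul_div_assoc, mul_one, div_le_iff₀ pJ]
    linarith
  obtain ⟨I, hI'⟩ : ∃ I : F.Ω → ℤ, I = fun ω => ⌊imX F c 1 3 (fun l => sn (1 + l) v) M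
    (G (z₀' (slam F ⌊v * J⌋₊ ω))) (fun l => if l = 2 then 1 else 0) ω⌋ := ⟨_, rfl⟩
  have hkey : (M - κ') * Real.log 2 * J ≤ CH (Pool.Agent.H49.Ent.cond F.p A True) I Z := by
    rw [hI', hZ]
    exact key
  have v1 : ∀ ω, A ω → imX F c 1 3 (fun l => sn (1 + l) v) M (G (z₀' (slam F ⌊v * J⌋₊ ω)))
      (fun l => if l = 2 then 1 else 0) ω = 2 ^ g 2 * (fx ω 2 - aff F c v z₀' al be ga ω 2) := by
    intro ω hω
    rw [imX_two, hn.fx2 hω]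
    congr 1
    have h7 : ((fun l => sn (1 + l) v) 2 + M) * J = ((g 2 : ℕ) : ℝ) := by
      show (sn 3 v + M) * J = _
      rw [add_mul, hMJ]
      ring
    rw [h7, two_nat]
  have hres := rlo_law (z := z) (N := N) (r := r) (k := k) (Y0 := Y0) (Z := Z) (I := I) hq
    (fun ω ω' hω hω' e => by
      obtain ⟨⟨a1, -⟩, -, a2, a3⟩ := hZe ω ω' e
      exact hY ω ω' (hpA ω hω) (hpA ω' hω') a1 a2 a3)
    (L := 4 * 2 ^ ((μ + 2 * ε) * J) + 1 + 6) (L₁ := 4 * 2 ^ ((μ + 2 * ε) * J) + 1 + 6)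
    (fun ω ω' hω hω' e l => by
      obtain ⟨⟨-, a1⟩, a2, -, a3⟩ := hZe ω ω' e
      have h5 := nat_x2 hn hε (hpA ω hω) (hpA ω' hω') a2 (hT a3) a1 l.castSucc
        (n := g l.castSucc) ((hWd l.castSucc).trans (by norm_num))
      refine tp_near (hz ω (hpA ω hω) l) (hz ω' (hpA ω' hω') l) (h5.trans ?_)
      have h6 := hg l
      have p1 : (1 : ℝ) ≤ 2 ^ k := one_le_pow₀ (by norm_num)
      have h7 : (2 : ℝ) ^ ((g l.castSucc : ℝ) + (2 * ε - sn (1 + (l.castSucc : Fin 3)) v) * J) ≤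
          2 ^ ((μ + 2 * ε) * J) * 2 ^ k := by
        rw [← two_nat k, ← two_add]
        refine two_mono ?_
        have h8 : sn (1 + ((l.castSucc : Fin 3) : ℕ)) v = sn (1 + (l : ℕ)) v := rfl
        rw [h8]
        linarith
      linarith)
    (fun ω ω' hω hω' e => by
      obtain ⟨⟨-, a1⟩, a2, -, a3⟩ := hZe ω ω' e
      have h5 := nat_x2 hn hε (hpA ω hω) (hpA ω' hω') a2 (hT a3) a1 2
        (n := g 2) ((hWd 2).trans (by norm_num))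
      refine tp_near (hN ω (hpA ω hω)) (hN ω' (hpA ω' hω')) (h5.trans ?_)
      have h6 := (abs_le.1 hr).2
      have p1 : (1 : ℝ) ≤ 2 ^ r := one_le_pow₀ (by norm_num)
      have h7 : (2 : ℝ) ^ ((g 2 : ℝ) + (2 * ε - sn (1 + ((2 : Fin 3) : ℕ)) v) * J) ≤
          2 ^ ((μ + 2 * ε) * J) * 2 ^ r := by
        rw [← two_nat r, ← two_add]
        refine two_mono ?_
        have h8 : sn (1 + ((2 : Fin 3) : ℕ)) v = sn 3 v := rfl
        rw [h8]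
        linarith
      linarith)
    (fun ω ω' hω hω' e eN => by
      obtain ⟨⟨-, a1⟩, a2, a4, a3⟩ := hZe ω ω' e
      have p3 := v1 ω (hpA ω hω)
      have p4 := v1 ω' (hpA ω' hω')
      have f3 := Int.floor_le (imX F c 1 3 (fun l => sn (1 + l) v) M
        (G (z₀' (slam F ⌊v * J⌋₊ ω))) (fun l => if l = 2 then 1 else 0) ω)
      have f4 := Int.lt_floor_add_one (imX F c 1 3 (fun l => sn (1 + l) v) M
        (G (z₀' (slam F ⌊v * J⌋₊ ω))) (fun l => if l = 2 then 1 else 0) ω)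
      have f5 := Int.floor_le (imX F c 1 3 (fun l => sn (1 + l) v) M
        (G (z₀' (slam F ⌊v * J⌋₊ ω'))) (fun l => if l = 2 then 1 else 0) ω')
      have f6 := Int.lt_floor_add_one (imX F c 1 3 (fun l => sn (1 + l) v) M
        (G (z₀' (slam F ⌊v * J⌋₊ ω'))) (fun l => if l = 2 then 1 else 0) ω')
      have eI : (I ω : ℝ) = (⌊imX F c 1 3 (fun l => sn (1 + l) v) M
        (G (z₀' (slam F ⌊v * J⌋₊ ω))) (fun l => if l = 2 then 1 else 0) ω⌋ : ℤ) := by rw [hI']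
      have eI' : (I ω' : ℝ) = (⌊imX F c 1 3 (fun l => sn (1 + l) v) M
        (G (z₀' (slam F ⌊v * J⌋₊ ω'))) (fun l => if l = 2 then 1 else 0) ω'⌋ : ℤ) := by rw [hI']
      rw [eI, eI']
      have d0 := hn.aff2 (hpA ω hω) a2 (hT a3) 2
      have d1 : 2 ^ g 2 * |aff F c v z₀' al be ga ω 2 - aff F c v z₀' al be ga ω' 2| ≤ 1 / 2 := by
        refine (mul_le_mul_of_nonneg_left (d0.trans (mul_le_mul_of_nonneg_left a1
            (two_pos _).le)) (by positivity)).trans ?_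
        have := hWd 2
        rw [mul_assoc] at this
        exact this
      have d2 : |2 ^ g 2 * aff F c v z₀' al be ga ω 2 - 2 ^ g 2 * aff F c v z₀' al be ga ω' 2| ≤
          1 / 2 := by
        rw [← mul_sub, abs_mul, abs_of_pos (by positivity : (0 : ℝ) < 2 ^ g 2)]
        exact d1
      have h6 := hN ω (hpA ω hω)
      have h7 := hN ω' (hpA ω' hω')
      rw [← eN] at h7
      rw [p3, mul_sub] at f3 f4
      rw [p4, mul_sub] at f5 f6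
      rw [p3, p4, mul_sub, mul_sub]
      rw [abs_le] at h6 h7 d2 ⊢
      constructor <;> linarith [h6.1, h6.2, h7.1, h7.2, d2.1, d2.2]) hkey
  refine le_trans ?_ hres
  have n3 : Real.log (2 * (4 * 2 ^ ((μ + 2 * ε) * J) + 1 + 6) + 1) ≤
      Real.log 25 + (μ + 2 * ε) * J * Real.log 2 := by
    have h5 : (1 : ℝ) ≤ 2 ^ ((μ + 2 * ε) * J) := Real.one_le_rpow (by norm_num) (by
      have : 0 ≤ (μ + 2 * ε) * J := by positivity
      linarith)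
    exact log_bd (by norm_num) (by positivity) (by linarith)
  have n4 : (κ' + 6 * ε + 4 * μ) * J * Real.log 2 ≤ (κ' + 6 * ε + 4 * μ) * J := by
    have : 0 ≤ (κ' + 6 * ε + 4 * μ) * J := by positivity
    nlinarith
  have n5 : (r : ℝ) * Real.log 2 ≤ (M * J + μ * J) * Real.log 2 := by
    refine mul_le_mul_of_nonneg_right ?_ l2.le
    rw [hMJ]
    linarith [(abs_le.1 hr).1]
  linarith

end Pool.D164
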