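import Pool.Agent.H64.D1.Cor

/-!
# Two alive places of one slope below a faster target: few velocities

`d1_cls`: the class theorem from its pieces.
-/

set_option autoImplicit false

namespace Pool.D164

open Finset Real MvPolynomial
open Pool.Agent.H49.Ent Pool.Agent.H32.Dense
open Pool.STK hiding pr2
open Pool.KA Pool.KSAT Pool.K2S Pool.PB Pool.S6C
open Pool.GEN Pool.CHT Pool.CHX Pool.LA91 Pool.RCD Pool.V0F
open Pool.PRC54 (yQ)
open Pool.FVL91 (qVel)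
open Pool.T4N (Frm FrmP fX fV dgV)
open Pool.IMN17 (ImK)

variable {m : ℕ}

/-- The numbers do not see the label of the target. -/
theorem NumD.cg {S : PCl m} {c : ℕ → Fin m} {sn : ℕ → ℝ → ℝ} {bl pl bl' pl' : ℕ → ℝ}
    {P₀ lam ς C κ : ℝ} {L : ℕ} {x : ℕ → ℝ} {N : ℕ → ℕ → ℝ}
    (h : NumD S c sn bl pl P₀ lam ς C κ L x N) (hb : ∀ l < 2, bl' l = bl l)
    (hp : ∀ l < 2, pl' l = pl l) : NumD S c sn bl' pl' P₀ lam ς C κ L x N where
  nn := h.nn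
  up := h.up
  sub := h.sub
  sup := h.sup
  ev := fun i j hij hj a ha => by
    obtain ⟨k, hk, e₀, he₀, H⟩ := h.ev i j hij hj a ha
    refine ⟨k, hk, e₀, he₀, fun K => Bas.mono 0 (H K) ?_⟩
    intro J _ F A H1 V z hz u hu
    refine H1 V z hz u ⟨fun l hl => ?_, hu.2⟩
    have h1 := hu.1 l hl
    rw [hb l hl, hp l hl] at h1
    exact h1
  rn := h.rn

/-- The lengths. -/
theorem cst_ex {s σ : ℝ} (hs : 1 < s) (hσ : s < σ) {n : ℕ} :
    ∃ K₂ mu i₁ L : ℕ, 1 ≤ K₂ ∧ 1 ≤ mu ∧ 1 ≤ i₁ ∧ i₁ + K₂ ≤ L ∧ 2 ≤ (s - 1) * (K₂ : ℝ) ∧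
      (s - 1) * (K₂ : ℝ) + 1 ≤ mu ∧ σ * (n * mu + 1) ≤ (σ - s) * (i₁ : ℝ) ∧ 1 ≤ (s - 1) * (i₁ : ℝ) ∧
      (n : ℝ) * mu + 1 ≤ (s - 1) * ((L : ℝ) - i₁) := by
  have h1 : 0 < s - 1 := by linarith
  have h2 : 0 < σ - s := by linarith
  obtain ⟨K₂, hK⟩ := exists_nat_ge (2 / (s - 1))
  rw [div_le_iff₀ h1] at hK
  obtain ⟨mu, hmu⟩ := exists_nat_ge ((s - 1) * (K₂ : ℝ) + 1)
  obtain ⟨i₂, hi₂⟩ := exists_nat_ge (σ * (n * mu + 1) / (σ - s))
  rw [div_le_iff₀ h2] at hi₂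
  obtain ⟨i₃, hi₃⟩ := exists_nat_ge (1 / (s - 1))
  rw [div_le_iff₀ h1] at hi₃
  obtain ⟨M, hM⟩ := exists_nat_ge (((n : ℝ) * mu + 1) / (s - 1))
  rw [div_le_iff₀ h1] at hM
  have hK0 : 1 ≤ K₂ := by
    by_contra h
    have h3 : K₂ = 0 := by omega
    rw [h3] at hK
    norm_num at hK
  have hmu0 : 1 ≤ mu := by
    have h3 : (1 : ℝ) ≤ mu := by
      have : 0 ≤ (s - 1) * (K₂ : ℝ) := by positivity
      linarith
    exact_mod_cast h3
  refine ⟨K₂, mu, i₂ + i₃ + 1, i₂ + i₃ + 1 + K₂ + M, hK0, hmu0, by omega, by omega, by linarith,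
    hmu, ?_, ?_, ?_⟩
  · push_cast
    have : 0 ≤ (σ - s) * ((i₃ : ℝ) + 1) := by positivity
    linarith
  · push_cast
    have : 0 ≤ (s - 1) * ((i₂ : ℝ) + 1) := by positivity
    linarith
  · push_cast
    have : 0 ≤ (s - 1) * (K₂ : ℝ) := by positivity
    linarith

/-- **The windows.** -/
theorem rls_ex {D : ℕ} {S : PCl m} {c : ℕ → Fin m} {sn : ℕ → ℝ → ℝ} {G : Set ℝ}
    {s σ hr b₀ o t q Λ T φ' E ε ς x₀ ρ : ℝ} {n K₂ mu i₁ L : ℕ}
    (hs : 1 < s) (hσ : s < σ) (Bx : BoxD S c D sn G s σ hr b₀ o t q Λ φ') (hE : 0 < E)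
    (hφ : φ' ≤ E) (hε : 0 ≤ ε) (hς0 : 0 ≤ ς) (hς : ς ≤ E) (hn : 1 ≤ n)
    (h0 : ∀ v ∈ G, t ≤ v → v ≤ t + Λ * q → |sn 0 v - v| ≤ E)
    (hnt : ∀ l < 3, t ≤ sn (1 + l) t + E) (hG : ∀ i ≤ L, x₀ + i * ρ ∈ G) (hx : t ≤ x₀)
    (hρ : 0 < ρ) (hxL : x₀ + L * ρ ≤ t + q)
    (hmu : 1 ≤ mu) (hi1 : 1 ≤ i₁) (hiL : i₁ + K₂ ≤ L)
    (c2 : (s - 1) * (K₂ : ℝ) + 1 ≤ mu) (c3 : σ * (n * mu + 1) ≤ (σ - s) * (i₁ : ℝ))
    (c4 : 1 ≤ (s - 1) * (i₁ : ℝ)) (c5 : (n : ℝ) * mu + 1 ≤ (s - 1) * ((L : ℝ) - i₁))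
    (k1 : 2 * ε + (2 * σ + s + 20) * E ≤ ρ)
    (k2 : 2 * s * (2 * ε + (2 * σ + 6) * E) ≤ (σ - s) * ρ)
    (hT : 2 * σ + 4 ≤ T) (hΛ : T + 10 ≤ Λ) :
    ∃ vv : ℕ → ℝ, (∀ i ≤ n, vv i ∈ G ∧ t ≤ vv i ∧ vv i ≤ t + Λ * q ∧ vv i ≤ 1) ∧
      Rls sn s σ t q Λ T E ε ς (mu * ρ) n vv x₀ (x₀ + i₁ * ρ) (x₀ + (i₁ + K₂ : ℕ) * ρ) (x₀ + L * ρ)
        (i₁ * ρ) := by
  have hs0 : 0 < s := by linarith
  have hσ0 : 0 < σ := by linarith
  have hq := Bx.u0
  have hL1 : (1 : ℝ) ≤ L := by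
    have : 1 ≤ L := by omega
    exact_mod_cast this
  have hi1' : (1 : ℝ) ≤ i₁ := by exact_mod_cast hi1
  have hmu' : (1 : ℝ) ≤ mu := by exact_mod_cast hmu
  have hn' : (1 : ℝ) ≤ n := by exact_mod_cast hn
  have hiL' : (i₁ : ℝ) + K₂ ≤ L := by exact_mod_cast hiL
  have hK0 : (0 : ℝ) ≤ K₂ := Nat.cast_nonneg K₂
  have hρq : ρ ≤ q := by
    have : 1 * ρ ≤ L * ρ := mul_le_mul_of_nonneg_right hL1 hρ.le
    linarith
  have hsE : 0 ≤ s * E := by positivity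
  have hσE : 0 ≤ σ * E := by positivity
  have mρ : ∀ {x y : ℝ}, x ≤ y → x * ρ ≤ y * ρ := fun h => mul_le_mul_of_nonneg_right h hρ.le
  have d2 := mρ c2
  have d3 := mρ c3
  have d4 := mρ c4
  have d5 := mρ c5
  have d6 := mρ hiL'
  have hKρ : 0 ≤ K₂ * ρ := mul_nonneg hK0 hρ.le
  have hmρ : 0 ≤ mu * ρ := by positivity
  have hnm : 0 ≤ n * (mu * ρ) := by positivity
  have hiρ : 0 ≤ i₁ * ρ := by positivity
  have hLρ : x₀ + i₁ * ρ ≤ x₀ + L * ρ := by linarith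
  have hbox := Bx.wo
  have hbw := Bx.bw
  have hb0 := Bx.b0
  have ho1 := Bx.o1
  have hΛq : (T + 10) * q ≤ Λ * q := mul_le_mul_of_nonneg_right hΛ hq.le
  have hTq : (2 * σ + 4) * q ≤ T * q := mul_le_mul_of_nonneg_right hT hq.le
  have hσq : 0 ≤ σ * q := by positivity
  have sh : σ * (n * (mu * ρ) + (2 * ε + 10 * E)) ≤ (σ - s) * (i₁ * ρ) := by
    have h1 : σ * (2 * ε + 10 * E) ≤ σ * ρ := mul_le_mul_of_nonneg_left (by linarith) hσ0.le
    linarith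
  have nδ : n * (mu * ρ) ≤ i₁ * ρ := by
    have h1 : σ * (n * (mu * ρ)) ≤ σ * (i₁ * ρ) := by
      have h2 : 0 ≤ σ * (2 * ε + 10 * E) := by positivity
      have h3 : 0 ≤ s * (i₁ * ρ) := by positivity
      linarith
    exact le_of_mul_le_mul_left h1 hσ0
  have pa : 2 * ε + (s + 6) * E ≤ (s - 1) * (i₁ * ρ) := by linarith
  -- the windows
  have hex : ∀ i : ℕ, ∃ v : ℝ, i ≤ n → v ∈ G ∧
      |v - (x₀ + ((s - 1) * (i₁ * ρ) + (n - i) * (mu * ρ)) / s)| ≤ E := fun i => by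
    by_cases hi : i ≤ n
    · have hi' : (i : ℝ) ≤ n := by exact_mod_cast hi
      have hi0 : (0 : ℝ) ≤ i := Nat.cast_nonneg i
      have h6 : ((s - 1) * (i₁ * ρ) + (n - i) * (mu * ρ)) / s ≤ i₁ * ρ := by
        rw [div_le_iff₀ hs0]
        have : 0 ≤ i * (mu * ρ) := by positivity
        linarith
      have h7 : 0 ≤ ((s - 1) * (i₁ * ρ) + (n - i) * (mu * ρ)) / s := by
        have h8 : 0 ≤ s - 1 := by linarith
        have h9 : 0 ≤ (n : ℝ) - i := by linarith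
        positivity
      obtain ⟨v, hv, h8⟩ := Bx.lad.gap (x₀ + ((s - 1) * (i₁ * ρ) + (n - i) * (mu * ρ)) / s)
        (by linarith) (by linarith)
      exact ⟨v, fun _ => ⟨hv, h8.trans hφ⟩⟩
    · exact ⟨0, fun h => absurd h hi⟩
  choose vv hvv using hex
  have hvr : ∀ i ≤ n, t ≤ vv i ∧ vv i ≤ t + q + E := fun i hi => by
    have hi' : (i : ℝ) ≤ n := by exact_mod_cast hi
    have hi0 : (0 : ℝ) ≤ i := Nat.cast_nonneg i
    have h1 := abs_le.1 (hvv i hi).2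
    have h6 : ((s - 1) * (i₁ * ρ) + (n - i) * (mu * ρ)) / s ≤ i₁ * ρ := by
      rw [div_le_iff₀ hs0]
      have : 0 ≤ i * (mu * ρ) := by positivity
      linarith
    have h9 : E ≤ ((s - 1) * (i₁ * ρ) + (n - i) * (mu * ρ)) / s := by
      rw [le_div_iff₀ hs0]
      have h8 : 0 ≤ ((n : ℝ) - i) * (mu * ρ) := mul_nonneg (by linarith) hmρ
      linarith
    constructor <;> linarith [h1.1, h1.2]
  have hvΛ : ∀ i ≤ n, vv i ≤ t + Λ * q := fun i hi => by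
    have := (hvr i hi).2
    linarith
  have hin : ∀ v ∈ G, t ≤ v → v ≤ t + Λ * q → (∀ k < 2,
      |sn (1 + k) v - sn (1 + k) t - s * (v - t)| ≤ E) ∧ |sn 3 v - sn 3 t - σ * (v - t)| ≤ E :=
    fun v hv h1 h2 => ⟨fun k hk => (Bx.lin (1 + k) (by omega) (by omega) v hv (by linarith)
      (by linarith)).trans hφ, (Bx.lint v hv (by linarith) (by linarith)).trans hφ⟩
  have hbG : x₀ + i₁ * ρ ∈ G := hG i₁ (by omega)
  have hjG : x₀ + ((i₁ + K₂ : ℕ) : ℝ) * ρ ∈ G := hG (i₁ + K₂) hiL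
  have hlG : x₀ + L * ρ ∈ G := hG L le_rfl
  have hj1 : x₀ + i₁ * ρ ≤ x₀ + ((i₁ + K₂ : ℕ) : ℝ) * ρ := by
    push_cast
    linarith
  have hj2 : x₀ + ((i₁ + K₂ : ℕ) : ℝ) * ρ ≤ t + q := by
    push_cast
    linarith
  refine ⟨vv, fun i hi => ⟨(hvv i hi).1, (hvr i hi).1, hvΛ i hi, by linarith [hvΛ i hi]⟩, ?_⟩
  have hb1 := hin _ hbG (by linarith) (by linarith)
  have hjn := hin _ hjG (by linarith) (by linarith)
  have hln := hin _ hlG (by linarith) (by linarith)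
  exact {
    s1 := hs
    sσ := hσ
    E0 := hE
    ε0 := hε
    ς0 := hς0
    ςE := hς
    υ0 := hmρ
    n1 := hn
    tx := hx
    bx := rfl
    bt := hxL
    jb := hj1
    lb := hLρ
    jl := hj2
    vs := fun i hi => (hvv i hi).2
    sh := sh
    bl := by
      have h1 : (σ - s) * ρ ≤ (σ - s) * (n * (mu * ρ)) := mul_le_mul_of_nonneg_left (by
        have h2 : 1 * 1 ≤ (n : ℝ) * mu := mul_le_mul hn' hmu' (by norm_num) (by linarith)
        have h3 := mρ h2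
        linarith) (by linarith)
      linarith
    fl := by
      have h1 : (σ - s) * ρ ≤ (σ - s) * (mu * ρ) := mul_le_mul_of_nonneg_left (by
        have h3 := mρ hmu'
        linarith) (by linarith)
      have h4 : 0 ≤ s * (2 * ε + (2 * σ + 6) * E) := by positivity
      linarith
    up := by linarith
    lw := by
      push_cast
      linarith
    pa := pa
    l0 := fun i hi => h0 _ (hvv i hi).1 (hvr i hi).1 (hvΛ i hi)
    l0t := h0 _ Bx.wG le_rfl (by linarith)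
    l0b := h0 _ hbG (by linarith) (by linarith)
    l1 := fun k hk i hi => (hin _ (hvv i hi).1 (hvr i hi).1 (hvΛ i hi)).1 k hk
    l1b := hb1.1
    l1j := hjn.1
    l1l := hln.1
    l3 := fun i hi => (hin _ (hvv i hi).1 (hvr i hi).1 (hvΛ i hi)).2
    l3b := hb1.2
    nt := hnt
    rt := fun l hl => by
      have h1 := Bx.lad.st (1 + l) (by omega) (by omega) t Bx.wG o Bx.lad.oG (by linarith)
        (by linarith) le_rfl
      have h2 := (Bx.room (1 + l) (by omega)).2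
      linarith
    t0 := by linarith
    tE := by linarith
    t1 := by linarith
    TΛ := by linarith
    Tσ := by linarith
    q0 := hq.le }


/-- **Few velocities**, from the pieces. -/
theorem d1_cls (hEv : EvDStmt) (hDg : DgtStmt) (hRc : RecStmt) (hRw : RowStmt) (hFg : FigStmt)
    (hNn : NnlStmt) (hFr : FreDStmt) : D1ClsStmt := by
  intro C s σ hr δ' hC hs hσ h0 h1 hδ'
  obtain ⟨Ce, hCe, evd⟩ := hEv s σ hs hσ
  obtain ⟨n, δt, ϖ, hn, hδt, hϖ, tie⟩ := tieD_ex h0 h1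
  obtain ⟨K₂, mu, i₁, L, hK, hmu, hi1, hiL, c1, c2, c3, c4, c5⟩ := cst_ex hs hσ (n := n)
  have hmu0 : (0 : ℝ) < mu := by
    have : 0 < mu := by omega
    exact_mod_cast this
  have hmu1 : (1 : ℝ) ≤ mu := by exact_mod_cast hmu
  obtain ⟨η, hη, u₀, hTie⟩ := tie (δ' / (4 * mu)) (by positivity)
  refine ⟨L, i₁, i₁ + K₂, η / 16, 4 * σ + 30, by omega, hiL, ?_, by positivity,
    fun T N₀ hT hN₀ => ?_⟩
  · push_cast
    linarith
  have hs0 : 0 < s := by linarith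
  have hσ0 : 0 < σ := by linarith
  have hσs : 0 < σ - s := by linarith
  have hC0 : 0 < C := by linarith
  have hCe0 : 0 < Ce := by linarith
  obtain ⟨Mc, hMc⟩ : ∃ Mc : ℝ, Mc = 2 * Ce + 3 * σ + 12 := ⟨_, rfl⟩
  have hMc0 : 0 < Mc := by
    rw [hMc]
    positivity
  obtain ⟨β, hβ⟩ : ∃ β : ℝ, β = min 1 (η / (8 * C)) := ⟨_, rfl⟩
  have hβ0 : 0 < β := by
    rw [hβ]
    exact lt_min one_pos (by positivity)
  have hβ1 : β ≤ 1 := by
    rw [hβ]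
    exact min_le_left _ _
  have hβ2 : C * β ≤ η / 8 := by
    have h2 : β ≤ η / (8 * C) := by
      rw [hβ]
      exact min_le_right _ _
    have h3 := mul_le_mul_of_nonneg_left h2 hC0.le
    have h4 : C * (η / (8 * C)) = η / 8 := by
      field_simp
    linarith
  obtain ⟨B, hB⟩ : ∃ B : ℝ, B = (2 * Ce + 2 * σ + s + 20) + 2 * s * (2 * Ce + 2 * σ + 6) / (σ - s) +
    (Ce + Mc + 1) / β + 16 * (8 * Ce + 6 * Mc + 1) / η + 8 * Mc / δ' := ⟨_, rfl⟩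
  have q1 : 0 < 2 * Ce + 2 * σ + s + 20 := by positivity
  have q2 : 0 < 2 * s * (2 * Ce + 2 * σ + 6) / (σ - s) := by positivity
  have q3 : 0 < (Ce + Mc + 1) / β := by positivity
  have q4 : 0 < 16 * (8 * Ce + 6 * Mc + 1) / η := by positivity
  have q5 : 0 < 8 * Mc / δ' := by positivity
  have hB0 : 0 < B := by
    rw [hB]
    positivity
  have hN0 : 0 < N₀ := by linarith
  refine ⟨T + 10, 1 / (N₀ * B), by linarith, by positivity, ?_⟩
  intro m D S c sn G b o t q x₀ ρ φ' ς bl pl N hNe hpos Bx hφ hς0 hς h0' hnt hAf hAf' hAk hIm hG hx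
    hρ hxL hqN hNum
  have hq := Bx.u0
  obtain ⟨E, hE⟩ : ∃ E : ℝ, E = 1 / (N₀ * B) * q := ⟨_, rfl⟩
  rw [← hE] at hφ hς h0' hnt hAf hAf' hAk hIm
  have hE0 : 0 < E := by
    rw [hE]
    positivity
  have hBE : B * E ≤ ρ := by
    have e1 : B * E = q / N₀ := by
      rw [hE]
      field_simp
    rw [e1, div_le_iff₀ hN0]
    linarith
  have key : ∀ a b : ℝ, 0 < b → a / b ≤ B → a * E ≤ b * ρ := fun a b hb hab => by
    have h2 : a = b * (a / b) := by field_simp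
    have h3 : a / b * E ≤ ρ := (mul_le_mul_of_nonneg_right hab hE0.le).trans hBE
    have h4 := mul_le_mul_of_nonneg_left h3 hb.le
    calc a * E = b * (a / b * E) := by
          rw [← mul_assoc, ← h2]
      _ ≤ _ := h4
  have K1 : (2 * Ce + 2 * σ + s + 20) * E ≤ 1 * ρ := key _ 1 one_pos (by
    rw [div_one, hB]
    linarith)
  have K2 : 2 * s * (2 * Ce + 2 * σ + 6) * E ≤ (σ - s) * ρ := key _ _ hσs (by
    rw [hB]
    linarith)
  have K3 : (Ce + Mc + 1) * E ≤ β * ρ := key _ _ hβ0 (by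
    rw [hB]
    linarith)
  have K4 : 16 * (8 * Ce + 6 * Mc + 1) * E ≤ η * ρ := key _ _ hη (by
    rw [hB]
    linarith)
  have K5 : 8 * Mc * E ≤ δ' * ρ := key _ _ hδ' (by
    rw [hB]
    linarith)
  have hCeE : 0 < Ce * E := by positivity
  have hMcE : 0 < Mc * E := by positivity
  have hμe : Mc * E = 2 * (Ce * E) + (3 * σ + 12) * E := by
    rw [hMc]
    ring
  obtain ⟨vv, hvv, hR⟩ := rls_ex (T := T) (ε := Ce * E) hs hσ Bx hE0 hφ hCeE.le hς0.le hς hn h0' hnt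
    hG hx hρ hxL hmu hi1 hiL c2 c3 c4 c5 (by linarith) (by linarith) (by linarith) le_rfl
  have hρq : ρ ≤ q := by
    have hL1 : (1 : ℝ) ≤ L := by
      have : 1 ≤ L := by omega
      exact_mod_cast this
    have : 1 * ρ ≤ L * ρ := mul_le_mul_of_nonneg_right hL1 hρ.le
    linarith
  have hi0 : (0 : ℝ) ≤ i₁ := Nat.cast_nonneg i₁
  have hiLr : (i₁ : ℝ) ≤ L := by
    have : i₁ ≤ L := by omega
    exact_mod_cast this
  have hbr : x₀ + i₁ * ρ ≤ t + q := by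
    have := mul_le_mul_of_nonneg_right hiLr hρ.le
    linarith
  have hbt : t ≤ x₀ + i₁ * ρ := by
    have := mul_nonneg hi0 hρ.le
    linarith
  have hΛ1 : q ≤ (T + 10) * q := by
    have : 1 * q ≤ (T + 10) * q := mul_le_mul_of_nonneg_right (by linarith) hq.le
    linarith
  have hws : ∀ k ≤ n + 2, wsD t (x₀ + i₁ * ρ) vv k ∈ G ∧ t ≤ wsD t (x₀ + i₁ * ρ) vv k ∧
      wsD t (x₀ + i₁ * ρ) vv k ≤ t + (T + 10) * q := fun k hk => by
    unfold wsD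
    split_ifs with h2 h3
    · exact ⟨Bx.wG, le_rfl, by linarith⟩
    · exact ⟨hG i₁ (by omega), hbt, by linarith⟩
    · have h4 := hvv (k - 2) (by omega)
      exact ⟨h4.1, h4.2.1, h4.2.2.1⟩
  obtain ⟨bl', hbl'⟩ : ∃ bl' : ℕ → ℝ, bl' = fun l => if l = 2 then t else bl l := ⟨_, rfl⟩
  obtain ⟨pl', hpl'⟩ : ∃ pl' : ℕ → ℝ, pl' = fun l => if l = 2 then sn 3 t - E else pl l := ⟨_, rfl⟩
  have hb1 : ∀ l < 2, bl' l = bl l := fun l hl => by
    rw [hbl']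
    exact if_neg (by omega)
  have hp1 : ∀ l < 2, pl' l = pl l := fun l hl => by
    rw [hpl']
    exact if_neg (by omega)
  have hAfp : AffD S c sn t E bl' pl' := fun l hl => by
    rw [hb1 l hl, hp1 l hl]
    exact hAf l hl
  have hev := evd (e := 1 / (N₀ * B)) (bl := bl') (pl := pl') hpos Bx (by positivity)
    (by rw [← hE]; exact hφ) (by rw [← hE]; exact hAfp) (by rw [← hE]; exact hAf')
    (by rw [hbl']; rfl) (by rw [← hE, hpl']; rfl) (n + 2) (wsD t (x₀ + i₁ * ρ) vv) rfl hws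
    (by rw [← hE]; exact hAk (n + 2) (wsD t (x₀ + i₁ * ρ) vv) rfl hws)
  rw [← hE] at hev
  have hbl3 : ∀ k < 3, bl' k ≤ x₀ := fun k hk => by
    by_cases h2 : k < 2
    · rw [hb1 k h2]
      exact (hAf k h2).1.trans hx
    · have h3 : k = 2 := by omega
      rw [h3, hbl']
      exact hx
  have ho1 := Bx.o1
  have hwo := Bx.wo
  have fin := d1_cor hDg hRc hRw hFg hNn hFr (T := T) (κ := β * ρ) (κ' := C * (β * ρ)) hNe hpos
    Bx.lad.tm h0.le Bx hR (x := fun i => x₀ + i * ρ) (i₁ := i₁) (j₁ := i₁ + K₂) (L := L)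
    (by simp) rfl rfl rfl (by omega) hiL (hvv 0 (Nat.zero_le _)).1 (fun i hi => (hvv i hi).2.2.2)
    (by linarith) hbl3 (hvv 0 (Nat.zero_le _)).2.2.1 hev
    (fun i hi => hIm _ (hvv i hi).1 (hvv i hi).2.1 (hvv i hi).2.2.1 (β * ρ) (by linarith) (by
      have := mul_le_mul_of_nonneg_right hβ1 hρ.le
      linarith))
    (hNum.cg hb1 hp1) (μ := Mc * E) (hh := min (η / 16) (δ' / 4) * ρ) hTie hδt hϖ hη (by positivity)
    hμe (by linarith) (by positivity) (by positivity) ?_ ?_ ?_ (by positivity)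
    Bx.lad.φ0.le
  · have h2 : δ' / (4 * mu) * (mu * ρ) = δ' / 4 * ρ := by
      field_simp
    have h3 : min (η / 16) (δ' / 4) * ρ ≤ δ' / 4 * ρ :=
      mul_le_mul_of_nonneg_right (min_le_right _ _) hρ.le
    rw [h2] at fin
    linarith
  all_goals
    have h3 : min (η / 16) (δ' / 4) * ρ ≤ η / 16 * ρ :=
      mul_le_mul_of_nonneg_right (min_le_left _ _) hρ.le
    have h4 : η * (1 * ρ) ≤ η * (mu * ρ) := mul_le_mul_of_nonneg_left
      (mul_le_mul_of_nonneg_right hmu1 hρ.le) hη.le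
    have h5 : C * β * ρ ≤ η / 8 * ρ := mul_le_mul_of_nonneg_right hβ2 hρ.le
    have h6 : 0 ≤ η * ρ := by positivity
    linarith

end Pool.D164
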