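import Pool.Agent.H64.D1.CS

/-!
# Two alive places of one slope below a faster target: the numbers

`Nms`: the inequalities between the digits, the windows and the errors. `nms_of`: they hold for long
windows.
-/

set_option autoImplicit false

namespace Pool.D164

open Finset Real
open Pool.T4N (dgV)

theorem pw1 {g : ℕ} {X : ℝ} (h : (g : ℝ) + 2 + X ≤ 0) : (2 : ℝ) ^ g * (4 * 2 ^ X) ≤ 1 := by
  have e1 : (2 : ℝ) ^ g * (4 * 2 ^ X) = 2 ^ ((g : ℝ) + 2 + X) := by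
    rw [Real.rpow_add (by norm_num), Real.rpow_add (by norm_num), Real.rpow_natCast]
    norm_num
    ring
  rw [e1]
  exact Real.rpow_le_one_of_one_le_of_nonpos (by norm_num) h

theorem pw2 {g l : ℕ} {X : ℝ} (h : (g : ℝ) + X ≤ l) : (2 : ℝ) ^ g * 2 ^ X ≤ 2 ^ l := by
  have e1 : (2 : ℝ) ^ g * 2 ^ X = 2 ^ ((g : ℝ) + X) := by
    rw [Real.rpow_add (by norm_num), Real.rpow_natCast]
  rw [e1, ← Real.rpow_natCast 2 l]
  exact Real.rpow_le_rpow_of_exponent_le (by norm_num) h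

theorem pw3 {g l : ℕ} {X : ℝ} (h : (g : ℝ) + X + 1 ≤ l) : (2 : ℝ) ^ g * 2 ^ X * 2 ≤ 2 ^ l := by
  have e1 : (2 : ℝ) ^ g * 2 ^ X * 2 = 2 ^ ((g : ℝ) + X + 1) := by
    rw [Real.rpow_add (by norm_num), Real.rpow_add (by norm_num), Real.rpow_natCast, Real.rpow_one]
  rw [e1, ← Real.rpow_natCast 2 l]
  exact Real.rpow_le_rpow_of_exponent_le (by norm_num) h

theorem pw4 {g l : ℕ} {X : ℝ} (h : (g : ℝ) + X + 3 ≤ l) : (2 : ℝ) ^ g * (8 * 2 ^ X) ≤ 2 ^ l := by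
  have e1 : (2 : ℝ) ^ g * (8 * 2 ^ X) = 2 ^ ((g : ℝ) + X + 3) := by
    rw [Real.rpow_add (by norm_num), Real.rpow_add (by norm_num), Real.rpow_natCast]
    norm_num
    ring
  rw [e1, ← Real.rpow_natCast 2 l]
  exact Real.rpow_le_rpow_of_exponent_le (by norm_num) h

/-- **The inequalities.** `n`: the number of the blocks; `vv i`: the windows of the blocks; `a`, `u`,
`r`, `lP`, `lL`: the numbers of digits; `Kc`: a constant. -/
structure Nms (sn : ℕ → ℝ → ℝ) (t ς ε R μ υ Kc : ℝ) (J n : ℕ) (vv : ℕ → ℝ) (xa b xj xl P₁ P₂ : ℝ)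
    (g : Fin 3 → ℕ) (a u r lP lL : ℕ) : Prop where
  lP6 : 6 ≤ lP
  lPJ : lP ≤ J
  lPL : lP ≤ lL + a + 2
  mM : n * u ≤ J - a
  u1 : υ * J - 1 ≤ u
  u2 : (u : ℝ) ≤ υ * J
  raw : ∀ i : Fin 3, (2 : ℝ) ^ g i * (8 * 2 ^ ((R - sn (1 + i) t + ε) * J)) ≤ 2 ^ J
  g8 : ∀ i : Fin 3, g i + 8 ≤ J
  b1 : ∀ i : Fin 2, (2 : ℝ) ^ g i.castSucc * (4 * 2 ^ ((2 * ε - sn (1 + i) b) * J)) ≤ 1
  b2 : ∀ i : Fin 3, (2 : ℝ) ^ g i * 2 ^ ((sn 0 b - sn (1 + i) t + ε) * J) ≤ 2 ^ lP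
  b3 : (g 2 : ℝ) - sn 3 b * J ≤ μ * J
  b4 : (g 2 : ℝ) - a + (b - sn 3 b) * J ≤ μ * J
  b5 : ∀ i : Fin 2, (g i.castSucc : ℝ) - a - (n * u : ℕ) + (b - sn (1 + i) b) * J ≤ μ * J
  r1 : ∀ i : Fin 3, (2 : ℝ) ^ g i * (4 * 2 ^ ((2 * ε - sn (1 + i) (vv 0)) * J)) ≤ 1
  r2 : ∀ i : Fin 3, (2 : ℝ) ^ g i * 2 ^ ((sn 0 (vv 0) - sn (1 + i) t + ε) * J) ≤ 2 ^ (lP - 6)
  r3 : sn 0 (vv 0) * J + 6 ≤ lP
  r4 : ∀ i : Fin 3, (i : ℕ) < 2 → sn (1 + i) (vv 0) * J ≤ g i + μ * J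
  r5 : g 2 = ⌊P₂ * J⌋₊
  r6 : g 2 = ⌊P₁ * J⌋₊ + r
  r7 : ∀ l : Fin 2, (g l.castSucc : ℝ) - (n * u : ℕ) - sn (1 + l) (vv n) * J ≤ μ * J
  r8 : |(g 2 : ℝ) - r - sn 3 (vv n) * J| ≤ μ * J
  r9 : n * u ≤ r
  f1 : ∀ i < n, ∀ l : Fin 2,
    |(g l.castSucc : ℝ) - ((i : ℝ) + 1) * u - sn (1 + l) (vv (i + 1)) * J| ≤ μ * J
  f2 : ∀ i < n, (u : ℝ) ≤ g 2 - sn 3 (vv (i + 1)) * J
  f3 : ∀ i ≤ n, (g 2 : ℝ) - sn 3 (vv i) * J ≤ (1 - R) * J
  f4 : ∀ i ≤ n, ∀ l : Fin 3, (2 : ℝ) ^ g l * 2 ^ ((sn 0 (vv i) - sn (1 + l) t + ε) * J) * 2 ≤ 2 ^ J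
  d1 : ∀ k : Fin 2, dgV sn ς b k * J ≤ g k.castSucc - a - (n * u : ℕ) + μ * J + Kc
  d2 : ∀ k : Fin 2, (g k.castSucc : ℝ) - a ≤ dgV sn ς xl k * J + Kc
  d3 : ∀ k : Fin 2, dgV sn ς b k * J ≤ dgV sn ς xl k * J + Kc
  n1 : ∀ k : Fin 2, dgV sn ς xj k * J ≤ g k.castSucc - a - (n * u - u : ℕ) + μ * J + Kc

/-- The data of the windows. `n`: the number of the blocks, of the length `υ`; `vv i`: the windows;
`δ = b - xa`. -/
structure Rls (sn : ℕ → ℝ → ℝ) (s σ t q Λ T E ε ς υ : ℝ) (n : ℕ) (vv : ℕ → ℝ)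
    (xa b xj xl δ : ℝ) : Prop where
  s1 : 1 < s
  sσ : s < σ
  E0 : 0 < E
  ε0 : 0 ≤ ε
  ς0 : 0 ≤ ς
  ςE : ς ≤ E
  υ0 : 0 ≤ υ
  n1 : 1 ≤ n
  tx : t ≤ xa
  bx : b = xa + δ
  bt : xl ≤ t + q
  jb : b ≤ xj
  lb : b ≤ xl
  jl : xj ≤ t + q
  vs : ∀ i ≤ n, |vv i - (xa + ((s - 1) * δ + (n - i) * υ) / s)| ≤ E
  -- the blocks are short
  sh : σ * (n * υ + (2 * ε + 10 * E)) ≤ (σ - s) * δ
  bl : s * (n * υ + 2 * (2 * ε + (2 * σ + 6) * E)) ≤ σ * (n * υ)
  fl : s * (υ + (2 * ε + (2 * σ + 6) * E)) ≤ σ * υ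
  up : n * υ + 4 * E ≤ (s - 1) * (xl - b)
  lw : (s - 1) * (xj - b) + 4 * E ≤ υ
  pa : 2 * ε + (s + 6) * E ≤ (s - 1) * δ
  -- the slopes
  l0 : ∀ i ≤ n, |sn 0 (vv i) - vv i| ≤ E
  l0t : |sn 0 t - t| ≤ E
  l0b : |sn 0 b - b| ≤ E
  l1 : ∀ k < 2, ∀ i ≤ n, |sn (1 + k) (vv i) - sn (1 + k) t - s * (vv i - t)| ≤ E
  l1b : ∀ k < 2, |sn (1 + k) b - sn (1 + k) t - s * (b - t)| ≤ E
  l1j : ∀ k < 2, |sn (1 + k) xj - sn (1 + k) t - s * (xj - t)| ≤ E
  l1l : ∀ k < 2, |sn (1 + k) xl - sn (1 + k) t - s * (xl - t)| ≤ E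
  l3 : ∀ i ≤ n, |sn 3 (vv i) - sn 3 t - σ * (vv i - t)| ≤ E
  l3b : |sn 3 b - sn 3 t - σ * (b - t)| ≤ E
  nt : ∀ l < 3, t ≤ sn (1 + l) t + E
  rt : ∀ l < 3, sn (1 + l) t + Λ * q ≤ 1 + E
  -- the rooms
  t0 : 0 ≤ t
  tE : 2 * E ≤ t
  t1 : t + Λ * q ≤ 1
  TΛ : T * q + 8 * E + ε ≤ Λ * q
  Tσ : 2 * (σ + 1) * q + (2 * σ + 20) * E + 2 * ε ≤ T * q
  q0 : 0 ≤ q

/-- The slopes of the alive places at the windows. -/
theorem Rls.a1 {sn : ℕ → ℝ → ℝ} {s σ t q Λ T E ε ς υ : ℝ} {n : ℕ} {vv : ℕ → ℝ}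
    {xa b xj xl δ : ℝ} (h : Rls sn s σ t q Λ T E ε ς υ n vv xa b xj xl δ) {k : ℕ} (hk : k < 2)
    {i : ℕ} (hi : i ≤ n) :
    |sn (1 + k) (vv i) - (sn (1 + k) b - δ + (n - i) * υ)| ≤ (s + 2) * E := by
  have h1 := abs_le.1 (h.l1 k hk i hi)
  have h2 := abs_le.1 (h.l1b k hk)
  have h3 := h.vs i hi
  have hs : 0 < s := by linarith [h.s1]
  obtain ⟨w, hw⟩ : ∃ w : ℝ, w = ((s - 1) * δ + (n - i) * υ) / s := ⟨_, rfl⟩
  rw [← hw] at h3
  have h4 : s * w = (s - 1) * δ + (n - i) * υ := by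
    rw [hw]
    field_simp
  have h5 : |s * (vv i - (xa + w))| ≤ s * E := by
    rw [abs_mul, abs_of_pos hs]
    exact mul_le_mul_of_nonneg_left h3 hs.le
  have h6 := abs_le.1 h5
  have hb := h.bx
  have h7 : s * b = s * xa + s * δ := by rw [hb]; ring
  rw [abs_le]
  constructor <;> nlinarith [h1.1, h1.2, h2.1, h2.2, h6.1, h6.2]

/-- The slopes of the target at the windows. -/
theorem Rls.a3 {sn : ℕ → ℝ → ℝ} {s σ t q Λ T E ε ς υ : ℝ} {n : ℕ} {vv : ℕ → ℝ}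
    {xa b xj xl δ : ℝ} (h : Rls sn s σ t q Λ T E ε ς υ n vv xa b xj xl δ)
    {i : ℕ} (hi : i ≤ n) :
    |s * (sn 3 (vv i) - sn 3 b) - σ * ((n - i) * υ - δ)| ≤ s * ((σ + 2) * E) := by
  have h1 := abs_le.1 (h.l3 i hi)
  have h2 := abs_le.1 h.l3b
  have h3 := h.vs i hi
  have hs : 0 < s := by linarith [h.s1]
  have hσ : 0 < σ := by linarith [h.s1, h.sσ]
  obtain ⟨w, hw⟩ : ∃ w : ℝ, w = ((s - 1) * δ + (n - i) * υ) / s := ⟨_, rfl⟩
  rw [← hw] at h3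
  have h4 : s * w = (s - 1) * δ + (n - i) * υ := by
    rw [hw]
    field_simp
  have h5 : |σ * (vv i - (xa + w))| ≤ σ * E := by
    rw [abs_mul, abs_of_pos hσ]
    exact mul_le_mul_of_nonneg_left h3 hσ.le
  have h6 := abs_le.1 h5
  have h8 : |(sn 3 (vv i) - sn 3 b) - σ * (w - δ)| ≤ (σ + 2) * E := by
    rw [h.bx] at h2 ⊢
    rw [abs_le]
    constructor <;> linarith [h1.1, h1.2, h2.1, h2.2, h6.1, h6.2]
  have h9 : s * (sn 3 (vv i) - sn 3 b) - σ * ((n - i) * υ - δ) =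
      s * ((sn 3 (vv i) - sn 3 b) - σ * (w - δ)) := by
    linear_combination σ * h4
  rw [h9, abs_mul, abs_of_pos hs]
  exact mul_le_mul_of_nonneg_left h8 hs.le

theorem Rls.wn {sn : ℕ → ℝ → ℝ} {s σ t q Λ T E ε ς υ : ℝ} {n : ℕ} {vv : ℕ → ℝ}
    {xa b xj xl δ : ℝ} (h : Rls sn s σ t q Λ T E ε ς υ n vv xa b xj xl δ) :
    n * υ + (2 * ε + 10 * E) ≤ δ ∧ 0 ≤ δ ∧ ∀ i ≤ n, vv i ≤ b + E ∧ xa - E ≤ vv i := by
  have hs : 0 < s := by linarith [h.s1]
  have hσ : 0 < σ := by linarith [h.s1, h.sσ]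
  have hE := h.E0
  have hε := h.ε0
  have hυ := h.υ0
  have hn : (0 : ℝ) ≤ n := Nat.cast_nonneg n
  have hnυ : 0 ≤ n * υ := mul_nonneg hn hυ
  have h1 := h.sh
  have hδ : 0 ≤ δ := by
    have h2 : 0 ≤ (σ - s) * δ := le_trans (by positivity) h1
    have h3 : 0 < σ - s := by linarith [h.sσ]
    exact nonneg_of_mul_nonneg_right h2 h3
  have h4 : n * υ + (2 * ε + 10 * E) ≤ δ := by
    have h5 : σ * (n * υ + (2 * ε + 10 * E)) ≤ σ * δ := by
      have : 0 ≤ s * δ := mul_nonneg hs.le hδ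
      linarith
    exact le_of_mul_le_mul_left h5 hσ
  refine ⟨h4, hδ, fun i hi => ?_⟩
  have h3 := abs_le.1 (h.vs i hi)
  have hin : (i : ℝ) ≤ n := by exact_mod_cast hi
  have hi0 : (0 : ℝ) ≤ i := Nat.cast_nonneg i
  have h6 : ((s - 1) * δ + (n - i) * υ) / s ≤ δ := by
    rw [div_le_iff₀ hs]
    nlinarith
  have h7 : 0 ≤ ((s - 1) * δ + (n - i) * υ) / s := by
    have : 0 ≤ s - 1 := by linarith [h.s1]
    have : 0 ≤ (n : ℝ) - i := by linarith
    positivity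
  rw [h.bx]
  constructor <;> linarith [h3.1, h3.2]


theorem nms_of {sn : ℕ → ℝ → ℝ} {s σ t q Λ T E ε ς υ : ℝ} {n : ℕ} {vv : ℕ → ℝ}
    {xa b xj xl δ : ℝ} (h : Rls sn s σ t q Λ T E ε ς υ n vv xa b xj xl δ) {J : ℕ}
    (hJ : (n : ℝ) + 12 ≤ E * J) :
    ∃ (g : Fin 3 → ℕ) (r : ℕ), Nms sn t ς ε (1 - Λ * q) (2 * ε + (3 * σ + 12) * E) υ (n + 2) J n vv
      xa b xj xl (sn 3 (vv n)) (sn 3 (vv 0) - (2 * ε + E)) g ⌊xa * J⌋₊ ⌊υ * J⌋₊ r
      ⌊(sn 0 t + T * q) * J⌋₊ ⌊(sn 0 t - t + T * q) * J⌋₊ := by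
  have s1 := h.s1
  have sσ := h.sσ
  have hs : 0 < s := by linarith
  have hσ : 0 < σ := by linarith
  have hE := h.E0
  have hε := h.ε0
  have hυ := h.υ0
  have hq := h.q0
  have hn : (0 : ℝ) ≤ n := Nat.cast_nonneg n
  have hn1 : (1 : ℝ) ≤ n := by exact_mod_cast h.n1
  have hnυ : 0 ≤ n * υ := mul_nonneg hn hυ
  obtain ⟨hnδ, hδ, hvb⟩ := h.wn
  have hJ0 : (0 : ℝ) ≤ J := Nat.cast_nonneg J
  obtain ⟨X, hX⟩ : ∃ X : ℝ, X = J := ⟨_, rfl⟩
  have mj : ∀ {x y : ℝ}, x ≤ y → x * X ≤ y * X := fun h => by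
    rw [hX]
    exact mul_le_mul_of_nonneg_right h hJ0
  rw [← hX] at hJ hJ0 ⊢
  have hsE : 0 ≤ s * E := by positivity
  have hσE : 0 ≤ σ * E := by positivity
  have hsσE : s * E ≤ σ * E := mul_le_mul_of_nonneg_right sσ.le hE.le
  have hsq : 0 ≤ s * q := by positivity
  have hσq : 0 ≤ σ * q := by positivity
  have hsσq : s * q ≤ σ * q := mul_le_mul_of_nonneg_right sσ.le hq
  have htx := h.tx
  have hbx := h.bx
  have hbt := h.bt
  have hlb := h.lb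
  have hjb := h.jb
  have hpa := h.pa
  have hTΛ := h.TΛ
  have hTσ := h.Tσ
  have ht1 := h.t1
  have htE := h.tE
  have l0t := abs_le.1 h.l0t
  have l0b := abs_le.1 h.l0b
  have hbq : b ≤ t + q := hlb.trans hbt
  -- the slope at `b`
  have Sb : ∀ k < 2, b ≤ sn (1 + k) b - (s - 1) * δ + 2 * E ∧
      sn (1 + k) b ≤ sn (1 + k) t + s * q + E := fun k hk => by
    have h1 := abs_le.1 (h.l1b k hk)
    have h2 := h.nt k (by omega)
    have h3 : (s - 1) * δ ≤ (s - 1) * (b - t) :=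
      mul_le_mul_of_nonneg_left (by linarith) (by linarith)
    have h4 : s * (b - t) ≤ s * q := mul_le_mul_of_nonneg_left (by linarith) hs.le
    constructor <;> linarith [h1.1, h1.2]
  -- the numbers
  obtain ⟨a, ha⟩ : ∃ a : ℕ, a = ⌊xa * X⌋₊ := ⟨_, rfl⟩
  obtain ⟨u, hu⟩ : ∃ u : ℕ, u = ⌊υ * X⌋₊ := ⟨_, rfl⟩
  obtain ⟨lP, hlP⟩ : ∃ lP : ℕ, lP = ⌊(sn 0 t + T * q) * X⌋₊ := ⟨_, rfl⟩
  obtain ⟨lL, hlL⟩ : ∃ lL : ℕ, lL = ⌊(sn 0 t - t + T * q) * X⌋₊ := ⟨_, rfl⟩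
  obtain ⟨H, hH⟩ : ∃ H : ℕ → ℕ, H = fun k =>
    ⌊(sn (1 + k) b - b - (2 * ε + (s + 4) * E)) * X⌋₊ := ⟨_, rfl⟩
  obtain ⟨g2, hg2⟩ : ∃ g2 : ℕ, g2 = ⌊(sn 3 (vv 0) - (2 * ε + E)) * X⌋₊ := ⟨_, rfl⟩
  obtain ⟨g1, hg1⟩ : ∃ g1 : ℕ, g1 = ⌊sn 3 (vv n) * X⌋₊ := ⟨_, rfl⟩
  have fl : ∀ {x : ℝ} {y : ℕ}, y = ⌊x * X⌋₊ → 0 ≤ x → x * X - 1 ≤ y ∧ (y : ℝ) ≤ x * X :=
    fun {x y} e hx => by
      rw [e]
      have h1 := Nat.lt_floor_add_one (x * X)
      exact ⟨by linarith, Nat.floor_le (mul_nonneg hx hJ0)⟩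
  have xa0 : 0 ≤ xa := by linarith
  have fa := fl ha xa0
  have fu := fl hu hυ
  have P0 : 0 ≤ sn 0 t + T * q := by linarith [l0t.1]
  have fP := fl hlP P0
  have fH : ∀ k < 2, (sn (1 + k) b - b - (2 * ε + (s + 4) * E)) * X - 1 ≤ H k ∧
      (H k : ℝ) ≤ (sn (1 + k) b - b - (2 * ε + (s + 4) * E)) * X := fun k hk => by
    refine fl (by rw [hH]) ?_
    have := (Sb k hk).1
    linarith
  -- the target
  have A3 : ∀ i ≤ n, |s * (sn 3 (vv i) - sn 3 b) - σ * ((n - i) * υ - δ)| ≤ s * ((σ + 2) * E) :=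
    fun i hi => h.a3 hi
  have dv : ∀ {x y : ℝ}, s * x ≤ s * y → x ≤ y := fun h => le_of_mul_le_mul_left h hs
  have hsh := h.sh
  have hbl := h.bl
  have hfl := h.fl
  have hσε : 0 ≤ σ * ε := by positivity
  have hsε : 0 ≤ s * ε := by positivity
  -- `sn 3 (vv 0) ≤ sn 3 b - δ + ...`
  have B1 : sn 3 (vv 0) - sn 3 b + δ ≤ (σ + 2) * E := dv (by
    have h1 := (abs_le.1 (A3 0 (Nat.zero_le _))).2
    push_cast at h1
    rw [sub_zero] at h1
    nlinarith)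
  have B2 : ∀ i ≤ n, sn 3 (vv 0) - sn 3 (vv i) ≤ σ * (n * υ) + 2 * ((σ + 2) * E) := fun i hi => dv (by
    have h1 := (abs_le.1 (A3 0 (Nat.zero_le _))).2
    have h2 := (abs_le.1 (A3 i hi)).1
    push_cast at h1
    rw [sub_zero] at h1
    have h3 : (i : ℝ) * υ ≤ n * υ := mul_le_mul_of_nonneg_right (by exact_mod_cast hi) hυ
    have h4 : σ * (i * υ) ≤ σ * (n * υ) := mul_le_mul_of_nonneg_left h3 hσ.le
    have h5 : 0 ≤ (s - 1) * (σ * (n * υ)) := mul_nonneg (by linarith) (by positivity)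
    nlinarith)
  have B3 : n * υ + (2 * ε + 4 * E) ≤ sn 3 (vv 0) - sn 3 (vv n) := dv (by
    have h1 := (abs_le.1 (A3 0 (Nat.zero_le _))).1
    have h2 := (abs_le.1 (A3 n le_rfl)).2
    push_cast at h1
    rw [sub_zero] at h1
    rw [sub_self] at h2
    nlinarith)
  have B4 : ∀ i < n, υ + (2 * ε + 2 * E) ≤ sn 3 (vv 0) - sn 3 (vv (i + 1)) := fun i hi => dv (by
    have h1 := (abs_le.1 (A3 0 (Nat.zero_le _))).1
    have h2 := (abs_le.1 (A3 (i + 1) hi)).2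
    push_cast at h1 h2
    rw [sub_zero] at h1
    have h3 : υ ≤ ((i : ℝ) + 1) * υ := by
      have : 0 ≤ (i : ℝ) * υ := mul_nonneg (Nat.cast_nonneg i) hυ
      linarith
    have h4 : σ * υ ≤ σ * (((i : ℝ) + 1) * υ) := mul_le_mul_of_nonneg_left h3 hσ.le
    nlinarith)
  have V0 := hvb 0 (Nat.zero_le _)
  have Vn := hvb n le_rfl
  have l30 := abs_le.1 (h.l3 0 (Nat.zero_le _))
  have l3n := abs_le.1 (h.l3 n le_rfl)
  have l3b := abs_le.1 h.l3b
  have Pn0 : 0 ≤ sn 3 (vv n) := by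
    have h1 := abs_le.1 (h.vs n le_rfl)
    rw [sub_self, zero_mul, add_zero] at h1
    have h2 : s * ((s - 1) * δ / s) = (s - 1) * δ := by field_simp
    have h3 := h.nt 2 (by norm_num)
    norm_num at h3
    have h4 : E ≤ (s - 1) * δ / s := dv (by
      rw [h2]
      nlinarith)
    have h5 : σ * 0 ≤ σ * (vv n - t) := mul_le_mul_of_nonneg_left (by linarith) hσ.le
    linarith [l3n.1]
  have fg1 := fl hg1 Pn0
  have fg2 := fl hg2 (by linarith [B3])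
  have S3v : sn 3 (vv 0) ≤ sn 3 t + σ * q + (σ + 1) * E := by
    have h1 : σ * (vv 0 - t) ≤ σ * (q + E) := mul_le_mul_of_nonneg_left (by linarith [V0.1]) hσ.le
    linarith [l30.2]
  -- the digits
  obtain ⟨g, hg⟩ : ∃ g : Fin 3 → ℕ, g = fun i : Fin 3 => if i = 2 then g2 else a + n * u + H i :=
    ⟨_, rfl⟩
  have g2e : g 2 = g2 := by rw [hg]; rfl
  have gke : ∀ k : Fin 2, g k.castSucc = a + n * u + H k := fun k => by
    rw [hg]
    fin_cases k <;> rfl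
  have gcast : ∀ k : Fin 2, (g k.castSucc : ℝ) = a + n * u + H k := fun k => by
    rw [gke]
    push_cast
    ring
  have nu2 : (n : ℝ) * u ≤ n * υ * X := by
    have := mul_le_mul_of_nonneg_left fu.2 hn
    linarith
  have nu1 : n * υ * X - n ≤ (n : ℝ) * u := by
    have := mul_le_mul_of_nonneg_left fu.1 hn
    linarith
  -- bounds of the digits
  have gu : ∀ k : Fin 2, (g k.castSucc : ℝ) ≤
      (xa + n * υ + sn (1 + k) b - b - (2 * ε + (s + 4) * E)) * X := fun k => by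
    rw [gcast]
    have := (fH k k.2).2
    linarith [fa.2]
  have gl : ∀ k : Fin 2, (xa + n * υ + sn (1 + k) b - b - (2 * ε + (s + 4) * E)) * X - (n + 2) ≤
      (g k.castSucc : ℝ) := fun k => by
    rw [gcast]
    have := (fH k k.2).1
    linarith [fa.1]
  have A1 : ∀ k : Fin 2, ∀ i ≤ n,
      |sn (1 + k) (vv i) - (sn (1 + k) b - δ + (n - i) * υ)| ≤ (s + 2) * E :=
    fun k i hi => h.a1 k.2 hi
  have a12 : 12 ≤ E * X := by linarith
  -- all digits at most the far digits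
  have gW : ∀ v, sn 0 v ≤ t + q + 2 * E → ∀ i : Fin 3,
      (g i : ℝ) + (sn 0 v - sn (1 + i) t + ε) * X + 8 ≤ (sn 0 t + T * q) * X - 1 := fun v hv i => by
    have key : ∀ j : Fin 3, (g j : ℝ) ≤ (sn (1 + j) t + σ * q + (σ + 1) * E - 2 * ε) * X := fun j => by
      by_cases hj : j = 2
      · rw [hj, g2e]
        refine fg2.2.trans (mj ?_)
        show sn 3 (vv 0) - (2 * ε + E) ≤ sn 3 t + σ * q + (σ + 1) * E - 2 * ε
        linarith
      · obtain ⟨k, rfl⟩ : ∃ k : Fin 2, j = k.castSucc := by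
          fin_cases j
          · exact ⟨0, rfl⟩
          · exact ⟨1, rfl⟩
          · exact absurd rfl hj
        refine (gu k).trans (mj ?_)
        have := (Sb k k.2).2
        show xa + n * υ + sn (1 + k) b - b - (2 * ε + (s + 4) * E) ≤
          sn (1 + k) t + σ * q + (σ + 1) * E - 2 * ε
        linarith
    have h1 := key i
    have h2 : (sn (1 + i) t + σ * q + (σ + 1) * E - 2 * ε + (sn 0 v - sn (1 + i) t + ε) + E) * X ≤
        (sn 0 t + T * q) * X := mj (by linarith [l0t.1])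
    linarith
  have W0 : sn 0 (vv 0) ≤ t + q + 2 * E := by
    have := abs_le.1 (h.l0 0 (Nat.zero_le _))
    linarith [V0.1]
  have hlP1 : (sn 0 t + T * q) * X ≤ (1 - 6 * E) * X := mj (by linarith [l0t.2])
  have lPJ : lP ≤ J := by
    have : (lP : ℝ) ≤ J := by
      rw [← hX]
      linarith [fP.2]
    exact_mod_cast this
  have lP6 : 6 ≤ lP := by
    have h1 : (E : ℝ) * X ≤ (sn 0 t + T * q) * X := mj (by linarith [l0t.1])
    have : ((6 : ℕ) : ℝ) ≤ lP := by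
      push_cast
      linarith [fP.1]
    exact_mod_cast this
  have lP6' : ((lP - 6 : ℕ) : ℝ) = (lP : ℝ) - 6 := by
    rw [Nat.cast_sub lP6]
    norm_num
  have g21 : g1 ≤ g2 := by
    rw [hg1, hg2]
    exact Nat.floor_le_floor (mj (by linarith [B3]))
  refine ⟨g, g2 - g1, ?_⟩
  rw [← ha, ← hu, ← hlP, ← hlL]
  have hrc : ((g2 - g1 : ℕ) : ℝ) = (g2 : ℝ) - g1 := Nat.cast_sub g21
  have EX : 0 ≤ E * X := by linarith
  have σEX : 0 ≤ σ * E * X := mul_nonneg hσE hJ0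
  have sEX : 0 ≤ s * E * X := mul_nonneg hsE hJ0
  have sσEX : s * E * X ≤ σ * E * X := mj hsσE
  have εX : 0 ≤ ε * X := mul_nonneg hε hJ0
  have μX : (2 * ε + (3 * σ + 12) * E) * X = 2 * (ε * X) + 3 * (σ * E * X) + 12 * (E * X) := by ring
  have μgX : (2 * ε + (s + 4) * E) * X = 2 * (ε * X) + s * E * X + 4 * (E * X) := by ring
  have ςX : ς * X ≤ E * X := mj h.ςE
  have ςX0 : 0 ≤ ς * X := mul_nonneg h.ς0 hJ0
  have hbX : b * X = xa * X + δ * X := by rw [hbx]; ring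
  have hnδX : n * υ * X + 2 * (ε * X) + 10 * (E * X) ≤ δ * X := by
    have := mj hnδ
    linarith
  have A1X : ∀ k : Fin 2, ∀ i ≤ n,
      sn (1 + k) (vv i) * X ≤ sn (1 + k) b * X - δ * X + ((n : ℝ) - i) * υ * X + s * E * X +
        2 * (E * X) ∧
      sn (1 + k) b * X - δ * X + ((n : ℝ) - i) * υ * X - s * E * X - 2 * (E * X) ≤
        sn (1 + k) (vv i) * X := fun k i hi => by
    have h1 := abs_le.1 (A1 k i hi)
    have h2 := mj h1.1
    have h3 := mj h1.2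
    constructor <;> linarith
  have gu' : ∀ k : Fin 2, (g k.castSucc : ℝ) ≤ xa * X + n * υ * X + sn (1 + k) b * X - b * X -
      (2 * (ε * X) + s * E * X + 4 * (E * X)) := fun k => by
    have := gu k
    linarith
  have gl' : ∀ k : Fin 2, xa * X + n * υ * X + sn (1 + k) b * X - b * X -
      (2 * (ε * X) + s * E * X + 4 * (E * X)) - (n + 2) ≤ g k.castSucc := fun k => by
    have := gl k
    linarith
  have fHu : ∀ k : Fin 2, (H k : ℝ) ≤ sn (1 + k) b * X - b * X -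
      (2 * (ε * X) + s * E * X + 4 * (E * X)) := fun k => by
    have := (fH k k.2).2
    linarith
  have fHl : ∀ k : Fin 2, sn (1 + k) b * X - b * X -
      (2 * (ε * X) + s * E * X + 4 * (E * X)) - 1 ≤ (H k : ℝ) := fun k => by
    have := (fH k k.2).1
    linarith
  have g2u : (g2 : ℝ) ≤ sn 3 (vv 0) * X - 2 * (ε * X) - E * X := by linarith [fg2.2]
  have g2l : sn 3 (vv 0) * X - 2 * (ε * X) - E * X - 1 ≤ (g2 : ℝ) := by linarith [fg2.1]
  have cs : ∀ (Q : Fin 3 → Prop), Q 2 → (∀ k : Fin 2, Q k.castSucc) → ∀ i, Q i := fun Q h2 hk i => by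
    fin_cases i
    · exact hk 0
    · exact hk 1
    · exact h2
  have W : ∀ i ≤ n, sn 0 (vv i) ≤ t + q + 2 * E := fun i hi => by
    have := abs_le.1 (h.l0 i hi)
    linarith [(hvb i hi).1]
  have Wb : sn 0 b ≤ t + q + 2 * E := by linarith
  have B1X : sn 3 (vv 0) * X - sn 3 b * X + δ * X ≤ σ * E * X + 2 * (E * X) := by
    have := mj B1
    linarith
  have B3X : n * υ * X + 2 * (ε * X) + 4 * (E * X) ≤ sn 3 (vv 0) * X - sn 3 (vv n) * X := by
    have := mj B3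
    linarith
  have hςk : ∀ k : Fin 2, 0 ≤ ((k : ℕ) + 1 : ℝ) * ς * X ∧ ((k : ℕ) + 1 : ℝ) * ς * X ≤
      2 * (E * X) := fun k => by
    fin_cases k
    · constructor
      · show 0 ≤ (((0 : ℕ) : ℝ) + 1) * ς * X
        push_cast
        linarith
      · show (((0 : ℕ) : ℝ) + 1) * ς * X ≤ 2 * (E * X)
        push_cast
        linarith
    · constructor
      · show 0 ≤ (((1 : ℕ) : ℝ) + 1) * ς * X
        push_cast
        linarith
      · show (((1 : ℕ) : ℝ) + 1) * ς * X ≤ 2 * (E * X)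
        push_cast
        linarith
  have dge : ∀ x (k : Fin 2), dgV sn ς x k * X = sn (1 + k) x * X - x * X -
      ((k : ℕ) + 1 : ℝ) * ς * X := fun x k => by
    unfold dgV
    ring
  have Lx : ∀ k : Fin 2, sn (1 + k) b * X + (s - 1) * (xl - b) * X + (xl - b) * X - 2 * (E * X) ≤
      sn (1 + k) xl * X := fun k => by
    have h1 := (abs_le.1 (h.l1l k k.2)).1
    have h2 := (abs_le.1 (h.l1b k k.2)).2
    have := mj (show sn (1 + k) b + (s - 1) * (xl - b) + (xl - b) - 2 * E ≤ sn (1 + k) xl by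
      linarith)
    linarith
  have Lj : ∀ k : Fin 2, sn (1 + k) xj * X ≤
      sn (1 + k) b * X + (s - 1) * (xj - b) * X + (xj - b) * X + 2 * (E * X) := fun k => by
    have h1 := (abs_le.1 (h.l1j k k.2)).2
    have h2 := (abs_le.1 (h.l1b k k.2)).1
    have := mj (show sn (1 + k) xj ≤ sn (1 + k) b + (s - 1) * (xj - b) + (xj - b) + 2 * E by
      linarith)
    linarith
  have upX := mj h.up
  have lwX := mj h.lw
  have hμ0 : 0 ≤ (2 * ε + (3 * σ + 12) * E) * X := by linarith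
  have δX : 0 ≤ δ * X := mul_nonneg hδ hJ0
  have nυX : 0 ≤ n * υ * X := mul_nonneg hnυ hJ0
  subst hX
  exact {
    lP6 := lP6
    lPJ := lPJ
    lPL := by
      have h1 : (lP : ℝ) < lL + a + 2 := by
        have h2 := Nat.lt_floor_add_one ((sn 0 t - t + T * q) * (J : ℝ))
        rw [← hlL] at h2
        have h3 := mj htx
        linarith [fP.2, fa.1]
      have h4 : lP < lL + a + 2 := by exact_mod_cast h1
      exact h4.le
    mM := by
      have h1 : ((a + n * u : ℕ) : ℝ) ≤ J := by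
        push_cast
        have h2 : b * (J : ℝ) ≤ 1 * J := mj (by linarith)
        linarith [fa.2]
      have h3 : a + n * u ≤ J := by exact_mod_cast h1
      omega
    u1 := fu.1
    u2 := fu.2
    raw := fun i => pw4 (by
      have h1 := gW t (by linarith [l0t.2]) i
      have h2 : (sn 0 t + T * q + (1 - Λ * q - sn 0 t) + 8 * E) * (J : ℝ) ≤ 1 * J := mj (by linarith)
      linarith)
    g8 := fun i => by
      have h1 := gW t (by linarith [l0t.2]) i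
      have h2 := h.rt i i.2
      have h3 : (T * q + sn (1 + i) t) * (J : ℝ) ≤ 1 * J := mj (by linarith)
      have h4 : ((g i + 8 : ℕ) : ℝ) ≤ J := by
        push_cast
        linarith
      exact_mod_cast h4
    b1 := fun k => pw1 (by linarith [gu' k])
    b2 := fun i => pw2 (by linarith [gW b Wb i, fP.1])
    b3 := by
      rw [g2e]
      linarith
    b4 := by
      rw [g2e]
      linarith [fa.1]
    b5 := fun k => by
      have := fHu k
      rw [gcast]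
      push_cast
      linarith
    r1 := cs _ (pw1 (by
      rw [g2e]
      show (g2 : ℝ) + 2 + (2 * ε - sn 3 (vv 0)) * J ≤ 0
      linarith)) fun k => pw1 (by
        have h1 := gu' k
        have h2 := (A1X k 0 (Nat.zero_le _)).2
        push_cast at h2
        show (g k.castSucc : ℝ) + 2 + (2 * ε - sn (1 + k) (vv 0)) * J ≤ 0
        linarith)
    r2 := fun i => pw2 (by
      rw [lP6']
      linarith [gW (vv 0) W0 i, fP.1])
    r3 := by
      have h1 : (sn 0 (vv 0) + E) * (J : ℝ) ≤ (sn 0 t + T * q) * J := mj (by linarith [l0t.1])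
      linarith [fP.1]
    r4 := cs _ (fun h => absurd h (by decide)) fun k _ => by
      have h1 := gl' k
      have h2 := (A1X k 0 (Nat.zero_le _)).1
      push_cast at h2
      show sn (1 + k) (vv 0) * J ≤ g k.castSucc + (2 * ε + (3 * σ + 12) * E) * J
      linarith
    r5 := g2e.trans hg2
    r6 := by
      rw [g2e, ← hg1]
      omega
    r7 := fun k => by
      have h1 := fHu k
      have h2 := (A1X k n le_rfl).2
      rw [gcast]
      push_cast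
      linarith [fa.2]
    r8 := by
      rw [g2e, hrc, abs_le]
      constructor <;> linarith [fg1.1, fg1.2]
    r9 := by
      have h1 : ((n * u : ℕ) : ℝ) ≤ (g2 - g1 : ℕ) := by
        rw [hrc]
        push_cast
        linarith [fg1.2]
      exact_mod_cast h1
    f1 := fun i hi k => by
      have hin : (i : ℝ) + 1 ≤ n := by exact_mod_cast hi
      have hi0 : (0 : ℝ) ≤ i := Nat.cast_nonneg i
      have h0 : 0 ≤ (n : ℝ) - ((i : ℝ) + 1) := by linarith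
      have h1 := fHu k
      have h2 := fHl k
      have h3 := A1X k (i + 1) hi
      have h4 := mul_le_mul_of_nonneg_left fu.2 h0
      have h5 := mul_le_mul_of_nonneg_left fu.1 h0
      push_cast at h3
      rw [gcast, abs_le]
      constructor <;> linarith [fa.1, fa.2, h3.1, h3.2]
    f2 := fun i hi => by
      have h1 := mj (B4 i hi)
      rw [g2e]
      linarith [fu.2]
    f3 := fun i hi => by
      have h1 := mj (B2 i hi)
      have h2 : σ * (n * υ) ≤ σ * q := mul_le_mul_of_nonneg_left (by linarith) hσ.le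
      have h3 : (σ * (n * υ) + 2 * ((σ + 2) * E)) * (J : ℝ) ≤ (1 - (1 - Λ * q)) * J :=
        mj (by linarith)
      rw [g2e]
      linarith
    f4 := fun i hi l => pw3 (by linarith [gW (vv i) (W i hi) l])
    d1 := fun k => by
      have h1 := fHl k
      have h2 := hςk k
      rw [dge, gcast]
      push_cast
      linarith [h2.1]
    d2 := fun k => by
      have h1 := fHu k
      have h2 := hςk k
      have h3 := Lx k
      rw [dge, gcast]
      push_cast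
      linarith [h2.2]
    d3 := fun k => by
      have h2 := hςk k
      have h3 := Lx k
      rw [dge, dge]
      push_cast
      linarith [h2.2]
    n1 := fun k => by
      have h1 := fHl k
      have h2 := hςk k
      have h3 := Lj k
      have h4 : ((n * u - u : ℕ) : ℝ) = n * u - u := by
        rw [Nat.cast_sub (Nat.le_mul_of_pos_left u h.n1)]
        push_cast
        ring
      rw [dge, gcast, h4]
      push_cast
      linarith [h2.1, fu.1] }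

end Pool.D164
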