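import Pool.Agent.H64.D1.Lit
import Pool.Agent.H64.D1.Num
import Pool.Agent.H64.TIU.Tie
import Pool.Agent.H48.T4X.Own
import Pool.Agent.H91.T4.Cut

/-!
# Two alive places of one slope below a faster target: the tie on one event

`TieD`: the conclusion of the tie. `d1_ev`: one event. `d1_cor`: the class.
-/

set_option autoImplicit false

namespace Pool.D164

open Finset Real MvPolynomial
open Pool.Agent.H49.Ent Pool.Agent.H32.Dense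
open Pool.STK hiding pr2
open Pool.KA Pool.KSAT Pool.K2S Pool.PB Pool.S6C
open Pool.GEN Pool.CHT Pool.CHX Pool.LA91 Pool.RCD Pool.V0F
open Pool.PRC54 (yQ)
open Pool.FVL91 (qVel)
open Pool.T4N (Frm FrmP fX fV fXs fVs dgV cYp cR1 ClE)
open Pool.IMN17 (ImK)
open Pool.T4E (vtf vt vC)
open Pool.T4G (AffX wD wN wP wG NrW)
open Pool.T4C (FI1G)
open Pool.TIC (tG wS wV ti_ofg)
open Pool.TIU64 (TI TS tie_gen ts_two)

/-- **The tie** with two coordinates and one side. -/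
def TieD (n u₀ : ℕ) (η h ϖ δ ε₀ : ℝ) : Prop :=
  ∀ (Ω Λ Φ Γ 𝒞 𝒮 υ : Type) (_ : Fintype Ω) (p : Ω → ℝ) (L : Ω → Λ) (t tf : Ω → ℤ)
    (G : Ω → Γ) (D : Λ → Fin 2 → ℤ) (P0 : Λ → Fin 2 → ℝ) (C : Λ → 𝒞) (cd : Λ → 𝒮)
    (pv : 𝒞 → 𝒮 → ℤ → Fin 1 → ℤ) (Fp : Ω → Φ) (z : Φ → Fin 2 → ℤ) (Y0 : Φ → υ)
    (W : Φ → Fin 1 → ℤ) (M u : ℕ), u₀ ≤ u →
    TI (N := 1) p L t tf G D P0 C cd pv Fp z Y0 W (n * u) M 10 (η * u) h ϖ →
    FI1G (N := 1) p L Fp (fun ω => z (Fp ω)) (fun ω => (Y0 (Fp ω), W (Fp ω))) u n 0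
      (u * Real.log 2 - η * u) ϖ →
    ∃ E : Ω → Prop, δ ≤ Pe p E ∧
      CH (Pool.Agent.H49.Ent.cond p E True) (fun ω i => D (L ω) i / 2 ^ (n * u - u)) G ≤ ε₀ * u

theorem tieD_ex {h : ℝ} (h0 : 0 < h) (h1 : h ≤ 1) : ∃ (n : ℕ) (δ ϖ : ℝ), 1 ≤ n ∧ 0 < δ ∧ 0 < ϖ ∧
    ∀ ε : ℝ, 0 < ε → ∃ η : ℝ, 0 < η ∧ ∃ u₀ : ℕ, TieD n u₀ η h ϖ δ ε := by
  obtain ⟨n, δ, ϖ, hn, hδ, hϖ, H⟩ := tie_gen ts_two h0 h1 1
  refine ⟨n, δ, ϖ, hn, hδ, hϖ, fun ε hε => ?_⟩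
  obtain ⟨η, hη, H1⟩ := H ε hε
  obtain ⟨u₀, H2⟩ := H1 10
  refine ⟨η, hη, u₀, ?_⟩
  intro Ω Λ Φ Γ 𝒞 𝒮 υ iΩ p L t tf G D P0 C cd pv Fp z Y0 W M u hu T I
  exact H2 Ω Λ Φ Γ 𝒞 𝒮 υ iΩ p L t tf G D P0 C cd pv Fp z Y0 W M u hu T fun _ => I

/-- A smaller bound of the images. -/
theorem FI1G.mono {Ω Λ Φ υ : Type} [Fintype Ω] {N : ℕ} {p : Ω → ℝ} {L : Ω → Λ} {Fp : Ω → Φ}
    {z : Ω → Fin (N + 1) → ℤ} {Yb : Ω → υ} {x B t : ℕ} {b b' ϖ : ℝ} (h : FI1G p L Fp z Yb x B t b ϖ)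
    (hb : b' ≤ b) : FI1G p L Fp z Yb x B t b' ϖ :=
  fun j kL kP ka E h1 h2 h3 i hi G hG h4 h5 => hb.trans (h j kL kP ka E h1 h2 h3 i hi G hG h4 h5)

variable {m J : ℕ}

/-- **The tie on one event.** -/
theorem d1_ev (hRc : RecStmt) {F : Fam m J} {c : ℕ → Fin m} {sn : ℕ → ℝ → ℝ}
    {B : F.Ω → Prop} {w P : Fin 3 → ℕ} {Fr : Frm F} {b xa ε R μ ς υ Kc P₁ P₂ t xj xl η h ϖ δ ε₀ ef : ℝ}
    {n u₀ : ℕ} {vv : ℕ → ℝ} {g : Fin 3 → ℕ} {u r lP lL k : ℕ}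
    (hM : Nms sn t ς ε R μ υ Kc J n vv xa b xj xl P₁ P₂ g ⌊xa * J⌋₊ u r lP lL)
    (hB : 0 < Pe F.p B) (hFr : FrmP F c w P B Fr)
    (hNt : NatE F c sn b ε R (fun i => sn 0 b - sn (1 + i) t + ε) B (fX F c w Fr) (fV F c w Fr))
    (hε : 0 ≤ ε) (hμ : 0 ≤ μ) (hxa : 0 ≤ xa) (hab : xa ≤ b) (hb1 : b ≤ 1)
    (hw : ∀ i, w i ≤ ⌊xa * J⌋₊)
    {z : PtT F → Fin 2 → ℤ} {N : PtT F → Fin 1 → ℤ}
    {Y0 : PtT F → ℤ × ((ClE F B xa → Prop) × (ℕ × F.ζ))}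
    (hDg : Dgt F c B (fX F c w Fr) xa g lP k z N Y0)
    (hη : 0 ≤ η) (hu : u₀ ≤ u)
    -- the errors
    (hfew : (8 * ε + 4 * μ) * J + 40 ≤ η * u)
    (full : J * Real.log 2 - η * u ≤ CH (cB F B) F.T (fun ω => (F.l ω, F.Z ω)))
    (free : CH (cB F B)
        (fun ω => wD (fun s (k : Fin 2) => fVs c w Fr ⌊xa * J⌋₊ s k.castSucc)
          ⌊xa * J⌋₊ (fun k => g k.castSucc) (slam F ⌊xa * J⌋₊ ω))
        (fun ω => (wN (fun s (k : Fin 2) => fVs c w Fr ⌊xa * J⌋₊ s k.castSucc)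
          ⌊xa * J⌋₊ (fun k => g k.castSucc) (n * u) (slam F ⌊xa * J⌋₊ ω),
          vC (cYp c lP lL ⌊xa * J⌋₊) (cR1 F B xa) (slam F ⌊xa * J⌋₊ ω))) - ef ≤
      CH (cB F B)
        (fun ω => wD (fun s (k : Fin 2) => fVs c w Fr ⌊xa * J⌋₊ s k.castSucc)
          ⌊xa * J⌋₊ (fun k => g k.castSucc) (slam F ⌊xa * J⌋₊ ω))
        (wG (fun s (k : Fin 2) => fVs c w Fr ⌊xa * J⌋₊ s k.castSucc) ⌊xa * J⌋₊
          (fun k => g k.castSucc) (n * u) (fun ω => (cR F B b ω, cR F B xa ω))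
          (cYp c lP lL ⌊xa * J⌋₊)))
    (hef : ef ≤ η * u)
    (row : ∀ E : F.Ω → Prop, ϖ ≤ Pe (cB F B) E → 0 < Pe (cB F B) E →
      CH (Pool.Agent.H49.Ent.cond (cB F B) E True) (fun ω => z (ptr F J ω))
        (fun ω => ((fun l => z (ptr F J ω) l / 2 ^ (n * u)), (Y0 (ptr F J ω), N (ptr F J ω)))) ≤
        ((1 : ℕ) + 1 - h) * (n * u : ℕ) * Real.log 2 + η * u)
    (img : FI1G (N := 1) (cB F B) (slam F ⌊xa * J⌋₊) (ptr F J) (fun ω => z (ptr F J ω))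
        (fun ω => (Y0 (ptr F J ω), N (ptr F J ω))) u n 0 (u * Real.log 2 - η * u) ϖ)
    (tie : TieD n u₀ η h ϖ δ ε₀) :
    ∃ E : F.Ω → Prop, δ ≤ Pe (cB F B) E ∧ CH (Pool.Agent.H49.Ent.cond (cB F B) E True)
        (fun ω i => wD (fun s (k : Fin 2) => fVs c w Fr ⌊xa * J⌋₊ s k.castSucc)
          ⌊xa * J⌋₊ (fun k => g k.castSucc) (slam F ⌊xa * J⌋₊ ω) i / 2 ^ (n * u - u))
        (tG ⌊xa * J⌋₊ (fun ω => (cR F B b ω, cR F B xa ω)) (cYp c lP lL ⌊xa * J⌋₊)) ≤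
        ε₀ * u := by
  have hp : IsLaw (cB F B) := isLaw_cond F.isLaw hB
  have h0 := hp.nonneg
  obtain ⟨hX, hU, hKa, hKz, hY0, few⟩ := hRc hB hFr hNt hε hμ hxa hab hb1 hw g (n * u) lP lL k z N
    Y0 hDg hM.lP6 hM.lPL hM.b1 hM.b2 hM.b3 hM.b4 hM.b5
  have haJ : ⌊xa * (J : ℝ)⌋₊ ≤ J := by
    refine Nat.floor_le_of_le ?_
    have := mul_le_mul_of_nonneg_right (hab.trans hb1) (Nat.cast_nonneg (α := ℝ) J)
    linarith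
  have hBp : ∀ ω, 0 < cB F B ω → B ω := fun ω hω =>
    of_eq_true ((cond_pos_iff F.isLaw.nonneg B True ω).1 hω).2
  refine tie F.Ω (LnT F) (PtT F) _ _ _ _ inferInstance (cB F B) (slam F ⌊xa * J⌋₊)
    (vt F ⌊xa * J⌋₊ (n * u)) (vtf F ⌊xa * J⌋₊)
    (tG ⌊xa * J⌋₊ (fun ω => (cR F B b ω, cR F B xa ω)) (cYp c lP lL ⌊xa * J⌋₊)) _
    (wP (fun s (i : Fin 2) => fXs c w Fr ⌊xa * J⌋₊ s i.castSucc) (fun i => g i.castSucc))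
    (vC (cYp c lP lL ⌊xa * J⌋₊) (cR1 F B xa))
    (wS (fun s (_ : Fin 1) => fXs c w Fr ⌊xa * J⌋₊ s 2)
        (fun s _ => fVs c w Fr ⌊xa * J⌋₊ s 2) ⌊xa * J⌋₊ (fun _ => g 2))
    (wV (J - ⌊xa * J⌋₊)) (ptr F J) z Y0 N (J - ⌊xa * J⌋₊) u hu ?_ img
  exact ti_ofg (N := 1) hp haJ hM.mM (K := 10) (by norm_num) (by positivity) hX hU
    (fun ω hω i => hDg.zz ω (hBp ω hω) i) (fun ω hω j => hDg.nn ω (hBp ω hω) j) hKa hKz hY0 full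
    (by
      refine le_trans (sub_le_sub_left hef _) (free.trans (CH_mono_cond h0 fun ω ω' _ _ e => ?_))
      have e1 := Prod.ext_iff.1 e
      have e2 := Prod.ext_iff.1 e1.2
      have e3 := Prod.ext_iff.1 e2.2
      exact Prod.ext (Prod.ext e1.1 (Prod.ext e2.1 e3.1)) e3.2)
    (few.trans hfew) row


/-- The windows of the frame and of the blocks. -/
noncomputable def wsD (t b : ℝ) (vv : ℕ → ℝ) (k : ℕ) : ℝ :=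
  if k = 0 then t else if k = 1 then b else vv (k - 2)

/-- The precisions of the rows. -/
theorem Rls.pp {sn : ℕ → ℝ → ℝ} {s σ t q Λ T E ε ς υ : ℝ} {n : ℕ} {vv : ℕ → ℝ}
    {xa b xj xl δ : ℝ} (h : Rls sn s σ t q Λ T E ε ς υ n vv xa b xj xl δ) :
    sn 3 (vv n) ≤ sn 3 (vv 0) - (2 * ε + E) ∧ |sn 3 (vv n) - sn 3 t| ≤ Λ * q ∧
    |sn 3 (vv 0) - (2 * ε + E) - sn 3 t| ≤ Λ * q ∧ ∀ i ≤ n, xa ≤ vv i := by
  have s1 := h.s1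
  have sσ := h.sσ
  have hs : 0 < s := by linarith
  have hσ : 0 < σ := by linarith
  have hE := h.E0
  have hε := h.ε0
  have hq := h.q0
  obtain ⟨hnδ, hδ, hvb⟩ := h.wn
  have dv : ∀ {x y : ℝ}, s * x ≤ s * y → x ≤ y := fun h => le_of_mul_le_mul_left h hs
  have hbl := h.bl
  have hσE : 0 ≤ σ * E := by positivity
  have hsE : 0 ≤ s * E := by positivity
  have hsε : 0 ≤ s * ε := by positivity
  have hσq : 0 ≤ σ * q := by positivity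
  have hTΛ := h.TΛ
  have hTσ := h.Tσ
  have htx := h.tx
  have hbq : b ≤ t + q := h.lb.trans h.bt
  have B3 : 0 ≤ sn 3 (vv 0) - sn 3 (vv n) - (2 * ε + E) := dv (by
    have h1 := (abs_le.1 (h.a3 (Nat.zero_le _))).1
    have h2 := (abs_le.1 (h.a3 (le_refl n))).2
    push_cast at h1
    rw [sub_zero] at h1
    rw [sub_self] at h2
    have h3 : 0 ≤ s * (n * υ) := mul_nonneg hs.le (mul_nonneg (Nat.cast_nonneg n) h.υ0)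
    nlinarith)
  have key : ∀ i ≤ n, |sn 3 (vv i) - sn 3 t| ≤ σ * q + σ * E + E := fun i hi => by
    have h1 := abs_le.1 (h.l3 i hi)
    have h2 := hvb i hi
    have h3 : σ * (vv i - t) ≤ σ * (q + E) := mul_le_mul_of_nonneg_left (by linarith) hσ.le
    have h4 : σ * (-E) ≤ σ * (vv i - t) := mul_le_mul_of_nonneg_left (by linarith) hσ.le
    rw [abs_le]
    constructor <;> linarith [h1.1, h1.2]
  have k0 := abs_le.1 (key 0 (Nat.zero_le _))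
  have kn := abs_le.1 (key n le_rfl)
  refine ⟨by linarith, abs_le.2 ⟨by linarith, by linarith⟩,
    abs_le.2 ⟨by linarith, by linarith⟩, fun i hi => ?_⟩
  have h3 := abs_le.1 (h.vs i hi)
  have hin : (i : ℝ) ≤ n := by exact_mod_cast hi
  have h7 : s * E ≤ (s - 1) * δ + (n - i) * υ := by
    have h8 : 0 ≤ ((n : ℝ) - i) * υ := mul_nonneg (by linarith) h.υ0
    linarith [h.pa]
  have h9 : E ≤ ((s - 1) * δ + (n - i) * υ) / s := by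
    rw [le_div_iff₀ hs]
    linarith
  linarith [h3.1]

/-- **The tie in the class.** -/
theorem d1_cor (hDg : DgtStmt) (hRc : RecStmt) (hRw : RowStmt) (hFg : FigStmt) (hNn : NnlStmt)
    (hFr : FreDStmt) {m D : ℕ} {S : PCl m} {c : ℕ → Fin m} {sn : ℕ → ℝ → ℝ} {G : Set ℝ}
    {s σ hr b₀ o t q Λ φ' : ℝ} {bl pl : ℕ → ℝ} {N : ℕ → ℕ → ℝ} {x : ℕ → ℝ} (hNe : S.Ne)
    (hpos : ∀ (τ : ℝ) (J : ℕ) (F : Fam m J) (A : F.Ω → Prop), S.St τ J F A → 0 < Pe F.p A)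
    (hT : ∃ C₀, TmC S C₀) (hr0 : 0 ≤ hr) (Bx : BoxD S c D sn G s σ hr b₀ o t q Λ φ')
    {T E ε ς υ κ κ' CN κN : ℝ} {n i₁ j₁ L : ℕ} {vv : ℕ → ℝ} {xa b xj xl δ : ℝ}
    (hR : Rls sn s σ t q Λ T E ε ς υ n vv xa b xj xl δ)
    (hx0 : x 0 = xa) (hxi : x i₁ = b) (hxj : x j₁ = xj) (hxL : x L = xl) (hij : i₁ ≤ j₁)
    (hjL : j₁ ≤ L) (hvG : vv 0 ∈ G) (hv1 : ∀ i ≤ n, vv i ≤ 1) (hb1 : b ≤ 1) (hbl : ∀ k < 3, bl k ≤ xa)
    (hv0 : vv 0 ≤ t + Λ * q)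
    (hEv : ∀ e₀ : ℝ, 0 < e₀ → ∃ c₀ : ℝ, 0 < c₀ ∧ Bas S (fun J F A =>
      ∃ (B : F.Ω → Prop) (Fr : Frm F), Sub B A ∧ c₀ * Pe F.p A ≤ Pe F.p B ∧
        EvD F c sn bl pl t e₀ ε (1 - Λ * q) (n + 2) (wsD t b vv) B Fr))
    (hI : ∀ i ≤ n, ImK S c 1 3 (fun l => sn (1 + l) (vv i))
      (fun l => (1 - Λ * q) - sn (1 + l) (vv i)) (vv i) (1 - Λ * q) κ κ')
    (hNum : NumD S c sn bl pl (sn 0 t + T * q) (sn 0 t - t + T * q) ς CN κN L x N)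
    {η ϖ δt ε₀ hh μ : ℝ} {u₀ : ℕ} (tie : TieD n u₀ η hr ϖ δt ε₀) (hδt : 0 < δt) (hϖ : 0 < ϖ)
    (hη : 0 < η) (hε₀ : 0 ≤ ε₀) (hμ : μ = 2 * ε + (3 * σ + 12) * E) (hκ : ε + μ < κ)
    (hκ' : 0 ≤ κ') (hh0 : 0 < hh) (hE1 : 8 * ε + 4 * μ + hh ≤ η * υ)
    (hE2 : 3 * μ + 2 * κN + 2 * hh ≤ η * υ)
    (hE3 : κ' + 7 * ε + 6 * μ + φ' + 4 * hh ≤ η * υ) (hκN : 0 ≤ κN) (hφ : 0 ≤ φ') :
    N i₁ j₁ ≤ ε₀ * υ + 2 * μ + hh := by
  classical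
  obtain ⟨hP12, hP1, hP2, hxv⟩ := hR.pp
  have hE := hR.E0
  have hε := hR.ε0
  have hσ0 : 0 < σ := by linarith [hR.s1, hR.sσ]
  have hμ0 : 0 ≤ μ := by
    rw [hμ]
    positivity
  have hxa0 : 0 ≤ xa := hR.t0.trans hR.tx
  have hδ0 := hR.wn.2.1
  have hab : xa ≤ b := by linarith [hR.bx]
  have l2 : 0 < Real.log 2 := Real.log_pos (by norm_num)
  have l1 : Real.log 2 ≤ 1 := by
    have := Real.log_two_lt_d9
    linarith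
  -- the pieces
  obtain ⟨e₁, he₁, F1⟩ := hFr hpos hT hNum (i := 0) (j := i₁) (l := L) (Nat.zero_le _) (hij.trans hjL)
    le_rfl (by rw [hx0]; exact hbl) (by rw [hx0, hxi]; exact hab) (by rw [hxi]; exact hb1)
    (μ := μ) (η := hh) (Kc := (n : ℝ) + 2) hμ0 hh0 (by positivity)
  obtain ⟨e₂, he₂, F2⟩ := hNn (sn := sn) (pl := pl) hpos (xa := xa) (xb := b) (xj := xj) (ς := ς)
    (θ := N i₁ j₁) hxa0 hab hb1 hbl
    (by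
      have := hNum.ev i₁ j₁ hij hjL
      rw [hxi, hxj] at this
      exact this) (μ := μ) (η := hh / 2) (δ := δt) (Kc := (n : ℝ) + 2) hμ0 (by positivity) hδt
    (by positivity)
  obtain ⟨c₀, hc₀, B0⟩ := hEv (min e₁ e₂) (lt_min he₁ he₂)
  have G1 := F1 (min e₁ e₂) (min_le_left _ _)
  have G2 := F2 (min e₁ e₂) (min_le_right _ _)
  have G3 := hRw hR.s1 hR.sσ hr0 hpos Bx (vv 0) (vv n) xa (sn 3 (vv n)) (sn 3 (vv 0) - (2 * ε + E))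
    ε (1 - Λ * q) κ κ' μ hh ϖ (fun i => sn 0 (vv 0) - sn (1 + i) t + ε)
    (fun i => sn 0 (vv n) - sn (1 + i) t + ε) hε hvG hR.tx hxa0 (hxv 0 (Nat.zero_le _)) hv0
    (hxv n le_rfl) (hv1 n le_rfl) (hI n le_rfl) hP12 hP1 hP2 hμ0 hκ hκ' hh0 hϖ
  have G4 := hFg hpos n (fun i => vv (i + 1)) xa ε (1 - Λ * q) κ κ' μ hh ϖ
    (fun j i => sn 0 (vv (j + 1)) - sn (1 + i) t + ε) hxa0 (fun i hi => ⟨hxv _ hi, hv1 _ hi⟩)
    (fun i hi => hI (i + 1) hi) hε hμ0 hκ hκ' hh0 hϖ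
  have G5 := Pool.T4X.full_own hT (show 0 < hh / 2 by positivity)
  have hp : Bas S (fun _ F A => 0 < Pe F.p A) := ⟨1, one_pos, 0, fun J _ F A hA => hpos 1 J F A hA⟩
  have hc2 : 0 < c₀ / 2 := by positivity
  obtain ⟨τ, hτ, J₁, H⟩ := (B0.and hp).and
    (Pool.LBK.Bas.ev (((G1.and G2).and (G3.and G4)).and (G5.and hp)) hc2)
  have hυ0 : 0 < υ := by
    have h1 : 0 < η * υ := lt_of_lt_of_le (by positivity) hE1
    exact (mul_pos_iff_of_pos_left hη).1 h1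
  obtain ⟨J₂, hJ₂⟩ := exists_nat_ge (((n : ℝ) + 12) / E)
  obtain ⟨J₃, hJ₃⟩ := exists_nat_ge ((2 * η + 40) / hh)
  obtain ⟨J₄, hJ₄⟩ := exists_nat_ge (((u₀ : ℝ) + 2) / υ)
  obtain ⟨J, hJ, F, A, hA⟩ := hNe τ hτ (J₁ + J₂ + J₃ + J₄ + 8)
  obtain ⟨⟨⟨B, Fr, hBA, hcB, hev⟩, hPA⟩, hall⟩ := H J (by omega) F A hA
  have hJ0 : (0 : ℝ) < J := by
    have : 0 < J := by omega
    exact_mod_cast this
  have hJ00 := hJ0.le
  have cJ : ∀ {J' : ℕ} {x : ℝ}, J' ≤ J → x ≤ (J' : ℝ) → x ≤ J := fun h1 h2 =>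
    h2.trans (by exact_mod_cast h1)
  have hJE : (n : ℝ) + 12 ≤ E * J := by
    have h1 := cJ (show J₂ ≤ J by omega) hJ₂
    rw [div_le_iff₀ hE] at h1
    linarith
  have hJh : 2 * η + 40 ≤ hh * J := by
    have h1 := cJ (show J₃ ≤ J by omega) hJ₃
    rw [div_le_iff₀ hh0] at h1
    linarith
  have hJu : (u₀ : ℝ) + 2 ≤ υ * J := by
    have h1 := cJ (show J₄ ≤ J by omega) hJ₄
    rw [div_le_iff₀ hυ0] at h1
    linarith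
  obtain ⟨g, r, hM⟩ := nms_of hR hJE
  rw [← hμ] at hM
  obtain ⟨lP, hlP⟩ : ∃ lP : ℕ, lP = ⌊(sn 0 t + T * q) * (J : ℝ)⌋₊ := ⟨_, rfl⟩
  obtain ⟨lL, hlL⟩ : ∃ lL : ℕ, lL = ⌊(sn 0 t - t + T * q) * (J : ℝ)⌋₊ := ⟨_, rfl⟩
  obtain ⟨u, hu⟩ : ∃ u : ℕ, u = ⌊υ * (J : ℝ)⌋₊ := ⟨_, rfl⟩
  rw [← hlP, ← hlL, ← hu] at hM
  -- off the walls
  have hB : 0 < Pe F.p B := lt_of_lt_of_le (by positivity) hcB
  obtain ⟨k, hk2, hk⟩ := Pool.T4G.wall_shift (ι := Fin 1) (isLaw_cond F.isLaw hB)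
    (fun ω _ => (2 : ℝ) ^ (lP - 6) * F.x ω (c 0)) (N := 2) (by norm_num)
  obtain ⟨E', hE'⟩ : ∃ E' : F.Ω → Prop, E' = fun ω => ¬ NrW 2 (yL F c lP k ω) := ⟨_, rfl⟩
  have h2 : (1 - 1 / 2) * Pe F.p B ≤ Pe F.p (fun ω => B ω ∧ E' ω) := by
    refine Pool.T4N91.pe_of_pb F.isLaw hB ?_
    rw [← Pool.LBK.Pe_sum]
    have h3 : Fintype.card (Fin 1) = 1 := Fintype.card_fin 1
    rw [h3] at hk
    refine le_trans (Pool.K2S.Pe_mono (isLaw_cond F.isLaw hB) fun ω hω => ?_)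
      (hk.trans (by norm_num))
    rw [hE', not_not] at hω
    exact ⟨0, hω⟩
  obtain ⟨B', hB'⟩ : ∃ B' : F.Ω → Prop, B' = fun ω => B ω ∧ E' ω := ⟨_, rfl⟩
  rw [← hB'] at h2
  have hBB : Sub B' B := fun ω hω => by
    rw [hB'] at hω
    exact hω.1
  have hoff : ∀ ω, B' ω → ¬ NrW 2 (yL F c lP k ω) := fun ω hω => by
    rw [hB', hE'] at hω
    exact hω.2
  obtain ⟨⟨⟨p1, p2⟩, p3, p4⟩, p5, p6⟩ := hall B' (fun ω hω => hBA ω (hBB ω hω)) (by linarith)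
  -- the event
  have frm := hev.frm.sub hBB
  have hwF : ∀ i : Fin 3, wF bl J i ≤ ⌊xa * J⌋₊ := fun i =>
    Nat.floor_le_floor (mul_le_mul_of_nonneg_right (hbl i i.2) hJ00)
  have hraw : ∀ ω, B' ω → ∀ (i : Fin 3) (o : Option (Fin m)), (2 : ℝ) ^ g i * (8 *
      |coeff (Finsupp.single o 1) (Fr.G i (Fr.z' i (slam F (wF bl J i) ω)))|) ≤ 2 ^ J :=
    fun ω hω i o => le_trans (mul_le_mul_of_nonneg_left (mul_le_mul_of_nonneg_left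
      (hev.raw ω (hBB ω hω) i o) (by norm_num)) (by positivity)) (hM.raw i)
  obtain ⟨z, Nz, Y0, hD⟩ := hDg frm (xa := xa) g lP k hk2 hoff hM.lP6 hM.lPJ (by omega) hraw hM.g8
  have natb : NatE F c sn b ε (1 - Λ * q) (fun i => sn 0 b - sn (1 + i) t + ε) B'
      (fX F c (wF bl J) Fr) (fV F c (wF bl J) Fr) := (hev.nat 1 (by omega)).sub hBB
  have natv : ∀ i ≤ n, NatE F c sn (vv i) ε (1 - Λ * q)
      (fun l => sn 0 (vv i) - sn (1 + l) t + ε) B'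
      (fX F c (wF bl J) Fr) (fV F c (wF bl J) Fr) := fun i hi =>
    (hev.nat (i + 2) (by omega)).sub hBB
  have hu1 : υ * J - 1 ≤ u := hM.u1
  have hu2 : (u : ℝ) ≤ υ * J := hM.u2
  have hηu : η * υ * J - η ≤ η * u := by
    have := mul_le_mul_of_nonneg_left hu1 hη.le
    linarith
  have E1J := mul_le_mul_of_nonneg_right hE1 hJ00
  have E2J := mul_le_mul_of_nonneg_right hE2 hJ00
  have E3J := mul_le_mul_of_nonneg_right hE3 hJ00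
  have εJ : 0 ≤ ε * J := mul_nonneg hε hJ00
  have μJ : 0 ≤ μ * J := mul_nonneg hμ0 hJ00
  have κJ : 0 ≤ κN * J := mul_nonneg hκN hJ00
  have φJ : 0 ≤ φ' * J := mul_nonneg hφ hJ00
  have κ'J : 0 ≤ κ' * J := mul_nonneg hκ' hJ00
  have μlJ : μ * Real.log 2 * J ≤ μ * J := by
    have := mul_le_mul_of_nonneg_left l1 μJ
    linarith
  have hPB' : 0 < Pe F.p B' := lt_of_lt_of_le (by linarith) h2
  rw [hx0, hxi, hxL, ← hlP, ← hlL] at p1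
  rw [← hlP, ← hlL] at p2
  have hu0 : u₀ ≤ u := by
    have h3 : (u₀ : ℝ) ≤ u := by linarith
    exact_mod_cast h3
  have hnr : hr * ((n * u : ℕ) : ℝ) * Real.log 2 ≤ hr * r * Real.log 2 :=
    mul_le_mul_of_nonneg_right (mul_le_mul_of_nonneg_left (by exact_mod_cast hM.r9) hr0) l2.le
  obtain ⟨E, hE1, hE2⟩ := d1_ev hRc hM hPB' frm natb hε hμ0 hxa0 hab hb1 hwF hD hη.le hu0
    (by linarith) (le_trans (by linarith) p5)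
    (p1 Fr frm (fun k => g k.castSucc) (n * u) hM.lPL hM.d1 hM.d2 hM.d3)
    (by linarith)
    (fun E h3 h4 => (p3 (wF bl J) _ Fr frm hwF (natv 0 (Nat.zero_le _)) (natv n le_rfl) g r (n * u)
      lP k hM.r1 hM.r2 (fun ω hω i o => le_trans (mul_le_mul_of_nonneg_left (by
        linarith [abs_nonneg (coeff (Finsupp.single o 1)
          (Fr.G i (Fr.z' i (slam F (wF bl J i) ω))))]) (by positivity)) (hraw ω hω i o))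
      hM.lP6 hM.lPJ hM.r3 hM.r4 hM.r5 hM.r6 hM.r7 hM.r8 (hM.f3 n le_rfl) (hM.f4 n le_rfl) z Nz Y0 hD
      E h3 h4).trans (by
        push_cast at hnr ⊢
        linarith))
    (FI1G.mono (p4 (wF bl J) _ Fr frm (fun i hi => natv (i + 1) hi) g u lP k hM.lP6 hM.lPJ hM.f1
      hM.f2 (fun i hi => hM.f3 (i + 1) hi) (fun i hi => hM.f4 (i + 1) hi) z Nz Y0 hD)
      (by linarith)) tie
  have h5 := p2 Fr frm (fun k => g k.castSucc) (n * u - u) hM.lPL hM.n1 E (ε₀ * u) hE1 hE2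
  refine le_of_mul_le_mul_right ?_ hJ0
  have h6 : ε₀ * u ≤ ε₀ * (υ * J) := mul_le_mul_of_nonneg_left hu2 hε₀
  have h7 : hh / 2 * J ≤ hh * J := mul_le_mul_of_nonneg_right (by linarith) hJ00
  linarith

end Pool.D164
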