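import Pool.Agent.H64.D1.Cls
import Pool.Agent.H4.D1.Evd
import Pool.Agent.H17.D1.Dgt
import Pool.Agent.H17.D1.Rec
import Pool.Agent.H36.D1.Row
import Pool.Agent.H78.D1.Fig
import Pool.Agent.H24.D1.Nnl
import Pool.Agent.H24.D1.FreD

/-!
# Two alive places of one slope below a faster target: the class theorem
-/

set_option autoImplicit false

namespace Pool.D164

/-- **Few velocities.** -/
theorem d1Cls : D1ClsStmt :=
  d1_cls Pool.T4J.evd Pool.D117.dgt Pool.D117.recS Pool.D136.row_stmt Pool.D178.fig
    Pool.D124.nnl_of Pool.D124.freD_of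

end Pool.D164
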