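import Pool.Agent.H4.T4.Frd
import Pool.Agent.H17.IMN.S
import Pool.Agent.H64.D1.S

/-!
# Natural coordinates of the heights over the frame at a window

`NatO`: closed affine labels of a window with natural heights and velocities; the heights over the
frame are combinations of them with closed natural coefficients, up to closed affine functions of the
time and of `c 0`. `NatO.frn`: the labels as in the statements about images. `nat_x`, `nat_v`, `nat_y`: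
two samples with the same labels.
-/

set_option autoImplicit false

namespace Pool.D164

open Finset Real MvPolynomial
open Pool.Agent.H49.Ent Pool.Agent.H32.Dense
open Pool.STK hiding pr2
open Pool.KA Pool.KSAT Pool.K2S Pool.PB Pool.S6C
open Pool.GEN Pool.CHT Pool.CHX Pool.LA91 Pool.RCD Pool.V0F
open Pool.D2F2 (hgp vlp)
open Pool.IMN17 (FrN)

variable {m J : ℕ}

/-- The matrix of the change of the labels: the second height contains the first one. -/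
noncomputable def Pm (k : ℝ) (i : Fin 3) (l : ℕ) : ℝ :=
  if l = i then 1 else if i = 1 ∧ l = 0 then k else 0

/-- **Natural coordinates of the heights over the frame** at the window `v`. `G`: labels of the
window; `ka`: the coefficient of the first height in the second one; `al`, `be`, `ga`: closed affine
functions of the time and of `c 0`; `py`: a closed label of `c 0`; `ε`: the errors; `W`: the rough
bounds of the slopes `ga`; `R`: the bound of the level and the slope of a label. -/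
structure NatO (F : Fam m J) (c : ℕ → Fin m) (sn : ℕ → ℝ → ℝ) (v ε R : ℝ) (W : Fin 3 → ℝ)
    (B : F.Ω → Prop) (fx fv : F.Ω → Fin 3 → ℝ) {V : Type} (z : PtT F → V) (z' : LnT F → V)
    (G : V → ℕ → MvPolynomial (Option (Fin m)) ℝ) (ka : V → ℝ) (al be ga : V → Fin 3 → ℝ)
    (py : V → ℕ → ℝ) : Prop where
  cls : ∀ ω, B ω → z (ptr F J ω) = z' (slam F ⌊v * J⌋₊ ω)
  deg : ∀ y, ∀ l < 3, (G y l).totalDegree ≤ 1
  dep : ∀ y, ∀ l < 3, DepC c (1 + l) (G y l)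
  hgt : ∀ ω, B ω → ∀ l < 3, |hgp F (c (1 + l)) (G (z' (slam F ⌊v * J⌋₊ ω)) l) ω| ≤
    2 ^ ((ε - sn (1 + l) v) * J)
  vel : ∀ ω, B ω → ∀ l < 3, |vlp F (c (1 + l)) (G (z' (slam F ⌊v * J⌋₊ ω)) l) ω| ≤
    2 ^ ((ε + v - sn (1 + l) v) * J)
  kap : ∀ ω, B ω → |ka (z' (slam F ⌊v * J⌋₊ ω))| ≤ 2 ^ ((ε + sn 1 v - sn 2 v) * J)
  fxe : ∀ ω, B ω → ∀ i, fx ω i = ∑ l ∈ range 3, Pm (ka (z' (slam F ⌊v * J⌋₊ ω))) i l *
    hgp F (c (1 + l)) (G (z' (slam F ⌊v * J⌋₊ ω)) l) ω + (al (z' (slam F ⌊v * J⌋₊ ω)) i +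
      be (z' (slam F ⌊v * J⌋₊ ω)) i * F.t ω + ga (z' (slam F ⌊v * J⌋₊ ω)) i * F.x ω (c 0))
  fve : ∀ ω, B ω → ∀ i, fv ω i = ∑ l ∈ range 3, Pm (ka (z' (slam F ⌊v * J⌋₊ ω))) i l *
    vlp F (c (1 + l)) (G (z' (slam F ⌊v * J⌋₊ ω)) l) ω + (be (z' (slam F ⌊v * J⌋₊ ω)) i +
      ga (z' (slam F ⌊v * J⌋₊ ω)) i * F.d ω (c 0))
  slo : ∀ ω, B ω → ∀ i, |ga (z' (slam F ⌊v * J⌋₊ ω)) i| ≤ 2 ^ (W i * J)
  raw : ∀ ω, B ω → ∀ l < 3, ∀ o, |coeff (Finsupp.single o 1) (G (z' (slam F ⌊v * J⌋₊ ω)) l)| ≤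
    2 ^ ((R - sn (1 + l) v + ε) * J)
  ypos : ∀ ω, B ω → |F.x ω (c 0) - py (z' (slam F ⌊v * J⌋₊ ω)) (F.T ω)| ≤ 2 ^ ((ε - sn 0 v) * J)

/-- Natural coordinates exist. -/
def NatE (F : Fam m J) (c : ℕ → Fin m) (sn : ℕ → ℝ → ℝ) (v ε R : ℝ) (W : Fin 3 → ℝ)
    (B : F.Ω → Prop) (fx fv : F.Ω → Fin 3 → ℝ) : Prop :=
  ∃ (V : Type) (z : PtT F → V) (z' : LnT F → V) (G : V → ℕ → MvPolynomial (Option (Fin m)) ℝ)
    (ka : V → ℝ) (al be ga : V → Fin 3 → ℝ) (py : V → ℕ → ℝ),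
    NatO F c sn v ε R W B fx fv z z' G ka al be ga py

section

variable {F : Fam m J} {c : ℕ → Fin m} {sn : ℕ → ℝ → ℝ} {v ε R : ℝ} {W : Fin 3 → ℝ}
  {B B' : F.Ω → Prop}
  {fx fv : F.Ω → Fin 3 → ℝ} {V : Type} {z : PtT F → V} {z' : LnT F → V}
  {G : V → ℕ → MvPolynomial (Option (Fin m)) ℝ} {ka : V → ℝ} {al be ga : V → Fin 3 → ℝ}
  {py : V → ℕ → ℝ}

theorem NatO.sub (h : NatO F c sn v ε R W B fx fv z z' G ka al be ga py) (hB : Sub B' B) :
    NatO F c sn v ε R W B' fx fv z z' G ka al be ga py :=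
  ⟨fun ω hω => h.cls ω (hB ω hω), h.deg, h.dep, fun ω hω => h.hgt ω (hB ω hω),
    fun ω hω => h.vel ω (hB ω hω), fun ω hω => h.kap ω (hB ω hω), fun ω hω => h.fxe ω (hB ω hω),
    fun ω hω => h.fve ω (hB ω hω), fun ω hω => h.slo ω (hB ω hω), fun ω hω => h.raw ω (hB ω hω),
    fun ω hω => h.ypos ω (hB ω hω)⟩

theorem NatE.sub (h : NatE F c sn v ε R W B fx fv) (hB : Sub B' B) :
    NatE F c sn v ε R W B' fx fv := by
  obtain ⟨V, z, z', G, ka, al, be, ga, py, h⟩ := h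
  exact ⟨V, z, z', G, ka, al, be, ga, py, h.sub hB⟩

/-- **The labels**, with another closed code. -/
theorem NatO.frn (h : NatO F c sn v ε R W B fx fv z z' G ka al be ga py) {U : Type}
    {y : PtT F → U} {y' : LnT F → U} (hy : ∀ ω, B ω → y (ptr F J ω) = y' (slam F ⌊v * J⌋₊ ω)) :
    FrN F c 1 3 (fun l => sn (1 + l) v) (fun l => R - sn (1 + l) v) v ε B
      (fun x => (z x, y x)) (fun x => (z' x, y' x)) (fun x => G x.1) where
  cls := fun ω hω => Prod.ext (h.cls ω hω) (hy ω hω)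
  deg := fun x => h.deg x.1
  dep := fun x => h.dep x.1
  pos := fun ω hω l hl => (h.hgt ω hω l hl).trans (le_of_eq (by
    congr 1
    ring))
  slo := fun ω hω l hl o => h.raw ω hω l hl o

/-- The combination of natural numbers. -/
theorem Pm_le {k : ℝ} {x : ℕ → ℝ} {e a₁ a₂ J : ℝ} {a : ℕ → ℝ} (hJ : 0 ≤ J) (he : 0 ≤ e)
    (hk : |k| ≤ 2 ^ ((e + a₁ - a₂) * J)) (hx : ∀ l < 3, |x l| ≤ 2 ^ ((a l) * J))
    (h0 : a 0 + a₁ - a₂ ≤ a 1) (i : Fin 3) :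
    |∑ l ∈ range 3, Pm k i l * x l| ≤ 2 * 2 ^ ((e + a i) * J) := by
  have hm : ∀ i : ℕ, (2 : ℝ) ^ ((a i) * J) ≤ 2 ^ ((e + a i) * J) := fun i =>
    Real.rpow_le_rpow_of_exponent_le (by norm_num)
      (mul_le_mul_of_nonneg_right (by linarith) hJ)
  have hp : ∀ i : ℕ, (0 : ℝ) ≤ 2 ^ ((e + a i) * J) := fun i => by positivity
  have hs : ∑ l ∈ range 3, Pm k i l * x l = Pm k i 0 * x 0 + Pm k i 1 * x 1 + Pm k i 2 * x 2 := by
    rw [Finset.sum_range_succ, Finset.sum_range_succ, Finset.sum_range_one]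
  rw [hs]
  fin_cases i
  · have e0 : Pm k 0 0 = 1 := by simp [Pm]
    have e1 : Pm k 0 1 = 0 := by simp [Pm]
    have e2 : Pm k 0 2 = 0 := by simp [Pm]
    show |Pm k 0 0 * x 0 + Pm k 0 1 * x 1 + Pm k 0 2 * x 2| ≤ 2 * 2 ^ ((e + a 0) * J)
    rw [e0, e1, e2, zero_mul, zero_mul, add_zero, add_zero, one_mul]
    linarith [hx 0 (by norm_num), hm 0, hp 0]
  · have e0 : Pm k 1 0 = k := by simp [Pm]
    have e1 : Pm k 1 1 = 1 := by simp [Pm]
    have e2 : Pm k 1 2 = 0 := by simp [Pm]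
    show |Pm k 1 0 * x 0 + Pm k 1 1 * x 1 + Pm k 1 2 * x 2| ≤ 2 * 2 ^ ((e + a 1) * J)
    rw [e0, e1, e2, zero_mul, add_zero, one_mul]
    have h3 : |k * x 0| ≤ 2 ^ ((e + a 1) * J) := by
      rw [abs_mul]
      refine (mul_le_mul hk (hx 0 (by norm_num)) (abs_nonneg _) (by positivity)).trans ?_
      rw [← Real.rpow_add (by norm_num)]
      refine Real.rpow_le_rpow_of_exponent_le (by norm_num) ?_
      nlinarith
    exact (abs_add_le _ _).trans (by linarith [hx 1 (by norm_num), hm 1])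
  · have e0 : Pm k 2 0 = 0 := by simp [Pm]
    have e1 : Pm k 2 1 = 0 := by simp [Pm]
    have e2 : Pm k 2 2 = 1 := by simp [Pm]
    show |Pm k 2 0 * x 0 + Pm k 2 1 * x 1 + Pm k 2 2 * x 2| ≤ 2 * 2 ^ ((e + a 2) * J)
    rw [e0, e1, e2, zero_mul, zero_mul, zero_add, zero_add, one_mul]
    linarith [hx 2 (by norm_num), hm 2, hp 2]

/-- The heights are natural up to closed affine functions. -/
theorem NatO.pos (h : NatO F c sn v ε R W B fx fv z z' G ka al be ga py) (hε : 0 ≤ ε) {ω : F.Ω}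
    (hω : B ω) (i : Fin 3) : |fx ω i - (al (z' (slam F ⌊v * J⌋₊ ω)) i +
      be (z' (slam F ⌊v * J⌋₊ ω)) i * F.t ω + ga (z' (slam F ⌊v * J⌋₊ ω)) i * F.x ω (c 0))| ≤
      2 * 2 ^ ((2 * ε - sn (1 + i) v) * J) := by
  rw [h.fxe ω hω i, add_sub_cancel_right]
  refine (Pm_le (Nat.cast_nonneg J) hε (h.kap ω hω) (a := fun l => ε - sn (1 + l) v)
    (h.hgt ω hω) (by
      show ε - sn (1 + 0) v + sn 1 v - sn 2 v ≤ ε - sn (1 + 1) v
      norm_num) i).trans (le_of_eq ?_)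
  show 2 * (2 : ℝ) ^ ((ε + (ε - sn (1 + i) v)) * J) = _
  congr 2
  ring

/-- The velocities are natural up to closed affine functions. -/
theorem NatO.vps (h : NatO F c sn v ε R W B fx fv z z' G ka al be ga py) (hε : 0 ≤ ε) {ω : F.Ω}
    (hω : B ω) (i : Fin 3) : |fv ω i - (be (z' (slam F ⌊v * J⌋₊ ω)) i +
      ga (z' (slam F ⌊v * J⌋₊ ω)) i * F.d ω (c 0))| ≤
      2 * 2 ^ ((2 * ε + v - sn (1 + i) v) * J) := by
  rw [h.fve ω hω i, add_sub_cancel_right]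
  refine (Pm_le (Nat.cast_nonneg J) hε (h.kap ω hω) (a := fun l => ε + v - sn (1 + l) v)
    (h.vel ω hω) (by
      show ε + v - sn (1 + 0) v + sn 1 v - sn 2 v ≤ ε + v - sn (1 + 1) v
      norm_num) i).trans (le_of_eq ?_)
  show 2 * (2 : ℝ) ^ ((ε + (ε + v - sn (1 + i) v)) * J) = _
  congr 2
  ring

/-- **The heights of two samples with the same labels and the same time.** -/
theorem nat_x (h : NatO F c sn v ε R W B fx fv z z' G ka al be ga py) (hε : 0 ≤ ε) {ω ω' : F.Ω}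
    (hω : B ω) (hω' : B ω') (e : z' (slam F ⌊v * J⌋₊ ω) = z' (slam F ⌊v * J⌋₊ ω'))
    (ht : F.T ω = F.T ω') (i : Fin 3) : |fx ω i - fx ω' i| ≤
      4 * 2 ^ ((2 * ε - sn (1 + i) v) * J) + 2 ^ (W i * J) * |F.x ω (c 0) - F.x ω' (c 0)| := by
  have h1 := h.pos hε hω i
  have h2 := h.pos hε hω' i
  rw [← e] at h2
  have h3 := h.slo ω hω i
  have e1 : F.t ω' = F.t ω := by
    unfold Fam.t
    rw [ht]
  rw [e1] at h2
  obtain ⟨a, ha⟩ : ∃ a, a = al (z' (slam F ⌊v * J⌋₊ ω)) i := ⟨_, rfl⟩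
  obtain ⟨b, hb⟩ : ∃ b, b = be (z' (slam F ⌊v * J⌋₊ ω)) i := ⟨_, rfl⟩
  obtain ⟨g, hg⟩ : ∃ g, g = ga (z' (slam F ⌊v * J⌋₊ ω)) i := ⟨_, rfl⟩
  rw [← ha, ← hb, ← hg] at h1 h2
  rw [← hg] at h3
  have h4 : |g * (F.x ω (c 0) - F.x ω' (c 0))| ≤
      2 ^ (W i * J) * |F.x ω (c 0) - F.x ω' (c 0)| := by
    rw [abs_mul]
    exact mul_le_mul_of_nonneg_right h3 (abs_nonneg _)
  have e2 : fx ω i - fx ω' i = (fx ω i - (a + b * F.t ω + g * F.x ω (c 0))) -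
      (fx ω' i - (a + b * F.t ω + g * F.x ω' (c 0))) + g * (F.x ω (c 0) - F.x ω' (c 0)) := by
    ring
  rw [e2]
  refine (abs_add_le _ _).trans (add_le_add ((abs_sub _ _).trans ?_) h4)
  linarith

/-- **The velocities of two samples with the same labels.** -/
theorem nat_v (h : NatO F c sn v ε R W B fx fv z z' G ka al be ga py) (hε : 0 ≤ ε) {ω ω' : F.Ω}
    (hω : B ω) (hω' : B ω') (e : z' (slam F ⌊v * J⌋₊ ω) = z' (slam F ⌊v * J⌋₊ ω'))
    (i : Fin 3) : |fv ω i - fv ω' i| ≤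
      4 * 2 ^ ((2 * ε + v - sn (1 + i) v) * J) + 2 ^ (W i * J) * |F.d ω (c 0) - F.d ω' (c 0)| := by
  have h1 := h.vps hε hω i
  have h2 := h.vps hε hω' i
  rw [← e] at h2
  have h3 := h.slo ω hω i
  obtain ⟨b, hb⟩ : ∃ b, b = be (z' (slam F ⌊v * J⌋₊ ω)) i := ⟨_, rfl⟩
  obtain ⟨g, hg⟩ : ∃ g, g = ga (z' (slam F ⌊v * J⌋₊ ω)) i := ⟨_, rfl⟩
  rw [← hb, ← hg] at h1 h2
  rw [← hg] at h3
  have h4 : |g * (F.d ω (c 0) - F.d ω' (c 0))| ≤
      2 ^ (W i * J) * |F.d ω (c 0) - F.d ω' (c 0)| := by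
    rw [abs_mul]
    exact mul_le_mul_of_nonneg_right h3 (abs_nonneg _)
  have e2 : fv ω i - fv ω' i = (fv ω i - (b + g * F.d ω (c 0))) -
      (fv ω' i - (b + g * F.d ω' (c 0))) + g * (F.d ω (c 0) - F.d ω' (c 0)) := by
    ring
  rw [e2]
  refine (abs_add_le _ _).trans (add_le_add ((abs_sub _ _).trans ?_) h4)
  linarith

/-- The position of `c 0` of two samples with the same labels and the same time. -/
theorem nat_y (h : NatO F c sn v ε R W B fx fv z z' G ka al be ga py) {ω ω' : F.Ω}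
    (hω : B ω) (hω' : B ω') (e : z' (slam F ⌊v * J⌋₊ ω) = z' (slam F ⌊v * J⌋₊ ω'))
    (ht : F.T ω = F.T ω') : |F.x ω (c 0) - F.x ω' (c 0)| ≤ 2 * 2 ^ ((ε - sn 0 v) * J) := by
  have h1 := h.ypos ω hω
  have h2 := h.ypos ω' hω'
  rw [← e, ← ht] at h2
  have e2 : F.x ω (c 0) - F.x ω' (c 0) = (F.x ω (c 0) - py (z' (slam F ⌊v * J⌋₊ ω)) (F.T ω)) -
      (F.x ω' (c 0) - py (z' (slam F ⌊v * J⌋₊ ω)) (F.T ω)) := by ring
  rw [e2]
  refine (abs_sub _ _).trans ?_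
  linarith

end

end Pool.D164
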