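import Pool.Agent.H64.D1.Iml
import Pool.Agent.H64.D1.Nat
import Pool.Agent.H36.T4.Frm

/-!
# The images of the blocks from the images of the heights

`img_blk`: one image of a block of digits of the two alive heights is full given the digits of the
target. `img_row`: the digits of the target are full given their upper digits and the upper digits of
the alive heights.
-/

set_option autoImplicit false

namespace Pool.D164

open Finset Real MvPolynomial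
open Pool.Agent.H49.Ent Pool.Agent.H32.Dense
open Pool.STK hiding pr2
open Pool.KA Pool.KSAT Pool.K2S Pool.PB Pool.S6C
open Pool.GEN Pool.CHT Pool.CHX Pool.LA91 Pool.RCD Pool.V0F
open Pool.UNJ (ceI)
open Pool.D2F2 (hgp vlp)
open Pool.IMN17 (FrN imX ImK)
open Pool.T4N (Frm FrmP fX fV)
open Pool.T4H (dg tp)
open Pool.T4I (tp_near)

variable {m J : ℕ}

theorem two_mono {a b : ℝ} (h : a ≤ b) : (2 : ℝ) ^ a ≤ 2 ^ b :=
  Real.rpow_le_rpow_of_exponent_le (by norm_num) h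

theorem two_pos (a : ℝ) : (0 : ℝ) < 2 ^ a := Real.rpow_pos_of_pos (by norm_num) a

theorem two_add (a b : ℝ) : (2 : ℝ) ^ (a + b) = 2 ^ a * 2 ^ b := Real.rpow_add (by norm_num) a b

/-- Larger errors. -/
theorem frn_le {F : Fam m J} {c : ℕ → Fin m} {k r : ℕ} {s xs : ℕ → ℝ} {w e e' : ℝ}
    {A : F.Ω → Prop} {V : Type} {z : PtT F → V} {z' : LnT F → V}
    {G : V → ℕ → MvPolynomial (Option (Fin m)) ℝ} (h : FrN F c k r s xs w e A z z' G)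
    (he : e ≤ e') : FrN F c k r s xs w e' A z z' G where
  cls := h.cls
  deg := h.deg
  dep := h.dep
  pos := fun ω hω l hl => (h.pos ω hω l hl).trans (two_mono (by
    have : (s l - e') * (J : ℝ) ≤ (s l - e) * J :=
      mul_le_mul_of_nonneg_right (by linarith) (Nat.cast_nonneg J)
    linarith))
  slo := fun ω hω l hl o => (h.slo ω hω l hl o).trans (two_mono
    (mul_le_mul_of_nonneg_right (by linarith) (Nat.cast_nonneg J)))

section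

variable {F : Fam m J} {c : ℕ → Fin m} {sn : ℕ → ℝ → ℝ} {v ε R : ℝ} {W : Fin 3 → ℝ}
  {B : F.Ω → Prop} {fx fv : F.Ω → Fin 3 → ℝ} {V : Type} {z : PtT F → V} {z' : LnT F → V}
  {G : V → ℕ → MvPolynomial (Option (Fin m)) ℝ} {ka : V → ℝ} {al be ga : V → Fin 3 → ℝ}
  {py : V → ℕ → ℝ}

/-- The closed affine part. -/
noncomputable def aff (F : Fam m J) (c : ℕ → Fin m) (v : ℝ) (z' : LnT F → V)
    (al be ga : V → Fin 3 → ℝ) (ω : F.Ω) (i : Fin 3) : ℝ :=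
  al (z' (slam F ⌊v * J⌋₊ ω)) i + be (z' (slam F ⌊v * J⌋₊ ω)) i * F.t ω +
    ga (z' (slam F ⌊v * J⌋₊ ω)) i * F.x ω (c 0)

theorem NatO.fx0 (h : NatO F c sn v ε R W B fx fv z z' G ka al be ga py) {ω : F.Ω} (hω : B ω) :
    hgp F (c 1) (G (z' (slam F ⌊v * J⌋₊ ω)) 0) ω = fx ω 0 - aff F c v z' al be ga ω 0 := by
  have h1 := h.fxe ω hω 0
  rw [Finset.sum_range_succ, Finset.sum_range_succ, Finset.sum_range_one] at h1
  simp only [Pm, Fin.val_zero, Fin.isValue] at h1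
  norm_num at h1
  unfold aff
  rw [h1]
  ring

theorem NatO.fx1 (h : NatO F c sn v ε R W B fx fv z z' G ka al be ga py) {ω : F.Ω} (hω : B ω) :
    ka (z' (slam F ⌊v * J⌋₊ ω)) * hgp F (c 1) (G (z' (slam F ⌊v * J⌋₊ ω)) 0) ω +
      hgp F (c 2) (G (z' (slam F ⌊v * J⌋₊ ω)) 1) ω = fx ω 1 - aff F c v z' al be ga ω 1 := by
  have h1 := h.fxe ω hω 1
  rw [Finset.sum_range_succ, Finset.sum_range_succ, Finset.sum_range_one] at h1
  have e0 : Pm (ka (z' (slam F ⌊v * J⌋₊ ω))) 1 0 = ka (z' (slam F ⌊v * J⌋₊ ω)) := by simp [Pm]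
  have e1 : Pm (ka (z' (slam F ⌊v * J⌋₊ ω))) 1 1 = 1 := by simp [Pm]
  have e2 : Pm (ka (z' (slam F ⌊v * J⌋₊ ω))) 1 2 = 0 := by simp [Pm]
  rw [e0, e1, e2] at h1
  unfold aff
  norm_num at h1 ⊢
  rw [h1]
  ring

theorem NatO.fx2 (h : NatO F c sn v ε R W B fx fv z z' G ka al be ga py) {ω : F.Ω} (hω : B ω) :
    hgp F (c 3) (G (z' (slam F ⌊v * J⌋₊ ω)) 2) ω = fx ω 2 - aff F c v z' al be ga ω 2 := by
  have h1 := h.fxe ω hω 2
  rw [Finset.sum_range_succ, Finset.sum_range_succ, Finset.sum_range_one] at h1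
  have e0 : Pm (ka (z' (slam F ⌊v * J⌋₊ ω))) 2 0 = 0 := by simp [Pm]
  have e1 : Pm (ka (z' (slam F ⌊v * J⌋₊ ω))) 2 1 = 0 := by simp [Pm]
  have e2 : Pm (ka (z' (slam F ⌊v * J⌋₊ ω))) 2 2 = 1 := by simp [Pm]
  rw [e0, e1, e2] at h1
  unfold aff
  norm_num at h1 ⊢
  rw [h1]
  ring

/-- The closed affine part of two samples with the same codes, the same time and near positions of
`c 0`. -/
theorem NatO.aff2 (h : NatO F c sn v ε R W B fx fv z z' G ka al be ga py) {ω ω' : F.Ω}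
    (hω : B ω) (e : z' (slam F ⌊v * J⌋₊ ω) = z' (slam F ⌊v * J⌋₊ ω')) (ht : F.T ω = F.T ω')
    (i : Fin 3) : |aff F c v z' al be ga ω i - aff F c v z' al be ga ω' i| ≤
      2 ^ (W i * J) * |F.x ω (c 0) - F.x ω' (c 0)| := by
  have e1 : F.t ω' = F.t ω := by
    unfold Fam.t
    rw [ht]
  unfold aff
  rw [← e, e1]
  have e2 : al (z' (slam F ⌊v * J⌋₊ ω)) i + be (z' (slam F ⌊v * J⌋₊ ω)) i * F.t ω +
      ga (z' (slam F ⌊v * J⌋₊ ω)) i * F.x ω (c 0) - (al (z' (slam F ⌊v * J⌋₊ ω)) i +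
        be (z' (slam F ⌊v * J⌋₊ ω)) i * F.t ω + ga (z' (slam F ⌊v * J⌋₊ ω)) i * F.x ω' (c 0)) =
      ga (z' (slam F ⌊v * J⌋₊ ω)) i * (F.x ω (c 0) - F.x ω' (c 0)) := by ring
  rw [e2, abs_mul]
  exact mul_le_mul_of_nonneg_right (h.slo ω hω i) (abs_nonneg _)

end

/-- The exact position of `c 0`. -/
theorem x_ceI {F : Fam m J} {c : ℕ → Fin m} {ω ω' : F.Ω}
    (h : ceI ((range 1).image c) (fun _ => J) (F.x ω) =
      ceI ((range 1).image c) (fun _ => J) (F.x ω')) :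
    F.X J ω (c 0) = F.X J ω' (c 0) ∧ |F.x ω (c 0) - F.x ω' (c 0)| ≤ 1 / 2 ^ J := by
  have h0 : c 0 ∈ (range 1).image c := by simp
  have h1 := congrFun h (c 0)
  unfold ceI at h1
  rw [if_pos h0, if_pos h0] at h1
  refine ⟨h1, ?_⟩
  have h2 := Int.floor_le ((2 : ℝ) ^ J * F.x ω (c 0))
  have h3 := Int.lt_floor_add_one ((2 : ℝ) ^ J * F.x ω (c 0))
  have h4 := Int.floor_le ((2 : ℝ) ^ J * F.x ω' (c 0))
  have h5 := Int.lt_floor_add_one ((2 : ℝ) ^ J * F.x ω' (c 0))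
  rw [h1] at h2 h3
  have h6 : |(2 : ℝ) ^ J * F.x ω (c 0) - 2 ^ J * F.x ω' (c 0)| ≤ 1 := by
    rw [abs_le]
    constructor <;> linarith
  rw [← mul_sub, abs_mul, abs_of_pos (by positivity)] at h6
  rw [le_div_iff₀ (by positivity)]
  linarith

/-- **The coefficients of the image.** -/
theorem co_bd {c₀ c₁ k e₀ e₁ e₁' κ μ ε X : ℝ} (h0 : |c₀| ≤ 1) (h1 : |c₁| ≤ 1)
    (hp : c₀ = 1 ∨ c₁ = 1) (he₀ : |e₀| ≤ μ * X) (he₁ : |e₁| ≤ μ * X)
    (hk : 2 ^ e₁' * |k| ≤ 2 ^ (e₁ + ε * X)) (hε : 0 ≤ ε * X) (hX : 1 ≤ (κ - μ - ε) * X) :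
    |c₀ * 2 ^ e₀ + c₁ * 2 ^ e₁' * k| ≤ 2 ^ (κ * X) ∧ |c₁ * 2 ^ e₁| ≤ 2 ^ (κ * X) ∧
    (2 ^ (-(κ * X)) ≤ |c₀ * 2 ^ e₀ + c₁ * 2 ^ e₁' * k| ∨ 2 ^ (-(κ * X)) ≤ |c₁ * 2 ^ e₁|) := by
  rw [abs_le] at he₀ he₁
  have hX' : κ * X = (κ - μ - ε) * X + μ * X + ε * X := by ring
  have t1 : (2 : ℝ) ^ ((1 : ℝ)) = 2 := Real.rpow_one 2
  have b1 : |c₁ * 2 ^ e₁' * k| ≤ |c₁ * 2 ^ e₁| * 2 ^ (ε * X) := by
    rw [abs_mul, abs_mul, abs_mul, abs_of_pos (two_pos e₁), abs_of_pos (two_pos e₁'), mul_assoc,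
      mul_assoc, ← two_add]
    exact mul_le_mul_of_nonneg_left hk (abs_nonneg _)
  have b2 : |c₁ * 2 ^ e₁| ≤ 2 ^ (μ * X) := by
    rw [abs_mul, abs_of_pos (two_pos e₁)]
    calc |c₁| * 2 ^ e₁ ≤ 1 * 2 ^ (μ * X) :=
          mul_le_mul h1 (two_mono he₁.2) (two_pos _).le zero_le_one
      _ = _ := one_mul _
  have b3 : |c₀ * 2 ^ e₀| ≤ 2 ^ (μ * X) := by
    rw [abs_mul, abs_of_pos (two_pos e₀)]
    calc |c₀| * 2 ^ e₀ ≤ 1 * 2 ^ (μ * X) :=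
          mul_le_mul h0 (two_mono he₀.2) (two_pos _).le zero_le_one
      _ = _ := one_mul _
  have b4 : |c₁ * 2 ^ e₁' * k| ≤ 2 ^ (μ * X + ε * X) := by
    rw [two_add]
    exact b1.trans (mul_le_mul_of_nonneg_right b2 (two_pos _).le)
  have b5 : (2 : ℝ) * 2 ^ (μ * X + ε * X) ≤ 2 ^ (κ * X) := by
    have : (2 : ℝ) * 2 ^ (μ * X + ε * X) = 2 ^ (1 + (μ * X + ε * X)) := by
      rw [two_add 1, t1]
    rw [this]
    exact two_mono (by linarith)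
  have b6 : (2 : ℝ) ^ (μ * X) ≤ 2 ^ (μ * X + ε * X) := two_mono (by linarith)
  refine ⟨(abs_add_le _ _).trans (by linarith), b2.trans (by linarith [two_pos (μ * X + ε * X)]),
    ?_⟩
  rcases hp with hp | hp
  · by_contra hcon
    push Not at hcon
    obtain ⟨g1, g2⟩ := hcon
    rw [hp, one_mul] at g1
    have g3 : |c₁ * 2 ^ e₁' * k| ≤ 2 ^ (-(κ * X)) * 2 ^ (ε * X) :=
      b1.trans (mul_le_mul_of_nonneg_right g2.le (two_pos _).le)
    rw [← two_add] at g3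
    have g4 : (2 : ℝ) * 2 ^ (-(κ * X) + ε * X) ≤ 2 ^ (-(μ * X)) := by
      have : (2 : ℝ) * 2 ^ (-(κ * X) + ε * X) = 2 ^ (1 + (-(κ * X) + ε * X)) := by
        rw [two_add 1, t1]
      rw [this]
      exact two_mono (by linarith)
    have g5 : (2 : ℝ) ^ (-(κ * X)) ≤ 2 ^ (-(κ * X) + ε * X) := two_mono (by linarith)
    have g6 : (2 : ℝ) ^ (-(μ * X)) ≤ 2 ^ e₀ := two_mono (by linarith)
    have g7 : |(2 : ℝ) ^ e₀| ≤ |2 ^ e₀ + c₁ * 2 ^ e₁' * k| + |c₁ * 2 ^ e₁' * k| := by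
      have := abs_sub (2 ^ e₀ + c₁ * 2 ^ e₁' * k) (c₁ * 2 ^ e₁' * k)
      rwa [add_sub_cancel_right] at this
    rw [abs_of_pos (two_pos e₀)] at g7
    have g8 := two_pos (-(κ * X) + ε * X)
    linarith
  · right
    rw [hp, one_mul, abs_of_pos (two_pos e₁)]
    exact two_mono (by linarith)

end Pool.D164
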